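import Pool.Agent.PB.Outs
import Pool.Agent.PB.Basic
import Pool.Agent.PB.Meas
import Pool.Agent.PB.Link

/-!
# PROJECT PB, Section 12.4 - 12.7: definitions and the interface `In12` (12.1, 12.2, 12.3)
-/

set_option autoImplicit false
open MeasureTheory Filter Topology
open scoped ENNReal BigOperators

namespace Pool.Agent.PB

variable {d : ℕ}

/-! ### boundary edges, the events of 12.4 -/

/-- directed boundary edges `(x, y)`, `x ∈ X`, `y ∉ U`, `x ~ y` -/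
noncomputable def bdE (X U : Finset (V d)) : Finset (V d × V d) := by
  classical exact ((X ×ˢ U1 d).image (fun q => (q.1, q.1 + q.2))).filter (fun q => q.2 ∉ U)

theorem mem_bdE {X U : Finset (V d)} {q : V d × V d} :
    q ∈ bdE X U ↔ q.1 ∈ X ∧ q.2 ∉ U ∧ l1 (q.2 - q.1) = 1 := by
  classical
  unfold bdE
  simp only [Finset.mem_filter, Finset.mem_image, Finset.mem_product, Prod.exists]
  constructor
  · rintro ⟨⟨a, b, ⟨ha, hb⟩, rfl⟩, hq⟩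
    refine ⟨ha, hq, ?_⟩
    rw [mem_U1] at hb
    simpa using hb
  · rintro ⟨h1, h2, h3⟩
    exact ⟨⟨q.1, q.2 - q.1, ⟨h1, (mem_U1 _).2 h3⟩, by simp⟩, h2⟩

/-- the undirected edge of a directed edge -/
def und (q : V d × V d) : Sym2 (V d) := s(q.1, q.2)

/-- `und` is injective on `bdE X U`, `X ⊆ U` -/
theorem und_inj {X U : Finset (V d)} (hX : X ⊆ U) : Set.InjOn (und (d := d)) (bdE X U) := by
  rintro ⟨a, b⟩ h ⟨a', b'⟩ h' hE
  have h1 := mem_bdE.1 (Finset.mem_coe.1 h)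
  have h2 := mem_bdE.1 (Finset.mem_coe.1 h')
  rcases Sym2.eq_iff.1 hE with ⟨rfl, rfl⟩ | ⟨rfl, rfl⟩
  · rfl
  · exact absurd (hX h1.1) h2.2.1

/-- the event 'the label of every boundary edge `(x,y)`, `x ∈ V'`, `y ∉ U`, is `> p_c`' -/
def Bgt (V' U : Finset (V d)) : Set (Om d) :=
  {ω | ∀ q ∈ bdE V' U, pc d < ((ω (Sum.inl (und q)) : unitInterval) : ℝ)}

/-- the event that for some `(x,y) ∈ T` we have `y →_p ∞` off `U` -/
def infT (p : ℝ) (U : Finset (V d)) (T : Finset (V d × V d)) : Set (Om d) :=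
  {ω | ∃ q ∈ T, (ClA (Del.ofSet (U : Set (V d))) (opn p ω) q.2).Infinite}

/-- the event that some boundary edge `(x,y)`, `x ∈ V'`, `y ∉ U` has label `≤ p` and
`y →_p ∞` off `U` -/
def GoodEv (p : ℝ) (V' U : Finset (V d)) : Set (Om d) :=
  {ω | ∃ q ∈ bdE V' U, ((ω (Sum.inl (und q)) : unitInterval) : ℝ) ≤ p ∧
    (ClA (Del.ofSet (U : Set (V d))) (opn p ω) q.2).Infinite}

/-- real two-point function at `p_c` -/
noncomputable def ta (x : V d) : ℝ := (tau (pc d) x).toReal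

/-- `h(x) = Σ_{u ∈ V'} τ(u - x)` -/
noncomputable def hV (V' : Finset (V d)) (x : V d) : ℝ := ∑ u ∈ V', ta (u - x)

/-- `h^far(x) = Σ_{u ∈ V', |u-x| > R_1} τ(u - x)` -/
noncomputable def hF (R1 : ℕ) (V' : Finset (V d)) (x : V d) : ℝ := by
  classical exact ∑ u ∈ V', if u ∈ bx R1 x then 0 else ta (u - x)

/-- `t_3 = Σ_{e,e'} τ^{*3}(· + e - e')` -/
noncomputable def t3 (x : V d) : ℝ≥0∞ := ∑ e ∈ U1 d, ∑ e' ∈ U1 d, cpow (tau (pc d)) 3 (x + e - e')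

/-- (G1) -/
def G1 (R1 : ℕ) (c1 : ℝ) (V' : Finset (V d)) : Prop := ∑ x ∈ V', hF R1 V' x ≤ c1 * V'.card

/-- (G2) -/
def G2 (ε : ℝ) (V' : Finset (V d)) : Prop :=
  ∑ x ∈ V', ∑ x' ∈ V', (t3 (x' - x)).toReal ≤ (Real.sqrt ε)⁻¹ * V'.card

/-- (G3) -/
def G3 (c1 : ℝ) (V' U : Finset (V d)) : Prop := ∑ x ∈ U \ V', hV V' x ≤ c1 * V'.card

/-- the outputs of 12.1, 12.2 (helper88) and 12.3 (helper39) used in 12.4 -/
structure In12 (d : ℕ) : Prop where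
  /-- 12.1 -/
  h1 : ∀ (U V' : Finset (V d)), V' ⊆ U → ∀ ε₁ : ℝ, 0 < ε₁ → ε₁ ≤ 1 / 4 → pc d + ε₁ ≤ 1 →
    ε₁ * V'.card ≤ (pc d / 2) *
      ∑ q ∈ bdE U U, hV V' q.1 * (thA (pc d + ε₁) (Del.ofSet (U : Set (V d))) q.2).toReal
  /-- 12.2 -/
  h2 : ∃ C e0 : ℝ, 1 ≤ C ∧ 0 < e0 ∧ ∀ ε₁ : ℝ, 0 < ε₁ → ε₁ ≤ e0 → ∀ (U : Finset (V d)) (y y' : V d),
    y ∉ U → y' ∉ U → y ≠ y' →
    (Pr d {ω : Om d | (ClA (Del.ofSet (U : Set (V d))) (opn (pc d + ε₁) ω) y).Infinite ∧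
      (ClA (Del.ofSet (U : Set (V d))) (opn (pc d + ε₁) ω) y').Infinite}).toReal ≤
      C * ε₁ ^ 2 + C * ε₁ * (cpow (tau (pc d)) 3 (y' - y)).toReal
  /-- 12.3 -/
  h3 : ∃ c4 : ℝ, 0 < c4 ∧ ∀ (U : Finset (V d)) (T : Finset (V d × V d)) (p1 p2 c3 : ℝ),
    pc d < p1 → p1 ≤ p2 → p2 < 1 → 0 < c3 → c3 ≤ 1 → (∀ q ∈ T, q.2 ∉ U) →
    c3 ≤ (Pr d (infT p1 U T)).toReal →
    1 - (Pr d (infT p2 U T)).toReal ≤ (1 / c3) * ((p1 - pc d) / (p2 - pc d)) ^ c4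

end Pool.Agent.PB
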