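import Pool.Agent.PB.L.Defs
import Pool.Agent.PB.P.Act
import Pool.Agent.PB.P.Expl
import Pool.Agent.PB.P.Conv
import Pool.Agent.PB.BK
import Pool.Agent.PB.P.Tree
import Pool.Agent.PB.P.Reroot

/-!
# PROJECT PB, module PBL-Tree: two consequences of the tree bound 1.5 at `p_c`

PLAN. (T0) TREE BOUND: `Pr{Rch (Oc ω) 0 u ∧ RchT (Oc ω) 0 (ghost false h ω)} ≤ conv τ τ u * Mg d (pc d) h` (`h > 0`): this is 1.5, see P/Tree.lean (helper93) if it is
landed (import it); otherwise prove it here: take a vertex `w` = LAST vertex on (the vertex set `P` of) a simple path from `0` to `u` of a connection from `0` to a green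
vertex: `{0 ↔ w} ∘ {w ↔ u} ∘ {w → G}`; `dOcc`, `bk_Pr` (PB/BK.lean), `Pr{Rch (opn p ω) x y} = tau p (y-x)` (`tau_shift`), `Mg_shift`.
* `tree_ex`: `∫⁻ 1{u ∈ Cl (Oc ω) 0} (1 - ex s (Cl (Oc ω) 0)) = Pr{u ∈ Cl 0, ghost hits Cl 0}` (`lintegral_ghost_hit` with `F` = indicator, `dep_Cl_opn_gI`, `C = Cl`), then (T0).
* `tree_big`: on `{Cl finite, n ≤ ncard}` we have `1 - ex (1/n) (Cl) = 1 - e^{-N/n} ≥ 1 - e^{-1} ≥ 1/2` (`ex_fin`); so
  `Pr{u ∈ Cl (Oc ω) x, finite, n ≤ ncard} ≤ 2 ∫⁻ 1{u ∈ Cl x} (1 - ex (1/n) (Cl x))`, translation to `x = 0` (`Pr_act (trI x)`, `Rch_act`, `Cl_act`), `tree_ex`.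
-/

set_option autoImplicit false
open MeasureTheory Filter Topology
open scoped ENNReal BigOperators

namespace Pool.Agent.PB.L12

variable {d : ℕ}

private theorem meas_mem (u x : V d) : MeasurableSet {ω : Om d | u ∈ Cl (Oc ω) x} :=
  (opn_MES (pc d)).cl x u

theorem tree_ex {s : ℝ} (hs : 0 < s) (u : V d) :
    ∫⁻ ω, (Set.indicator {ω : Om d | u ∈ Cl (Oc ω) (0 : V d)}
      (fun ω => 1 - ex s (Cl (Oc ω) (0 : V d)))) ω ∂Pr d ≤
      conv (tau (pc d)) (tau (pc d)) u * Mg d (pc d) s := by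
  classical
  have hF := meas_mem u (0 : V d)
  have h1 := lintegral_ghost_hit (d := d) false hs (C := fun ω => Cl (opn (pc d) ω) 0)
    ((opn_MES _).cl 0) (dep_Cl_opn_gI _ 0 false)
    (F := Set.indicator {ω : Om d | u ∈ Cl (Oc ω) (0 : V d)} 1) (measurable_one.indicator hF)
    (by
      intro ω ω' h
      have h2 : Cl (opn (pc d) ω) (0 : V d) = Cl (opn (pc d) ω') 0 :=
        dep_Cl_opn_gI (pc d) 0 false h
      have h3 : (ω ∈ {ω : Om d | u ∈ Cl (Oc ω) (0 : V d)}) ↔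
          (ω' ∈ {ω : Om d | u ∈ Cl (Oc ω) (0 : V d)}) := by
        show u ∈ Cl (opn (pc d) ω) (0 : V d) ↔ u ∈ Cl (opn (pc d) ω') (0 : V d)
        rw [h2]
      by_cases h4 : ω ∈ {ω : Om d | u ∈ Cl (Oc ω) (0 : V d)}
      · rw [Set.indicator_of_mem h4, Set.indicator_of_mem (h3.1 h4)]
        rfl
      · rw [Set.indicator_of_notMem h4, Set.indicator_of_notMem (fun hh => h4 (h3.2 hh))])
  have h2 : ∫⁻ ω, (Set.indicator {ω : Om d | u ∈ Cl (Oc ω) (0 : V d)}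
      (fun ω => 1 - ex s (Cl (Oc ω) (0 : V d)))) ω ∂Pr d =
      ∫⁻ ω, Set.indicator {ω : Om d | u ∈ Cl (Oc ω) (0 : V d)} 1 ω *
        (1 - ex s (Cl (opn (pc d) ω) (0 : V d))) ∂Pr d := by
    refine lintegral_congr fun ω => ?_
    by_cases h4 : ω ∈ {ω : Om d | u ∈ Cl (Oc ω) (0 : V d)}
    · rw [Set.indicator_of_mem h4, Set.indicator_of_mem h4, Pi.one_apply, one_mul]
      rfl
    · rw [Set.indicator_of_notMem h4, Set.indicator_of_notMem h4, zero_mul]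
  rw [h2, ← h1, lintegral_indicator_one hF, Measure.restrict_apply hF]
  have h3 := tree_bound' (pc d) s false (0 : V d) u
  rw [sub_zero] at h3
  refine le_trans (measure_mono ?_) h3
  rintro ω ⟨hu, t, ht, htC⟩
  exact ⟨hu, t, ht, htC⟩

private theorem big0 {n : ℝ} (hn : 0 < n) (v : V d) :
    Pr d {ω : Om d | v ∈ Cl (Oc ω) 0 ∧ (Cl (Oc ω) 0).Finite ∧ n ≤ ((Cl (Oc ω) 0).ncard : ℝ)} ≤
      2 * (conv (tau (pc d)) (tau (pc d)) v * Mg d (pc d) (1 / n)) := by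
  have hmeas : Measurable (fun ω : Om d => (Set.indicator {ω : Om d | v ∈ Cl (Oc ω) (0 : V d)}
      (fun ω => 1 - ex (1 / n) (Cl (Oc ω) (0 : V d)))) ω) :=
    (measurable_const.sub (measurable_ex ((opn_MES (pc d)).cl 0))).indicator (meas_mem v 0)
  have h1 := mul_meas_ge_le_lintegral (μ := Pr d) (hmeas.const_mul 2) 1
  rw [one_mul, lintegral_const_mul _ hmeas] at h1
  refine le_trans (measure_mono ?_)
    (h1.trans (mul_le_mul' le_rfl (tree_ex (one_div_pos.2 hn) v)))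
  rintro ω ⟨hv, hf, hc⟩
  show (1 : ℝ≥0∞) ≤ 2 * (Set.indicator {ω : Om d | v ∈ Cl (Oc ω) (0 : V d)}
      (fun ω => 1 - ex (1 / n) (Cl (Oc ω) (0 : V d)))) ω
  rw [Set.indicator_of_mem (show ω ∈ {ω : Om d | v ∈ Cl (Oc ω) (0 : V d)} from hv), ex_fin _ hf]
  have h2 : Real.exp (-(1 / n * ((Cl (Oc ω) (0 : V d)).ncard : ℝ))) ≤ 1 / 2 := by
    have h3 : (1 : ℝ) ≤ 1 / n * ((Cl (Oc ω) (0 : V d)).ncard : ℝ) := by
      rw [one_div, inv_mul_eq_div, le_div_iff₀ hn, one_mul]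
      exact hc
    have h4 : Real.exp (-(1 / n * ((Cl (Oc ω) (0 : V d)).ncard : ℝ))) ≤ Real.exp (-1) :=
      Real.exp_le_exp.2 (by linarith)
    refine h4.trans ?_
    rw [Real.exp_neg, one_div]
    refine inv_anti₀ (by norm_num) ?_
    have := Real.add_one_le_exp 1
    linarith
  calc (1 : ℝ≥0∞) = 2 * ENNReal.ofReal (1 / 2) := by
        rw [← ENNReal.ofReal_ofNat 2, ← ENNReal.ofReal_mul (by norm_num)]
        norm_num
    _ ≤ 2 * (1 - ENNReal.ofReal (Real.exp (-(1 / n * ((Cl (Oc ω) (0 : V d)).ncard : ℝ))))) := by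
        refine mul_le_mul' le_rfl ?_
        rw [← ENNReal.ofReal_one, ← ENNReal.ofReal_sub _ (Real.exp_pos _).le]
        exact ENNReal.ofReal_le_ofReal (by linarith)

theorem tree_big {n : ℝ} (hn : 0 < n) (x u : V d) :
    Pr d {ω : Om d | u ∈ Cl (Oc ω) x ∧ (Cl (Oc ω) x).Finite ∧ n ≤ ((Cl (Oc ω) x).ncard : ℝ)} ≤
      2 * (conv (tau (pc d)) (tau (pc d)) (u - x) * Mg d (pc d) (1 / n)) := by
  refine le_trans (le_of_eq ?_) (big0 hn (u - x))
  rw [← Pr_act (trI x) {ω : Om d | u - x ∈ Cl (Oc ω) 0 ∧ (Cl (Oc ω) 0).Finite ∧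
    n ≤ ((Cl (Oc ω) 0).ncard : ℝ)}]
  congr 1
  ext ω
  have h1 : Cl (Oc (act (trI x) ω)) (0 : V d) = (fun y => y + x) ⁻¹' Cl (Oc ω) x := by
    have := Cl_act (pc d) x ω 0
    rw [zero_add] at this
    exact this
  have h2 : (Cl (Oc (act (trI x) ω)) (0 : V d)).ncard = (Cl (Oc ω) x).ncard := by
    rw [h1]
    exact Set.ncard_preimage_of_injective_subset_range (add_left_injective x)
      (fun y _ => ⟨y - x, by simp⟩)
  have h3 : (Cl (Oc (act (trI x) ω)) (0 : V d)).Finite ↔ (Cl (Oc ω) x).Finite := by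
    have := Cl_act_finite (pc d) x ω 0
    rw [zero_add] at this
    exact this
  have h4 : u - x ∈ Cl (Oc (act (trI x) ω)) (0 : V d) ↔ u ∈ Cl (Oc ω) x := by
    rw [h1, Set.mem_preimage, sub_add_cancel]
  show (u ∈ Cl (Oc ω) x ∧ (Cl (Oc ω) x).Finite ∧ n ≤ ((Cl (Oc ω) x).ncard : ℝ)) ↔
    (u - x ∈ Cl (Oc (act (trI x) ω)) 0 ∧ (Cl (Oc (act (trI x) ω)) 0).Finite ∧
      n ≤ ((Cl (Oc (act (trI x) ω)) 0).ncard : ℝ))
  rw [h4, h3, h2]

end Pool.Agent.PB.L12
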