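import Pool.Agent.PB.L.GDefs
import Pool.Agent.PB.L.Tree

/-!
# PROJECT PB, module PBL-GbrFar: the density of the far part is at most `FarS`

`g := gfar R R1`, `gbr R g = cloc (fun O => g (Lb0 R O 0)) D0 0 = limUnder (𝓝[>] 0) (fun s => EWH H W1 s D0 0 / EW W1 s D0 0)`, `H O := g (Lb0 R O 0)`.

(1) `EW W1 s D0 0 = Mr d (pc d) s` for `s > 0` (`theta d (pc d) = 0`), so `EW W1 s D0 0 / √s → 1/√b > 0` (Out7.lim).
(2) `LocalF (ins (bx R 0)) H`.
(3) `W1` is a large scale functional (`Out6.isLSF`).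
(4) `Out6.loc` with `A = D0`, `y = 0`: `(EWH H W1 s D0 0 - cloc · EW W1 s D0 0)/√s → 0`.
(5) for every `s > 0`: `EWH H W1 s D0 0 ≤ (FarS d R1).toReal * EW W1 s D0 0` (`tree_ex`).
(6) compare the limits of `(EWH - cloc EW)/√s ≤ (FarS - cloc) EW/√s`.
-/

set_option autoImplicit false
open MeasureTheory Filter Topology
open scoped ENNReal BigOperators

namespace Pool.Agent.PB.L12

variable {d : ℕ}

private theorem gf_WA_D0 (W : ℝ → Set (Sym2 (V d)) → V d → ℝ) (s : ℝ) (O : Set (Sym2 (V d)))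
    (y : V d) : WA W s D0 O y = W s O y := by
  have h1 : (D0 : Del (V d)).rem O = O := by
    ext e; simp [D0, Del.rem, Del.ofSet]
  unfold WA
  rw [if_neg (by simp [D0, Del.ofSet]), h1]

/-- `w(s,N,Y) = 1 - e^{-sN}` satisfies (W) -/
private theorem gf_isW : IsW (fun s N _ => 1 - Real.exp (-(s * (N : ℝ)))) 0 1 := by
  refine ⟨le_refl _, le_refl _, ?_, ?_, ?_⟩
  · intro s; simp
  · intro s hs _ N Y _
    have h0 : 0 ≤ s * (N : ℝ) := by positivity
    have h1 : Real.exp (-(s * (N : ℝ))) ≤ 1 := Real.exp_le_one_iff.2 (by linarith)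
    have h2 : 0 < Real.exp (-(s * (N : ℝ))) := Real.exp_pos _
    have h3 : -(s * (N : ℝ)) + 1 ≤ Real.exp (-(s * (N : ℝ))) := Real.add_one_le_exp _
    rw [abs_of_nonneg (by linarith), one_mul]
    exact le_min (by linarith) (by linarith)
  · intro s hs _ N N' Y Y' _ _
    have key : ∀ a b : ℝ, 0 ≤ a → a ≤ b → |Real.exp (-a) - Real.exp (-b)| ≤ b - a := by
      intro a b ha hab
      have h1 : Real.exp (-b) ≤ Real.exp (-a) := Real.exp_le_exp.2 (by linarith)
      rw [abs_of_nonneg (by linarith)]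
      have h2 : Real.exp (-b) = Real.exp (-a) * Real.exp (-(b - a)) := by
        rw [← Real.exp_add]; congr 1; ring
      have h3 : -(b - a) + 1 ≤ Real.exp (-(b - a)) := Real.add_one_le_exp _
      have h4 : Real.exp (-a) ≤ 1 := Real.exp_le_one_iff.2 (by linarith)
      have h5 : 0 < Real.exp (-a) := Real.exp_pos _
      rw [h2]
      nlinarith
    have h1 : |(1 - Real.exp (-(s * (N : ℝ)))) - (1 - Real.exp (-(s * (N' : ℝ))))| ≤
        s * |(N : ℝ) - N'| := by
      rcases le_total (N : ℝ) N' with h | h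
      · have h2 := key (s * N) (s * N') (by positivity) (by nlinarith)
        rw [show (1 - Real.exp (-(s * (N : ℝ)))) - (1 - Real.exp (-(s * (N' : ℝ)))) =
          -(Real.exp (-(s * (N : ℝ))) - Real.exp (-(s * (N' : ℝ)))) by ring, abs_neg]
        rw [abs_of_nonpos (by linarith : (N : ℝ) - N' ≤ 0)]
        linarith
      · have h2 := key (s * N') (s * N) (by positivity) (by nlinarith)
        rw [show (1 - Real.exp (-(s * (N : ℝ)))) - (1 - Real.exp (-(s * (N' : ℝ)))) =
          (Real.exp (-(s * (N' : ℝ))) - Real.exp (-(s * (N : ℝ)))) by ring]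
        rw [abs_of_nonneg (by linarith : 0 ≤ (N : ℝ) - N')]
        linarith
    refine h1.trans ?_
    rw [one_mul]
    exact mul_le_mul_of_nonneg_left (le_add_of_nonneg_right (abs_nonneg _)) hs.le

private theorem gf_ins_finite (R : ℕ) : (ins (bx R (0 : V d))).Finite := by
  classical
  have h1 : ins (bx R (0 : V d)) ⊆ ((bxF d R).sym2 : Set (Sym2 (V d))) := by
    intro e he
    rw [Finset.mem_coe, Finset.mem_sym2_iff]
    intro a ha
    exact mem_bxF.2 (he a ha)
  exact (Finset.finite_toSet _).subset h1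

private theorem gf_Lb0_subset (R : ℕ) (O : Set (Sym2 (V d))) :
    Lb0 R O (0 : V d) ⊆ Cl O (0 : V d) := by
  rintro x ⟨z, hz, rfl⟩
  have h1 : z ∈ Cl O (0 : V d) := Cl_mono Set.inter_subset_left (0 : V d) hz
  simpa using h1

private theorem gf_W1_le (s : ℝ) (O : Set (Sym2 (V d))) :
    ENNReal.ofReal (W1 s O (0 : V d)) ≤ 1 - ex s (Cl O (0 : V d)) := by
  by_cases h : (Cl O (0 : V d)).Finite
  · rw [ex_fin s h, ← ENNReal.ofReal_one, ← ENNReal.ofReal_sub _ (Real.exp_pos _).le]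
    exact le_refl _
  · have h1 : Nc O (0 : V d) = 0 := by
      unfold Nc
      exact Set.Infinite.ncard h
    rw [ex_inf s h]
    unfold W1
    rw [h1]
    simp

private theorem gf_W1_nonneg {s : ℝ} (hs : 0 < s) (O : Set (Sym2 (V d))) :
    0 ≤ W1 s O (0 : V d) := by
  unfold W1
  have h0 : 0 ≤ s * (Nc O (0 : V d) : ℝ) := by positivity
  have h1 : Real.exp (-(s * (Nc O (0 : V d) : ℝ))) ≤ 1 := Real.exp_le_one_iff.2 (by linarith)
  linarith

/-- `E[1 - e^{-sN}] = M(s)` when clusters are finite -/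
private theorem gf_EW_eq (h5 : Out5 d) {s : ℝ} (hs : 0 < s) :
    EW W1 s (D0 : Del (V d)) 0 = Mr d (pc d) s := by
  unfold EW Mr
  rw [Mg_eq (pc d) hs]
  have h1 : ∀ᵐ ω ∂(Pr d), (Cl (opn (pc d) ω) (0 : V d)).Finite := by
    have h2 := h5.theta_pc
    unfold theta at h2
    rw [← compl_compl {ω : Om d | (Cl (opn (pc d) ω) (0 : V d)).Infinite}] at h2
    filter_upwards [measure_eq_zero_iff_ae_notMem.1 h2] with ω hω
    simpa using hω
  have h3 : (fun ω : Om d => WA W1 s D0 (Oc ω) (0 : V d)) =ᵐ[Pr d]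
      fun ω => (1 - ex s (Cl (opn (pc d) ω) (0 : V d))).toReal := by
    filter_upwards [h1] with ω hω
    have h4 : Real.exp (-(s * ((Cl (opn (pc d) ω) (0 : V d)).ncard : ℝ))) ≤ 1 :=
      Real.exp_le_one_iff.2 (by
        have : 0 ≤ s * ((Cl (opn (pc d) ω) (0 : V d)).ncard : ℝ) := by positivity
        linarith)
    rw [gf_WA_D0, ex_fin s hω, ← ENNReal.ofReal_one,
      ← ENNReal.ofReal_sub _ (Real.exp_pos _).le, ENNReal.toReal_ofReal (by linarith)]
    rfl
  rw [integral_congr_ae h3]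
  refine integral_toReal ?_ ?_
  · exact (measurable_const.sub (measurable_ex ((opn_MES (pc d)).cl 0))).aemeasurable
  · exact Eventually.of_forall fun ω => lt_of_le_of_lt tsub_le_self ENNReal.one_lt_top

private theorem gf_gfar_nonneg (R R1 : ℕ) (L : Set (V d)) : 0 ≤ gfar R R1 L := by
  classical
  unfold gfar
  refine Finset.sum_nonneg fun u _ => ?_
  split_ifs
  · exact ENNReal.toReal_nonneg
  · exact le_refl _

/-- (5) -/
private theorem gf_EWH_le (hC : Crit d) (h5 : Out5 d) (R R1 : ℕ) {s : ℝ} (hs : 0 < s) :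
    EWH (fun O => gfar (d := d) R R1 (Lb0 R O (0 : V d))) W1 s D0 0 ≤
      (FarS d R1).toReal * EW W1 s (D0 : Del (V d)) 0 := by
  classical
  set f : Om d → ℝ := fun ω => gfar (d := d) R R1 (Lb0 R (Oc ω) (0 : V d)) *
    WA W1 s D0 (Oc ω) (0 : V d) with hf
  have hf0 : ∀ ω, 0 ≤ f ω := fun ω => by
    rw [hf]
    refine mul_nonneg (gf_gfar_nonneg R R1 _) ?_
    rw [gf_WA_D0]
    exact gf_W1_nonneg hs _
  set c : V d → ℝ≥0∞ := fun u => if u ∉ bx R1 (0 : V d) then tau (pc d) u else 0 with hc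
  set g : V d → Om d → ℝ≥0∞ := fun u => Set.indicator {ω : Om d | u ∈ Cl (Oc ω) (0 : V d)}
      (fun ω => 1 - ex s (Cl (Oc ω) (0 : V d))) with hg
  have hgm : ∀ u, Measurable (g u) := fun u =>
    (measurable_const.sub (measurable_ex ((opn_MES (pc d)).cl 0))).indicator
      ((opn_MES (pc d)).cl 0 u)
  have hpt : ∀ ω, ENNReal.ofReal (f ω) ≤ ∑ u ∈ bxF d R, c u * g u ω := by
    intro ω
    have h1 : f ω = ∑ u ∈ bxF d R, (if u ∈ Lb0 R (Oc ω) (0 : V d) ∧ u ∉ bx R1 (0 : V d) then ta u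
        else 0) * W1 s (Oc ω) (0 : V d) := by
      simp only [hf, gfar, gf_WA_D0, Finset.sum_mul]
    rw [h1, ENNReal.ofReal_sum_of_nonneg]
    · refine Finset.sum_le_sum fun u _ => ?_
      by_cases hu : u ∈ Lb0 R (Oc ω) (0 : V d) ∧ u ∉ bx R1 (0 : V d)
      · have h2 : u ∈ Cl (Oc ω) (0 : V d) := gf_Lb0_subset R _ hu.1
        have h3 : g u ω = 1 - ex s (Cl (Oc ω) (0 : V d)) := by
          simp only [hg]
          exact Set.indicator_of_mem (s := {ω : Om d | u ∈ Cl (Oc ω) (0 : V d)}) h2 _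
        have h4 : c u = tau (pc d) u := by simp only [hc]; rw [if_pos hu.2]
        rw [if_pos hu, h3, h4, ENNReal.ofReal_mul (show 0 ≤ ta u from ENNReal.toReal_nonneg)]
        refine mul_le_mul' ?_ (gf_W1_le s _)
        unfold ta
        exact ENNReal.ofReal_toReal_le
      · rw [if_neg hu, zero_mul, ENNReal.ofReal_zero]
        exact zero_le
    · intro u _
      refine mul_nonneg ?_ (gf_W1_nonneg hs _)
      split_ifs
      · exact ENNReal.toReal_nonneg
      · exact le_refl _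
  have hlin : ∫⁻ ω, ENNReal.ofReal (f ω) ∂Pr d ≤ FarS d R1 * Mg d (pc d) s := by
    calc ∫⁻ ω, ENNReal.ofReal (f ω) ∂Pr d ≤ ∫⁻ ω, ∑ u ∈ bxF d R, c u * g u ω ∂Pr d :=
          lintegral_mono hpt
      _ = ∑ u ∈ bxF d R, c u * ∫⁻ ω, g u ω ∂Pr d := by
          rw [lintegral_finsetSum _ (fun u _ => (hgm u).const_mul _)]
          exact Finset.sum_congr rfl fun u _ => lintegral_const_mul _ (hgm u)
      _ ≤ ∑ u ∈ bxF d R, (c u * conv (tau (pc d)) (tau (pc d)) u) * Mg d (pc d) s := by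
          refine Finset.sum_le_sum fun u _ => ?_
          rw [mul_assoc]
          exact mul_le_mul' le_rfl (tree_ex hs u)
      _ = (∑ u ∈ bxF d R, c u * conv (tau (pc d)) (tau (pc d)) u) * Mg d (pc d) s := by
          rw [Finset.sum_mul]
      _ ≤ FarS d R1 * Mg d (pc d) s := by
          refine mul_le_mul' ?_ le_rfl
          have h6 : FarS d R1 = ∑' u, c u * conv (tau (pc d)) (tau (pc d)) u := by
            unfold FarS
            refine tsum_congr fun u => ?_
            simp only [hc]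
            by_cases hu : u ∉ bx R1 (0 : V d)
            · rw [if_pos hu, if_pos hu]
            · rw [if_neg hu, if_neg hu, zero_mul]
          rw [h6]
          exact ENNReal.sum_le_tsum _
  have hM : Mg d (pc d) s ≤ 1 := by
    unfold Mg
    exact prob_le_one
  have hF : FarS d R1 < ⊤ := farS_lt_top hC.B8 R1
  have hne : FarS d R1 * Mg d (pc d) s ≠ ⊤ :=
    ENNReal.mul_ne_top hF.ne (lt_of_le_of_lt hM ENNReal.one_lt_top).ne
  have hint : ∫ ω, f ω ∂Pr d ≤ (∫⁻ ω, ENNReal.ofReal (f ω) ∂Pr d).toReal := by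
    by_cases hi : Integrable f (Pr d)
    · rw [integral_eq_lintegral_of_nonneg_ae (Eventually.of_forall hf0) hi.aestronglyMeasurable]
    · rw [integral_undef hi]
      exact ENNReal.toReal_nonneg
  have hfin : ∫ ω, f ω ∂Pr d ≤ (FarS d R1).toReal * Mr d (pc d) s := by
    refine hint.trans ((ENNReal.toReal_mono hne hlin).trans ?_)
    rw [ENNReal.toReal_mul]
    exact le_refl _
  rw [gf_EW_eq h5 hs]
  exact hfin

theorem gbr_gfar_le {b : ℝ} (hC : Crit d) (h5 : Out5 d) (h6 : Out6 d) (h7 : Out7 d b) (R R1 : ℕ) :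
    gbr R (gfar (d := d) R R1) ≤ (FarS d R1).toReal := by
  classical
  set H : Set (Sym2 (V d)) → ℝ := fun O => gfar (d := d) R R1 (Lb0 R O (0 : V d)) with hH
  have hloc : LocalF (ins (bx R (0 : V d))) H := by
    refine ⟨gf_ins_finite R, fun O O' hO => ?_⟩
    simp only [hH]
    unfold Lb0 Lb
    rw [hO]
  obtain ⟨c', hc'⟩ := h6.isLSF 0 (fun _ => 0) (fun s N _ => 1 - Real.exp (-(s * (N : ℝ)))) 0 1
    gf_isW (fun L _ _ => by simp)
  have hLSF : IsLSF (W1 (d := d)) c' := hc'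
  have hfinD : (D0 : Del (V d)).Finite := ⟨Set.finite_empty, Set.finite_empty⟩
  have hnm : (0 : V d) ∉ (D0 : Del (V d)).S := by simp [D0, Del.ofSet]
  have hlim := h6.loc _ H hloc W1 c' hLSF D0 0 hfinD hnm
  have hM : Tendsto (fun s : ℝ => ((FarS d R1).toReal - cloc H D0 0) *
      (EW W1 s (D0 : Del (V d)) 0 / Real.sqrt s)) (𝓝[>] 0)
      (𝓝 (((FarS d R1).toReal - cloc H D0 0) * (1 / Real.sqrt b))) := by
    refine Tendsto.const_mul _ (h7.lim.congr' ?_)
    filter_upwards [self_mem_nhdsWithin] with s hs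
    rw [gf_EW_eq h5 hs]
  have hle : (0 : ℝ) ≤ ((FarS d R1).toReal - cloc H D0 0) * (1 / Real.sqrt b) := by
    refine le_of_tendsto_of_tendsto hlim hM ?_
    filter_upwards [self_mem_nhdsWithin] with s hs
    have h1 := gf_EWH_le hC h5 R R1 (s := s) hs
    have h2 : 0 < Real.sqrt s := Real.sqrt_pos.2 hs
    rw [← mul_div_assoc]
    refine div_le_div_of_nonneg_right ?_ h2.le
    have h3 : EWH H W1 s D0 0 ≤ (FarS d R1).toReal * EW W1 s (D0 : Del (V d)) 0 := h1
    linarith [h3, sub_mul (FarS d R1).toReal (cloc H D0 0) (EW W1 s (D0 : Del (V d)) 0)]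
  have hb : 0 < 1 / Real.sqrt b := by
    have := Real.sqrt_pos.2 h7.b_pos
    positivity
  have h3 : 0 ≤ (FarS d R1).toReal - cloc H D0 0 := nonneg_of_mul_nonneg_left hle hb
  have h4 : gbr R (gfar (d := d) R R1) = cloc H D0 0 := rfl
  rw [h4]
  linarith

end Pool.Agent.PB.L12
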