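import Pool.Agent.PB.L.Bern

/-!
# PROJECT PB, module PBL-BernGood: typical behaviour of the Bernoulli random subset

`θ b ∈ [0, τ]`, `Σ_B θ` has mean `m = q Σ_B θ ≥ c₂`; `D b b' ≥ 0`; `F` nonnegative with `F T ≥ 1 - α` for
all typical `T`. Then `E F ≥ 1 - α - 4τ/c₂ - 2/L - q² Σ_{b≠b'} D b b' / D₀`.

PLAN (P T := wB q B T, a probability on `B.powerset` by `wB_sum`, `wB_nonneg`).
Let `bad₁ T := Σ_T θ < c₂/2`, `bad₂ T := L < |T|`, `bad₃ T := D₀ < Σ_{b≠b' ∈ T} D b b'`.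
(1) P(bad₁) ≤ 4τ/c₂: on `bad₁`, `Σ_T θ - m < -m/2`, so `1 ≤ (Σ_T θ - m)²·4/m²`; `wB_var` gives
  `P(bad₁) ≤ 4 q(1-q) Σθ²/m² ≤ 4 τ q Σθ / m² = 4τ/m ≤ 4τ/c₂`.
(2) P(bad₂) ≤ 2/L: with `a = 1`: `Σ_T a = |T|`, mean `μ = q|B| ≤ L/2`, on `bad₂` `(|T|-μ)² ≥ (L/2)²`, so
  `P(bad₂) ≤ 4 μ/L² ≤ 2/L`.
(3) P(bad₃) ≤ E D / D₀ (`wB_pair`).
(4) `Σ_T P(T) F(T) ≥ Σ_{T not bad} P(T) (1-α) ≥ (1-α)(1 - P(bad₁) - P(bad₂) - P(bad₃))
  ≥ 1 - α - P(bad₁) - P(bad₂) - P(bad₃)` (note `0 ≤ 1 - α ≤ 1`, so `(1-α) x ≤ x` for the bad probability;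
  pointwise version: `F T ≥ (1 - α) - 1_{bad₁} - 1_{bad₂} - 1_{bad₃}` for every `T ⊆ B`, multiply by P and sum).
-/

set_option autoImplicit false
open scoped BigOperators

namespace Pool.Agent.PB

variable {β : Type*} [DecidableEq β]

theorem bern_good (q : ℝ) (h0 : 0 ≤ q) (h1 : q ≤ 1) (B : Finset β) (θ : β → ℝ) (τ : ℝ)
    (hθ0 : ∀ b, 0 ≤ θ b) (hθτ : ∀ b ∈ B, θ b ≤ τ) (D : β → β → ℝ) (hD : ∀ b b', 0 ≤ D b b')
    (c2 : ℝ) (hc2 : 0 < c2) (hm : c2 ≤ q * ∑ b ∈ B, θ b) (L : ℝ) (hL : 0 < L)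
    (hqL : q * (B.card : ℝ) ≤ L / 2) (D0' : ℝ) (hD0 : 0 < D0') (F : Finset β → ℝ) (α : ℝ)
    (hα0 : 0 ≤ α) (hα1 : α ≤ 1) (hF0 : ∀ T ⊆ B, 0 ≤ F T)
    (hF : ∀ T ⊆ B, c2 / 2 ≤ ∑ b ∈ T, θ b → (T.card : ℝ) ≤ L →
      ∑ b ∈ T, ∑ b' ∈ T, (if b = b' then 0 else D b b') ≤ D0' → 1 - α ≤ F T) :
    1 - α - (4 * τ / c2 + 2 / L +
      q ^ 2 * (∑ b ∈ B, ∑ b' ∈ B, (if b = b' then 0 else D b b')) / D0') ≤
      ∑ T ∈ B.powerset, wB q B T * F T := by
  have hBne : B.Nonempty := by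
    by_contra h
    rw [Finset.not_nonempty_iff_eq_empty] at h
    subst h
    simp at hm
    linarith
  obtain ⟨b0, hb0⟩ := hBne
  have hτ : 0 ≤ τ := le_trans (hθ0 b0) (hθτ b0 hb0)
  set m : ℝ := q * ∑ b ∈ B, θ b with hmdef
  have hmpos : 0 < m := lt_of_lt_of_le hc2 hm
  set X1 : Finset β → ℝ := fun T => 4 / m ^ 2 * (∑ b ∈ T, θ b - m) ^ 2 with hX1
  set X2 : Finset β → ℝ := fun T => 4 / L ^ 2 * ((T.card : ℝ) - q * (B.card : ℝ)) ^ 2 with hX2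
  set X3 : Finset β → ℝ := fun T =>
    1 / D0' * ∑ b ∈ T, ∑ b' ∈ T, (if b = b' then 0 else D b b') with hX3
  have hDs : ∀ T : Finset β, 0 ≤ ∑ b ∈ T, ∑ b' ∈ T, (if b = b' then 0 else D b b') := by
    intro T
    refine Finset.sum_nonneg fun b _ => Finset.sum_nonneg fun b' _ => ?_
    split
    · exact le_rfl
    · exact hD _ _
  have hX1n : ∀ T, 0 ≤ X1 T := fun T => by
    simp only [hX1]; positivity
  have hX2n : ∀ T, 0 ≤ X2 T := fun T => by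
    simp only [hX2]; positivity
  have hX3n : ∀ T, 0 ≤ X3 T := fun T => by
    simp only [hX3]
    exact mul_nonneg (by positivity) (hDs T)
  have hpt : ∀ T ∈ B.powerset, (1 - α) - X1 T - X2 T - X3 T ≤ F T := by
    intro T hT
    have hTB : T ⊆ B := Finset.mem_powerset.1 hT
    have hF0T := hF0 T hTB
    have h1n := hX1n T
    have h2n := hX2n T
    have h3n := hX3n T
    by_cases g1 : c2 / 2 ≤ ∑ b ∈ T, θ b
    · by_cases g2 : (T.card : ℝ) ≤ L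
      · by_cases g3 : ∑ b ∈ T, ∑ b' ∈ T, (if b = b' then 0 else D b b') ≤ D0'
        · have := hF T hTB g1 g2 g3
          linarith
        · have : 1 ≤ X3 T := by
            simp only [hX3]
            rw [one_div, inv_mul_eq_div, le_div_iff₀ hD0, one_mul]
            exact (not_le.1 g3).le
          linarith
      · have : 1 ≤ X2 T := by
          simp only [hX2]
          have g2' := not_le.1 g2
          have h4 : L / 2 ≤ (T.card : ℝ) - q * (B.card : ℝ) := by linarith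
          have h5 : (L / 2) ^ 2 ≤ ((T.card : ℝ) - q * (B.card : ℝ)) ^ 2 :=
            pow_le_pow_left₀ (by positivity) h4 2
          calc (1 : ℝ) = 4 / L ^ 2 * (L / 2) ^ 2 := by field_simp; ring
            _ ≤ _ := mul_le_mul_of_nonneg_left h5 (by positivity)
        linarith
    · have : 1 ≤ X1 T := by
        simp only [hX1]
        have g1' := not_le.1 g1
        have h4 : m / 2 ≤ m - ∑ b ∈ T, θ b := by linarith
        have h5 : (m / 2) ^ 2 ≤ (m - ∑ b ∈ T, θ b) ^ 2 :=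
          pow_le_pow_left₀ (by positivity) h4 2
        have h6 : (m - ∑ b ∈ T, θ b) ^ 2 = (∑ b ∈ T, θ b - m) ^ 2 := by ring
        rw [h6] at h5
        calc (1 : ℝ) = 4 / m ^ 2 * (m / 2) ^ 2 := by field_simp; ring
          _ ≤ _ := mul_le_mul_of_nonneg_left h5 (by positivity)
      linarith
  have hsum : ∑ T ∈ B.powerset, wB q B T * ((1 - α) - X1 T - X2 T - X3 T) ≤
      ∑ T ∈ B.powerset, wB q B T * F T :=
    Finset.sum_le_sum fun T hT => mul_le_mul_of_nonneg_left (hpt T hT) (wB_nonneg h0 h1 B T)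
  have e1 : ∑ T ∈ B.powerset, wB q B T * X1 T =
      4 / m ^ 2 * (q * (1 - q) * ∑ b ∈ B, θ b ^ 2) := by
    rw [← wB_var q B θ, Finset.mul_sum]
    refine Finset.sum_congr rfl fun T _ => ?_
    simp only [hX1]
    ring
  have e2 : ∑ T ∈ B.powerset, wB q B T * X2 T =
      4 / L ^ 2 * (q * (1 - q) * (B.card : ℝ)) := by
    have hv := wB_var q B (fun _ => (1 : ℝ))
    simp only [Finset.sum_const, nsmul_eq_mul, mul_one, one_pow] at hv
    rw [← hv, Finset.mul_sum]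
    refine Finset.sum_congr rfl fun T _ => ?_
    simp only [hX2]
    ring
  have e3 : ∑ T ∈ B.powerset, wB q B T * X3 T =
      1 / D0' * (q ^ 2 * ∑ b ∈ B, ∑ b' ∈ B, (if b = b' then 0 else D b b')) := by
    rw [← wB_pair q B D, Finset.mul_sum]
    refine Finset.sum_congr rfl fun T _ => ?_
    simp only [hX3]
    ring
  have e4 : ∑ T ∈ B.powerset, wB q B T * ((1 - α) - X1 T - X2 T - X3 T) =
      (1 - α) - 4 / m ^ 2 * (q * (1 - q) * ∑ b ∈ B, θ b ^ 2) -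
        4 / L ^ 2 * (q * (1 - q) * (B.card : ℝ)) -
        1 / D0' * (q ^ 2 * ∑ b ∈ B, ∑ b' ∈ B, (if b = b' then 0 else D b b')) := by
    rw [← e1, ← e2, ← e3]
    have : (1 - α) = ∑ T ∈ B.powerset, wB q B T * (1 - α) := by
      rw [← Finset.sum_mul, wB_sum, one_mul]
    rw [this, ← Finset.sum_sub_distrib, ← Finset.sum_sub_distrib, ← Finset.sum_sub_distrib]
    refine Finset.sum_congr rfl fun T _ => ?_
    rw [← this]
    ring
  have b1 : 4 / m ^ 2 * (q * (1 - q) * ∑ b ∈ B, θ b ^ 2) ≤ 4 * τ / c2 := by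
    have s1 : ∑ b ∈ B, θ b ^ 2 ≤ τ * ∑ b ∈ B, θ b := by
      rw [Finset.mul_sum]
      refine Finset.sum_le_sum fun b hb => ?_
      rw [pow_two]
      exact mul_le_mul_of_nonneg_right (hθτ b hb) (hθ0 b)
    have s2n : 0 ≤ ∑ b ∈ B, θ b ^ 2 := Finset.sum_nonneg fun b _ => by positivity
    have s2 : q * (1 - q) * ∑ b ∈ B, θ b ^ 2 ≤ τ * m := by
      calc q * (1 - q) * ∑ b ∈ B, θ b ^ 2 ≤ q * ∑ b ∈ B, θ b ^ 2 := by
            refine mul_le_mul_of_nonneg_right ?_ s2n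
            nlinarith
        _ ≤ q * (τ * ∑ b ∈ B, θ b) := mul_le_mul_of_nonneg_left s1 h0
        _ = τ * m := by rw [hmdef]; ring
    calc 4 / m ^ 2 * (q * (1 - q) * ∑ b ∈ B, θ b ^ 2) ≤ 4 / m ^ 2 * (τ * m) :=
          mul_le_mul_of_nonneg_left s2 (by positivity)
      _ = 4 * τ / m := by field_simp
      _ ≤ 4 * τ / c2 := div_le_div_of_nonneg_left (by positivity) hc2 hm
  have b2 : 4 / L ^ 2 * (q * (1 - q) * (B.card : ℝ)) ≤ 2 / L := by
    have s2 : q * (1 - q) * (B.card : ℝ) ≤ L / 2 := by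
      refine le_trans ?_ hqL
      refine mul_le_mul_of_nonneg_right ?_ (Nat.cast_nonneg _)
      nlinarith
    calc 4 / L ^ 2 * (q * (1 - q) * (B.card : ℝ)) ≤ 4 / L ^ 2 * (L / 2) :=
          mul_le_mul_of_nonneg_left s2 (by positivity)
      _ = 2 / L := by field_simp; ring
  have b3 : 1 / D0' * (q ^ 2 * ∑ b ∈ B, ∑ b' ∈ B, (if b = b' then 0 else D b b')) =
      q ^ 2 * (∑ b ∈ B, ∑ b' ∈ B, (if b = b' then 0 else D b b')) / D0' := by ring
  rw [e4, b3] at hsum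
  linarith

end Pool.Agent.PB
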