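import Mathlib

/-!
# PROJECT PB, module PBL-Bern: the Bernoulli random subset of a finite set (pure finite sums)

`wB q B T = q^|T| (1-q)^(|B|-|T|)` is the probability that the random subset of `B` (every element is
included independently with probability `q`) is equal to `T`.

PLAN.
* `wB_sum`: `Finset.sum_pow_mul_eq_add_pow` (with `a = q`, `b = 1 - q`).
* `wB_one`, `b ∈ B`: the subsets `T ⊆ B` with `b ∈ T` are `insert b T'`, `T' ⊆ B.erase b`
  (e.g. write `B = insert b B'`, `Finset.sum_powerset_insert`), `wB q B (insert b T') = q * wB q B' T'`.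
* `wB_two`: the same twice (`b ≠ b'`).
* `wB_lin`: exchange the sums: `Σ_{b ∈ T} a b = Σ_{b ∈ B} (if b ∈ T then a b else 0)` for `T ⊆ B`; `wB_one`.
* `wB_pair`: the same with `wB_two`.
* `wB_var`: expand the square: `(Σ_{b ∈ T} a b)^2 = Σ_{b ∈ T} (a b)^2 + Σ_{b, b' ∈ T, b ≠ b'} a b * a b'`;
  use `wB_lin` (for `a^2`), `wB_pair` (for `a b * a b'`), `wB_lin` and `wB_sum`, then the same expansion of
  `(Σ_{b ∈ B} a b)^2`:
  `E = q Σ a² + q² (S² - Σ a²) - 2 q S · q S + q² S² = q (1-q) Σ a²`.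
-/

set_option autoImplicit false
open scoped BigOperators

namespace Pool.Agent.PB

variable {β : Type*} [DecidableEq β]

/-- weight of the subset `T` of `B` -/
noncomputable def wB (q : ℝ) (B T : Finset β) : ℝ := q ^ T.card * (1 - q) ^ (B.card - T.card)

theorem wB_nonneg {q : ℝ} (h0 : 0 ≤ q) (h1 : q ≤ 1) (B T : Finset β) : 0 ≤ wB q B T :=
  mul_nonneg (pow_nonneg h0 _) (pow_nonneg (by linarith) _)

theorem wB_sum (q : ℝ) (B : Finset β) : ∑ T ∈ B.powerset, wB q B T = 1 := by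
  unfold wB
  rw [Finset.sum_pow_mul_eq_add_pow]
  have : q + (1 - q) = 1 := by ring
  rw [this, one_pow]

private theorem wB_insert (q : ℝ) {B T : Finset β} {b : β} (hb : b ∉ B) (hT : T ⊆ B) :
    wB q (insert b B) (insert b T) = q * wB q B T := by
  unfold wB
  rw [Finset.card_insert_of_notMem hb, Finset.card_insert_of_notMem fun h => hb (hT h),
    Nat.add_sub_add_right, pow_succ]
  ring

theorem wB_one (q : ℝ) (B : Finset β) {b : β} (hb : b ∈ B) :
    ∑ T ∈ B.powerset, (if b ∈ T then wB q B T else 0) = q := by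
  obtain ⟨B', hb', rfl⟩ : ∃ B', b ∉ B' ∧ B = insert b B' :=
    ⟨B.erase b, Finset.notMem_erase b B, (Finset.insert_erase hb).symm⟩
  rw [Finset.sum_powerset_insert hb']
  have h1 : ∑ t ∈ B'.powerset, (if b ∈ t then wB q (insert b B') t else 0) = 0 := by
    refine Finset.sum_eq_zero fun t ht => ?_
    rw [if_neg fun h => hb' (Finset.mem_powerset.1 ht h)]
  have h2 : ∑ t ∈ B'.powerset, (if b ∈ insert b t then wB q (insert b B') (insert b t) else 0) =
      ∑ t ∈ B'.powerset, q * wB q B' t := by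
    refine Finset.sum_congr rfl fun t ht => ?_
    rw [if_pos (Finset.mem_insert_self b t), wB_insert q hb' (Finset.mem_powerset.1 ht)]
  rw [h1, h2, ← Finset.mul_sum, wB_sum]
  ring

theorem wB_two (q : ℝ) (B : Finset β) {b b' : β} (hb : b ∈ B) (hb' : b' ∈ B) (hne : b ≠ b') :
    ∑ T ∈ B.powerset, (if b ∈ T ∧ b' ∈ T then wB q B T else 0) = q ^ 2 := by
  obtain ⟨B', hnb, rfl⟩ : ∃ B', b ∉ B' ∧ B = insert b B' :=
    ⟨B.erase b, Finset.notMem_erase b B, (Finset.insert_erase hb).symm⟩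
  have hb2 : b' ∈ B' := (Finset.mem_insert.1 hb').resolve_left fun h => hne h.symm
  rw [Finset.sum_powerset_insert hnb]
  have h1 : ∑ t ∈ B'.powerset, (if b ∈ t ∧ b' ∈ t then wB q (insert b B') t else 0) = 0 := by
    refine Finset.sum_eq_zero fun t ht => ?_
    rw [if_neg fun h => hnb (Finset.mem_powerset.1 ht h.1)]
  have h2 : ∑ t ∈ B'.powerset, (if b ∈ insert b t ∧ b' ∈ insert b t then
      wB q (insert b B') (insert b t) else 0) =
      ∑ t ∈ B'.powerset, q * (if b' ∈ t then wB q B' t else 0) := by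
    refine Finset.sum_congr rfl fun t ht => ?_
    have h3 : (b ∈ insert b t ∧ b' ∈ insert b t) ↔ b' ∈ t := by
      rw [Finset.mem_insert, Finset.mem_insert]
      constructor
      · rintro ⟨-, h | h⟩
        · exact absurd h.symm hne
        · exact h
      · exact fun h => ⟨Or.inl rfl, Or.inr h⟩
    rw [wB_insert q hnb (Finset.mem_powerset.1 ht)]
    by_cases h4 : b' ∈ t
    · rw [if_pos (h3.2 h4), if_pos h4]
    · rw [if_neg fun h => h4 (h3.1 h), if_neg h4, mul_zero]
  rw [h1, h2, ← Finset.mul_sum, wB_one q B' hb2]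
  ring

theorem wB_lin (q : ℝ) (B : Finset β) (a : β → ℝ) :
    ∑ T ∈ B.powerset, wB q B T * ∑ b ∈ T, a b = q * ∑ b ∈ B, a b := by
  have h1 : ∀ T ∈ B.powerset, wB q B T * ∑ b ∈ T, a b =
      ∑ b ∈ B, a b * (if b ∈ T then wB q B T else 0) := by
    intro T hT
    have hT' := Finset.mem_powerset.1 hT
    have h2 : ∑ b ∈ T, a b = ∑ b ∈ B, (if b ∈ T then a b else 0) := by
      rw [← Finset.sum_filter, Finset.filter_mem_eq_inter, Finset.inter_eq_right.2 hT']
    rw [h2, Finset.mul_sum]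
    refine Finset.sum_congr rfl fun b _ => ?_
    by_cases h : b ∈ T
    · rw [if_pos h, if_pos h]; ring
    · rw [if_neg h, if_neg h]; ring
  rw [Finset.sum_congr rfl h1, Finset.sum_comm, Finset.mul_sum]
  refine Finset.sum_congr rfl fun b hb => ?_
  rw [← Finset.mul_sum, wB_one q B hb]
  ring

theorem wB_pair (q : ℝ) (B : Finset β) (a : β → β → ℝ) :
    ∑ T ∈ B.powerset, wB q B T * ∑ b ∈ T, ∑ b' ∈ T, (if b = b' then 0 else a b b') =
      q ^ 2 * ∑ b ∈ B, ∑ b' ∈ B, (if b = b' then 0 else a b b') := by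
  have h1 : ∀ T ∈ B.powerset,
      wB q B T * ∑ b ∈ T, ∑ b' ∈ T, (if b = b' then 0 else a b b') =
      ∑ b ∈ B, ∑ b' ∈ B, (if b = b' then 0 else a b b') *
        (if b ∈ T ∧ b' ∈ T then wB q B T else 0) := by
    intro T hT
    have hT' := Finset.mem_powerset.1 hT
    have h2 : ∀ g : β → ℝ, ∑ b ∈ T, g b = ∑ b ∈ B, (if b ∈ T then g b else 0) := by
      intro g
      rw [← Finset.sum_filter, Finset.filter_mem_eq_inter, Finset.inter_eq_right.2 hT']
    rw [h2, Finset.mul_sum]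
    refine Finset.sum_congr rfl fun b _ => ?_
    by_cases h : b ∈ T
    · rw [if_pos h, h2, Finset.mul_sum]
      refine Finset.sum_congr rfl fun b' _ => ?_
      by_cases h' : b' ∈ T
      · rw [if_pos h', if_pos (show b ∈ T ∧ b' ∈ T from ⟨h, h'⟩)]; ring
      · rw [if_neg h', if_neg (fun hh : b ∈ T ∧ b' ∈ T => h' hh.2)]; ring
    · rw [if_neg h, mul_zero]
      symm
      refine Finset.sum_eq_zero fun b' _ => ?_
      rw [if_neg fun hh : b ∈ T ∧ b' ∈ T => h hh.1, mul_zero]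
  rw [Finset.sum_congr rfl h1, Finset.sum_comm, Finset.mul_sum]
  refine Finset.sum_congr rfl fun b hb => ?_
  rw [Finset.sum_comm, Finset.mul_sum]
  refine Finset.sum_congr rfl fun b' hb' => ?_
  rw [← Finset.mul_sum]
  by_cases h : b = b'
  · rw [if_pos h]; ring
  · rw [wB_two q B hb hb' h, if_neg h]; ring

omit [DecidableEq β] in
private theorem sq_expand [DecidableEq β] (T : Finset β) (a : β → ℝ) :
    (∑ b ∈ T, a b) ^ 2 = ∑ b ∈ T, a b ^ 2 +
      ∑ b ∈ T, ∑ b' ∈ T, (if b = b' then 0 else a b * a b') := by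
  rw [sq, Finset.sum_mul_sum, ← Finset.sum_add_distrib]
  refine Finset.sum_congr rfl fun b hb => ?_
  have h1 : a b ^ 2 = ∑ b' ∈ T, (if b = b' then a b * a b' else 0) := by
    rw [Finset.sum_ite_eq, if_pos hb]
    ring
  rw [h1, ← Finset.sum_add_distrib]
  refine Finset.sum_congr rfl fun b' _ => ?_
  by_cases h : b = b'
  · rw [if_pos h, if_pos h]; ring
  · rw [if_neg h, if_neg h]; ring

theorem wB_var (q : ℝ) (B : Finset β) (a : β → ℝ) :
    ∑ T ∈ B.powerset, wB q B T * (∑ b ∈ T, a b - q * ∑ b ∈ B, a b) ^ 2 =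
      q * (1 - q) * ∑ b ∈ B, a b ^ 2 := by
  obtain ⟨S, hS⟩ : ∃ S, S = ∑ b ∈ B, a b := ⟨_, rfl⟩
  rw [← hS]
  have h1 : ∀ T ∈ B.powerset, wB q B T * (∑ b ∈ T, a b - q * S) ^ 2 =
      wB q B T * ∑ b ∈ T, a b ^ 2 +
      wB q B T * ∑ b ∈ T, ∑ b' ∈ T, (if b = b' then 0 else a b * a b') -
      (2 * q * S) * (wB q B T * ∑ b ∈ T, a b) + (q * S) ^ 2 * wB q B T := by
    intro T _
    have h2 := sq_expand T a
    linear_combination wB q B T * h2
  rw [Finset.sum_congr rfl h1, Finset.sum_add_distrib, Finset.sum_sub_distrib,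
    Finset.sum_add_distrib, ← Finset.mul_sum, ← Finset.mul_sum, wB_lin, wB_lin, wB_pair, wB_sum]
  have h3 := sq_expand B a
  rw [← hS] at h3 ⊢
  linear_combination (-q ^ 2) * h3

end Pool.Agent.PB
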