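import Pool.Agent.PB.L.Defs
import Pool.Agent.PB.L.Bern
import Pool.Agent.PB.P.Loc

/-!
# PROJECT PB, module PBL-Indep4: the labels of the boundary edges of `V'` are independent of everything off `U`

`B = bdE V' U`. `Bgt` = all labels of `B` are `> p_c`. `GoodEv p` = some `q ∈ B` has label `≤ p` and `q.2 →_p ∞` off `U`.
-/

set_option autoImplicit false
open MeasureTheory Filter Topology
open scoped ENNReal BigOperators

namespace Pool.Agent.PB

variable {d : ℕ}

private theorem meas_gt {ι : Type*} (i : ι) (p : ℝ) :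
    MeasurableSet {ω : ι → unitInterval | p < ((ω i : unitInterval) : ℝ)} :=
  measurableSet_lt (by fun_prop) (by fun_prop)

theorem measurableSet_infT (p : ℝ) (U : Finset (V d)) (T : Finset (V d × V d)) :
    MeasurableSet (infT p U T) := by
  have : infT p U T = ⋃ q ∈ T, {ω : Om d |
      (ClA (Del.ofSet (U : Set (V d))) (opn p ω) q.2).Infinite} := by
    ext ω; simp [infT]
  rw [this]
  exact T.measurableSet_biUnion fun q _ => ((opn_MES p).clA _ _).infinite

theorem measurableSet_Bgt (V' U : Finset (V d)) : MeasurableSet (Bgt V' U) := by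
  have : Bgt V' U = ⋂ q ∈ bdE V' U, {ω : Om d |
      pc d < ((ω (Sum.inl (und q)) : unitInterval) : ℝ)} := by
    ext ω; simp [Bgt]
  rw [this]
  exact (bdE V' U).measurableSet_biInter fun q _ => meas_gt _ _

theorem measurableSet_GoodEv (p : ℝ) (V' U : Finset (V d)) : MeasurableSet (GoodEv p V' U) := by
  have : GoodEv p V' U = ⋃ q ∈ bdE V' U, ({ω : Om d |
      ((ω (Sum.inl (und q)) : unitInterval) : ℝ) ≤ p} ∩ {ω : Om d |
      (ClA (Del.ofSet (U : Set (V d))) (opn p ω) q.2).Infinite}) := by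
    ext ω
    simp only [GoodEv, Set.mem_ofPred_eq, Set.mem_iUnion, Set.mem_inter_iff, exists_prop]
  rw [this]
  exact (bdE V' U).measurableSet_biUnion fun q _ => (meas_le _ _).inter
    (((opn_MES p).clA _ _).infinite)

theorem Pr_Bgt (h0 : 0 < pc d) (h1 : pc d < 1) (V' U : Finset (V d)) (h : V' ⊆ U) :
    (Pr d (Bgt V' U)).toReal = (1 - pc d) ^ (bdE V' U).card := by
  classical
  have e1 : Bgt V' U = {ω : Om d | ∀ i ∈ (bdE V' U).image (fun q => Sum.inl (und q) : _ → Ix d),
      pc d < ((ω i : unitInterval) : ℝ)} := by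
    ext ω
    simp only [Bgt, Set.mem_ofPred_eq, Finset.mem_image, forall_exists_index, and_imp,
      forall_apply_eq_imp_iff₂]
  have hinj : Set.InjOn (fun q => Sum.inl (und q) : V d × V d → Ix d) (bdE V' U) :=
    fun a ha b hb hab => und_inj h ha hb (Sum.inl_injective hab)
  rw [e1]
  have e2 := Pr_labels_gt ((bdE V' U).image (fun q => Sum.inl (und q) : _ → Ix d)) (pc d)
  rw [Finset.card_image_of_injOn hinj, min_eq_left h1.le] at e2
  rw [Pr_eq, e2, ENNReal.toReal_pow, ENNReal.toReal_sub_of_le _ ENNReal.one_ne_top,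
    ENNReal.toReal_one, ENNReal.toReal_ofReal h0.le]
  rw [← ENNReal.ofReal_one]
  exact ENNReal.ofReal_le_ofReal h1.le

/-- the event `S_0 = T` and all labels `> p_c` -/
private def ET (p : ℝ) (B T : Finset (V d × V d)) : Set (Om d) :=
  {ω | ∀ q ∈ B, (q ∈ T → pc d < ((ω (Sum.inl (und q)) : unitInterval) : ℝ) ∧
    ((ω (Sum.inl (und q)) : unitInterval) : ℝ) ≤ p) ∧
    (q ∉ T → p < ((ω (Sum.inl (und q)) : unitInterval) : ℝ))}

private theorem ET_meas (p : ℝ) (B T : Finset (V d × V d)) : MeasurableSet (ET (d := d) p B T) := by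
  classical
  have : ET p B T = ⋂ q ∈ B, {ω : Om d | (q ∈ T → pc d < ((ω (Sum.inl (und q)) : unitInterval) : ℝ) ∧
    ((ω (Sum.inl (und q)) : unitInterval) : ℝ) ≤ p) ∧
    (q ∉ T → p < ((ω (Sum.inl (und q)) : unitInterval) : ℝ))} := by
    ext ω; simp [ET]
  rw [this]
  refine B.measurableSet_biInter fun q _ => ?_
  by_cases hq : q ∈ T
  · have h2 : {ω : Om d | (q ∈ T → pc d < ((ω (Sum.inl (und q)) : unitInterval) : ℝ) ∧
      ((ω (Sum.inl (und q)) : unitInterval) : ℝ) ≤ p) ∧
      (q ∉ T → p < ((ω (Sum.inl (und q)) : unitInterval) : ℝ))} =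
      {ω : Om d | pc d < ((ω (Sum.inl (und q)) : unitInterval) : ℝ)} ∩
      {ω : Om d | ((ω (Sum.inl (und q)) : unitInterval) : ℝ) ≤ p} := by
      ext ω; simp [hq]
    rw [h2]
    exact (meas_gt _ _).inter (meas_le _ _)
  · have h2 : {ω : Om d | (q ∈ T → pc d < ((ω (Sum.inl (und q)) : unitInterval) : ℝ) ∧
      ((ω (Sum.inl (und q)) : unitInterval) : ℝ) ≤ p) ∧
      (q ∉ T → p < ((ω (Sum.inl (und q)) : unitInterval) : ℝ))} =
      {ω : Om d | p < ((ω (Sum.inl (und q)) : unitInterval) : ℝ)} := by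
      ext ω; simp [hq]
    rw [h2]
    exact meas_gt _ _

private theorem vol_mid {a p : ℝ} (ha : 0 ≤ a) (hp : a ≤ p) (hp1 : p ≤ 1) :
    (volume : Measure unitInterval) {x : unitInterval | a < (x : ℝ) ∧ (x : ℝ) ≤ p} =
      ENNReal.ofReal (p - a) := by
  have h1 : {x : unitInterval | a < (x : ℝ) ∧ (x : ℝ) ≤ p} =
      {x : unitInterval | (x : ℝ) ≤ p} \ {x : unitInterval | (x : ℝ) ≤ a} := by
    ext x; simp only [Set.mem_ofPred_eq, Set.mem_sdiff, not_le]; tauto
  rw [h1, measure_sdiff _ (measurableSet_le (by fun_prop) (by fun_prop)).nullMeasurableSet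
    (measure_ne_top _ _), vol_le, vol_le, min_eq_left hp1, min_eq_left (hp.trans hp1),
    ENNReal.ofReal_sub _ ha]
  exact fun x hx => le_trans hx hp

private theorem Pr_ET {V' U : Finset (V d)} (h : V' ⊆ U) {p : ℝ} (h0 : 0 < pc d)
    (hp : pc d ≤ p) (hp1 : p ≤ 1) {T : Finset (V d × V d)} (hT : T ⊆ bdE V' U) :
    (Pr d (ET p (bdE V' U) T)).toReal =
      (p - pc d) ^ T.card * (1 - p) ^ ((bdE V' U).card - T.card) := by
  classical
  set B := bdE V' U with hB
  have hinj : Set.InjOn (fun q => Sum.inl (und q) : V d × V d → Ix d) B :=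
    fun a ha b hb hab => und_inj h ha hb (Sum.inl_injective hab)
  set t : Ix d → Set unitInterval := fun i =>
    if ∃ q ∈ T, i = Sum.inl (und q) then {x : unitInterval | pc d < (x : ℝ) ∧ (x : ℝ) ≤ p}
    else {x : unitInterval | p < (x : ℝ)} with ht
  have ht1 : ∀ q ∈ T, t (Sum.inl (und q)) =
      {x : unitInterval | pc d < (x : ℝ) ∧ (x : ℝ) ≤ p} := by
    intro q hq
    simp only [ht]
    rw [if_pos ⟨q, hq, rfl⟩]
  have ht2 : ∀ q ∈ B, q ∉ T → t (Sum.inl (und q)) = {x : unitInterval | p < (x : ℝ)} := by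
    intro q hq hqT
    simp only [ht]
    rw [if_neg]
    rintro ⟨q', hq', he⟩
    exact hqT ((hinj hq (hT hq') he) ▸ hq')
  have hm : ∀ i, MeasurableSet (t i) := by
    intro i
    simp only [ht]
    split_ifs
    · have h1 : MeasurableSet {x : unitInterval | pc d < (x : ℝ)} :=
        measurableSet_lt (by fun_prop) (by fun_prop)
      have h2 : MeasurableSet {x : unitInterval | (x : ℝ) ≤ p} :=
        measurableSet_le (by fun_prop) (by fun_prop)
      exact h1.inter h2
    · exact measurableSet_lt (by fun_prop) (by fun_prop)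
  have e1 : ET p B T = {ω : Om d | ∀ i ∈ B.image (fun q => Sum.inl (und q) : _ → Ix d),
      ω i ∈ t i} := by
    ext ω
    simp only [ET, Set.mem_ofPred_eq, Finset.mem_image, forall_exists_index, and_imp,
      forall_apply_eq_imp_iff₂]
    refine forall₂_congr fun q hq => ?_
    by_cases hqT : q ∈ T
    · rw [ht1 q hqT]; simp [hqT]
    · rw [ht2 q hq hqT]; simp [hqT]
  rw [e1, Pr_eq, Pr_labels_pi _ (fun i _ => hm i), Finset.prod_image hinj]
  have e2 : ∏ q ∈ B, (volume : Measure unitInterval) (t (Sum.inl (und q))) =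
      ∏ q ∈ B, if q ∈ T then ENNReal.ofReal (p - pc d) else ENNReal.ofReal (1 - p) := by
    refine Finset.prod_congr rfl fun q hq => ?_
    by_cases hqT : q ∈ T
    · rw [ht1 q hqT, if_pos hqT, vol_mid h0.le hp hp1]
    · rw [ht2 q hq hqT, if_neg hqT, vol_gt, min_eq_left hp1,
        ENNReal.ofReal_sub _ (h0.le.trans hp), ENNReal.ofReal_one]
  rw [e2, Finset.prod_ite, Finset.prod_const, Finset.prod_const, ENNReal.toReal_mul,
    ENNReal.toReal_pow, ENNReal.toReal_pow, ENNReal.toReal_ofReal (by linarith),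
    ENNReal.toReal_ofReal (by linarith)]
  have c1 : (B.filter (fun q => q ∈ T)) = T := by
    rw [Finset.filter_mem_eq_inter, Finset.inter_eq_right.2 hT]
  have c2 : (B.filter (fun q => q ∉ T)).card = B.card - T.card := by
    rw [← Finset.sdiff_eq_filter, Finset.card_sdiff_of_subset hT]
  rw [c1, c2]

private theorem dep_infT (p : ℝ) (U : Finset (V d)) (T : Finset (V d × V d)) :
    DependsOn (fun ω : Om d => ω ∈ infT p U T) (tI (U : Set (V d)))ᶜ :=
  dep_rem_ofSet (d := d) p 0 0 (U : Set (V d)) (fun R _ _ => ∃ q ∈ T,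
    {x : V d | q.2 ∉ (Del.ofSet (U : Set (V d))).S ∧ Rch R q.2 x}.Infinite)

private theorem dep_ET {V' U : Finset (V d)} (h : V' ⊆ U) (p : ℝ) (T : Finset (V d × V d)) :
    DependsOn (fun ω : Om d => ω ∈ ET p (bdE V' U) T) (tI (U : Set (V d))) := by
  intro ω ω' hω
  have : ∀ q ∈ bdE V' U, ω (Sum.inl (und q)) = ω' (Sum.inl (und q)) := by
    intro q hq
    exact hω _ (inl_mem_tI.2 (mem_touch_left (h (mem_bdE.1 hq).1)))
  simp only [eq_iff_iff]
  constructor
  · intro h1 q hq; rw [← this q hq]; exact h1 q hq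
  · intro h1 q hq; rw [this q hq]; exact h1 q hq

theorem Pr_Bgt_Good (h0 : 0 < pc d) (h1 : pc d < 1) (V' U : Finset (V d)) (h : V' ⊆ U) (p : ℝ)
    (hp : pc d ≤ p) (hp1 : p ≤ 1) :
    (Pr d (Bgt V' U ∩ GoodEv p V' U)).toReal =
      ∑ T ∈ (bdE V' U).powerset, (p - pc d) ^ T.card * (1 - p) ^ ((bdE V' U).card - T.card) *
        (Pr d (infT p U T)).toReal := by
  classical
  have e1 : Bgt V' U ∩ GoodEv p V' U =
      ⋃ T ∈ (bdE V' U).powerset, (ET p (bdE V' U) T ∩ infT p U T) := by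
    ext ω
    simp only [Set.mem_inter_iff, Set.mem_iUnion, exists_prop, Finset.mem_powerset]
    constructor
    · rintro ⟨hb, q, hq, hqp, hqi⟩
      refine ⟨(bdE V' U).filter (fun q => ((ω (Sum.inl (und q)) : unitInterval) : ℝ) ≤ p),
        Finset.filter_subset _ _, ?_, q, Finset.mem_filter.2 ⟨hq, hqp⟩, hqi⟩
      intro q' hq'
      constructor
      · intro h'
        exact ⟨hb q' hq', (Finset.mem_filter.1 h').2⟩
      · intro h'
        by_contra h''
        exact h' (Finset.mem_filter.2 ⟨hq', not_lt.1 h''⟩)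
    · rintro ⟨T, hT, hE, q, hq, hqi⟩
      refine ⟨?_, q, hT hq, ((hE q (hT hq)).1 hq).2, hqi⟩
      intro q' hq'
      by_cases hqT : q' ∈ T
      · exact ((hE q' hq').1 hqT).1
      · exact lt_of_le_of_lt hp ((hE q' hq').2 hqT)
  have hd : Set.PairwiseDisjoint ((bdE V' U).powerset : Set (Finset (V d × V d)))
      (fun T => ET p (bdE V' U) T ∩ infT p U T) := by
    intro T hT T' hT' hne
    rw [Function.onFun, Set.disjoint_left]
    rintro ω ⟨h1, -⟩ ⟨h2, -⟩
    apply hne
    have hT1 := Finset.mem_powerset.1 (Finset.mem_coe.1 hT)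
    have hT2 := Finset.mem_powerset.1 (Finset.mem_coe.1 hT')
    ext q
    constructor
    · intro hq
      by_contra hq'
      exact absurd ((h1 q (hT1 hq)).1 hq).2 (not_le.2 ((h2 q (hT1 hq)).2 hq'))
    · intro hq
      by_contra hq'
      exact absurd ((h2 q (hT2 hq)).1 hq).2 (not_le.2 ((h1 q (hT2 hq)).2 hq'))
  rw [e1, measure_biUnion_finset hd fun T _ => (ET_meas p _ T).inter (measurableSet_infT p U T),
    ENNReal.toReal_sum fun T _ => measure_ne_top _ _]
  refine Finset.sum_congr rfl fun T hT => ?_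
  have hT1 := Finset.mem_powerset.1 hT
  rw [Pr_eq, Pr_inter_indep (disjoint_compl_right (a := tI (U : Set (V d)))) (ET_meas p _ T)
    (measurableSet_infT p U T) (dep_ET h p T) (dep_infT p U T), ENNReal.toReal_mul, ← Pr_eq,
    Pr_ET h h0 hp hp1 hT1]

theorem Pr_Bgt_Good' (h0 : 0 < pc d) (h1 : pc d < 1) (V' U : Finset (V d)) (h : V' ⊆ U) (p : ℝ)
    (hp : pc d ≤ p) (hp1 : p ≤ 1) :
    (Pr d (Bgt V' U ∩ GoodEv p V' U)).toReal = (Pr d (Bgt V' U)).toReal *
      ∑ T ∈ (bdE V' U).powerset, wB ((p - pc d) / (1 - pc d)) (bdE V' U) T *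
        (Pr d (infT p U T)).toReal := by
  classical
  rw [Pr_Bgt_Good h0 h1 V' U h p hp hp1, Pr_Bgt h0 h1 V' U h, Finset.mul_sum]
  refine Finset.sum_congr rfl fun T hT => ?_
  have hT1 := Finset.card_le_card (Finset.mem_powerset.1 hT)
  have hc : (1 - pc d) ≠ 0 := by linarith
  rw [← mul_assoc]
  congr 1
  unfold wB
  have e1 : 1 - (p - pc d) / (1 - pc d) = (1 - p) / (1 - pc d) := by
    field_simp; ring
  obtain ⟨k, hk⟩ := Nat.exists_eq_add_of_le hT1
  rw [e1, hk, Nat.add_sub_cancel_left, div_pow, div_pow, pow_add]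
  field_simp

end Pool.Agent.PB
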