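import Mathlib

/-!
# PROJECT PB, module PBL-SecM: the second moment inequality for finitely many events

PLAN. `Z ω = Σ_{b ∈ T} 1_{A b}(ω)` (real valued, bounded, measurable). `∫ Z = Σ P(A b)`,
`∫ Z² = Σ_{b,b'} P(A b ∩ A b')`, and `Z = Z · 1_{Z ≠ 0}`, `{Z ≠ 0} = ⋃_{b ∈ T} A b`. Cauchy-Schwarz:
`(∫ Z 1_E)² ≤ ∫ Z² · P(E)`. (For instance: for every real `t`, `0 ≤ ∫ (Z - t 1_E)² = ∫ Z² - 2 t ∫ Z + t² P(E)`;
take `t = ∫ Z / P(E)` if `P(E) ≠ 0`; if `P(E) = 0` then all `P(A b) = 0`. Everything can be done with finite sums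
of integrals of indicators, `integral_indicator_one`, `Set.indicator_inter_mul`.)
-/

set_option autoImplicit false
open MeasureTheory
open scoped BigOperators

namespace Pool.Agent.PB

theorem second_moment {Ω : Type*} [MeasurableSpace Ω] (P : Measure Ω) [IsProbabilityMeasure P]
    {β : Type*} (T : Finset β) (A : β → Set Ω) (hA : ∀ b ∈ T, MeasurableSet (A b)) :
    (∑ b ∈ T, (P (A b)).toReal) ^ 2 ≤
      (P (⋃ b ∈ T, A b)).toReal * ∑ b ∈ T, ∑ b' ∈ T, (P (A b ∩ A b')).toReal := by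
  classical
  set E : Set Ω := ⋃ b ∈ T, A b with hE
  have hEm : MeasurableSet E := Finset.measurableSet_biUnion T hA
  set I : Set Ω → Ω → ℝ := fun s => s.indicator fun _ => (1 : ℝ) with hI
  have hint : ∀ s : Set Ω, MeasurableSet s → Integrable (I s) P := fun s hs =>
    (integrable_const (1 : ℝ)).indicator hs
  have hval : ∀ s : Set Ω, MeasurableSet s → ∫ ω, I s ω ∂P = (P s).toReal := by
    intro s hs
    rw [hI]
    simp only
    rw [integral_indicator_const (1 : ℝ) hs]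
    simp [Measure.real]
  have hmul : ∀ s u : Set Ω, ∀ ω, I s ω * I u ω = I (s ∩ u) ω := by
    intro s u ω
    simp only [hI]
    by_cases h1 : ω ∈ s <;> by_cases h2 : ω ∈ u <;> simp [h1, h2]
  have hsub : ∀ b ∈ T, A b ∩ E = A b := by
    intro b hb
    apply Set.inter_eq_left.2
    intro ω hω
    exact Set.mem_biUnion (s := (T : Set β)) (t := A) hb hω
  have hkey : ∀ t : ℝ, 0 ≤ (∑ b ∈ T, ∑ b' ∈ T, (P (A b ∩ A b')).toReal) -
      2 * t * (∑ b ∈ T, (P (A b)).toReal) + t ^ 2 * (P E).toReal := by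
    intro t
    have h1 : 0 ≤ ∫ ω, ((∑ b ∈ T, I (A b) ω) - t * I E ω) ^ 2 ∂P :=
      integral_nonneg fun ω => sq_nonneg _
    have h2 : (fun ω => ((∑ b ∈ T, I (A b) ω) - t * I E ω) ^ 2) = fun ω =>
        (∑ b ∈ T, ∑ b' ∈ T, I (A b ∩ A b') ω) - 2 * t * (∑ b ∈ T, I (A b) ω) +
          t ^ 2 * I E ω := by
      funext ω
      have e1 : (∑ b ∈ T, I (A b) ω) * (∑ b ∈ T, I (A b) ω) =
          ∑ b ∈ T, ∑ b' ∈ T, I (A b ∩ A b') ω := by
        rw [Finset.sum_mul_sum]
        exact Finset.sum_congr rfl fun b _ => Finset.sum_congr rfl fun b' _ => hmul _ _ _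
      have e2 : (∑ b ∈ T, I (A b) ω) * I E ω = ∑ b ∈ T, I (A b) ω := by
        rw [Finset.sum_mul]
        refine Finset.sum_congr rfl fun b hb => ?_
        rw [hmul, hsub b hb]
      have e3 : I E ω * I E ω = I E ω := by rw [hmul, Set.inter_self]
      calc ((∑ b ∈ T, I (A b) ω) - t * I E ω) ^ 2
          = (∑ b ∈ T, I (A b) ω) * (∑ b ∈ T, I (A b) ω) -
            2 * t * ((∑ b ∈ T, I (A b) ω) * I E ω) + t ^ 2 * (I E ω * I E ω) := by ring
        _ = _ := by rw [e1, e2, e3]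
    rw [h2] at h1
    have i1 : Integrable (fun ω => ∑ b ∈ T, ∑ b' ∈ T, I (A b ∩ A b') ω) P :=
      integrable_finsetSum T fun b hb => integrable_finsetSum T fun b' hb' =>
        hint _ ((hA b hb).inter (hA b' hb'))
    have i2 : Integrable (fun ω => ∑ b ∈ T, I (A b) ω) P :=
      integrable_finsetSum T fun b hb => hint _ (hA b hb)
    have i3 : Integrable (fun ω => 2 * t * ∑ b ∈ T, I (A b) ω) P := i2.const_mul (2 * t)
    have i4 : Integrable (fun ω => t ^ 2 * I E ω) P := (hint E hEm).const_mul (t ^ 2)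
    have v1 : ∫ ω, (∑ b ∈ T, ∑ b' ∈ T, I (A b ∩ A b') ω) ∂P =
        ∑ b ∈ T, ∑ b' ∈ T, (P (A b ∩ A b')).toReal := by
      rw [integral_finsetSum T fun b hb => integrable_finsetSum T fun b' hb' =>
        hint _ ((hA b hb).inter (hA b' hb'))]
      refine Finset.sum_congr rfl fun b hb => ?_
      rw [integral_finsetSum T fun b' hb' => hint _ ((hA b hb).inter (hA b' hb'))]
      exact Finset.sum_congr rfl fun b' hb' => hval _ ((hA b hb).inter (hA b' hb'))
    have v2 : ∫ ω, (2 * t * ∑ b ∈ T, I (A b) ω) ∂P = 2 * t * ∑ b ∈ T, (P (A b)).toReal := by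
      rw [integral_const_mul, integral_finsetSum T fun b hb => hint _ (hA b hb)]
      congr 1
      exact Finset.sum_congr rfl fun b hb => hval _ (hA b hb)
    have v3 : ∫ ω, t ^ 2 * I E ω ∂P = t ^ 2 * (P E).toReal := by
      rw [integral_const_mul, hval E hEm]
    have h3 : ∫ ω, ((∑ b ∈ T, ∑ b' ∈ T, I (A b ∩ A b') ω) - 2 * t * (∑ b ∈ T, I (A b) ω) +
          t ^ 2 * I E ω) ∂P = (∑ b ∈ T, ∑ b' ∈ T, (P (A b ∩ A b')).toReal) -
      2 * t * (∑ b ∈ T, (P (A b)).toReal) + t ^ 2 * (P E).toReal := by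
      have i5 : Integrable (fun ω => (∑ b ∈ T, ∑ b' ∈ T, I (A b ∩ A b') ω) -
          2 * t * (∑ b ∈ T, I (A b) ω)) P := i1.sub i3
      rw [integral_add i5 i4, integral_sub i1 i3, v1, v2, v3]
    rwa [h3] at h1
  set S1 : ℝ := ∑ b ∈ T, (P (A b)).toReal with hS1
  set S2 : ℝ := ∑ b ∈ T, ∑ b' ∈ T, (P (A b ∩ A b')).toReal with hS2
  by_cases h0 : (P E).toReal = 0
  · have h4 : S1 = 0 := by
      rw [hS1]
      refine Finset.sum_eq_zero fun b hb => ?_
      have h5 : (P (A b)).toReal ≤ (P E).toReal := by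
        apply ENNReal.toReal_mono (measure_ne_top P E)
        apply measure_mono
        rw [← hsub b hb]
        exact Set.inter_subset_right
      have h6 : 0 ≤ (P (A b)).toReal := ENNReal.toReal_nonneg
      linarith
    rw [h4, h0]
    simp
  · have h7 : 0 < (P E).toReal := lt_of_le_of_ne ENNReal.toReal_nonneg (Ne.symm h0)
    have h8 := hkey (S1 / (P E).toReal)
    have h9 : S2 - 2 * (S1 / (P E).toReal) * S1 + (S1 / (P E).toReal) ^ 2 * (P E).toReal =
        S2 - S1 ^ 2 / (P E).toReal := by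
      field_simp
      ring
    rw [h9] at h8
    have h10 : S1 ^ 2 / (P E).toReal ≤ S2 := by linarith
    rw [div_le_iff₀ h7] at h10
    linarith [mul_comm S2 (P E).toReal]

end Pool.Agent.PB
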