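import Pool.Agent.PB.L.Ele
import Pool.Agent.PB.L.SecM
import Pool.Agent.PB.P.Act
import Pool.Agent.PB.P.Conv

/-!
# PROJECT PB, module PBL-Sec4: second moment bound for `P(some q ∈ T has q.2 → ∞ off U)` in 12.4

PLAN. `A q := {ω | (ClA (Del.ofSet U) (opn (pc d + ε₁) ω) q.2).Infinite}` (measurable: `opn_MES`, `MES.clA`,
`MVS.infinite`), `infT p U T = ⋃_{q ∈ T} A q`, `Pr (A q) = thA .. q.2`, `z := Σ_{q ∈ T} P(A q) ≥ Z`. `second_moment`:
`z² ≤ P(infT) Σ_{q,q' ∈ T} P(A q ∩ A q')`. Diagonal terms: `z`. Terms `q ≠ q'`: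
 - `q.2 ≠ q'.2`: 12.2 (`hI.h2`): `≤ C₂ ε₁² + C₂ ε₁ τ^{*3}(q'.2 - q.2)`.
 - `q.2 = q'.2`: `P(A q) ≤ thr d (pc d + ε₁) ≤ Cθ ε₁ ≤ Cθ ε₁ τ^{*3}(0)` since `τ^{*3}(0) ≥ τ(0)^3 = 1` (and it is finite:
   hypothesis `hfin`).
So `Σ_{q,q'} ≤ z + C (ε₁² |T|² + Σ_{q ≠ q'} ε₁ τ^{*3}(q'.2 - q.2)) ≤ z + X` with `C = max C₂ Cθ`, and `x ↦ x²/(x+X)` is
nondecreasing on `[0,∞)`: `Z²/(Z+X) ≤ z²/(z+X) ≤ P(infT)` (if `z + X = 0` everything is 0, but `Z > 0`).
-/

set_option autoImplicit false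
open MeasureTheory Filter Topology
open scoped ENNReal BigOperators

namespace Pool.Agent.PB

variable {d : ℕ}

theorem sec4 (hpc : 0 < pc d) (hpc1 : pc d < 1) (hI : In12 d)
    (hfin : cpow (tau (pc d)) 3 (0 : V d) < ⊤) (Cθ : ℝ) (hC : 0 < Cθ)
    (hθ : ∀ p : ℝ, pc d ≤ p → p ≤ 1 → thr d p ≤ Cθ * (p - pc d)) :
    ∃ C e0 : ℝ, 1 ≤ C ∧ 0 < e0 ∧ ∀ ε₁ : ℝ, 0 < ε₁ → ε₁ ≤ e0 → ∀ (U : Finset (V d))
      (T : Finset (V d × V d)), (∀ q ∈ T, q.2 ∉ U) → ∀ Z X : ℝ, 0 < Z → 0 ≤ X →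
      Z ≤ ∑ q ∈ T, (thA (pc d + ε₁) (Del.ofSet (U : Set (V d))) q.2).toReal →
      C * (ε₁ ^ 2 * (T.card : ℝ) ^ 2 + ∑ q ∈ T, ∑ q' ∈ T, (if q = q' then 0 else
        ε₁ * (cpow (tau (pc d)) 3 (q'.2 - q.2)).toReal)) ≤ X →
      Z ^ 2 / (Z + X) ≤ (Pr d (infT (pc d + ε₁) U T)).toReal := by
  classical
  obtain ⟨C₂, e₂, hC₂, he₂, h2⟩ := hI.h2
  refine ⟨max C₂ Cθ, min e₂ (1 - pc d), le_max_of_le_left hC₂, lt_min he₂ (by linarith), ?_⟩
  intro ε₁ hε0 hε1 U T hT Z X hZ hX hZz hCX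
  have hεe : ε₁ ≤ e₂ := hε1.trans (min_le_left _ _)
  have hεp : ε₁ ≤ 1 - pc d := hε1.trans (min_le_right _ _)
  set C : ℝ := max C₂ Cθ with hCdef
  have hC0 : 0 < C := lt_max_of_lt_right hC
  have hCC₂ : C₂ ≤ C := le_max_left _ _
  have hCCθ : Cθ ≤ C := le_max_right _ _
  set A : V d × V d → Set (Om d) := fun q =>
    {ω : Om d | (ClA (Del.ofSet (U : Set (V d))) (opn (pc d + ε₁) ω) q.2).Infinite} with hA
  have hAm : ∀ q, MeasurableSet (A q) := fun q => MVS.infinite ((opn_MES (pc d + ε₁)).clA _ q.2)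
  have hUn : infT (pc d + ε₁) U T = ⋃ q ∈ T, A q := by
    ext ω
    simp [infT, hA]
  have hthA : ∀ q, (Pr d (A q)).toReal =
      (thA (pc d + ε₁) (Del.ofSet (U : Set (V d))) q.2).toReal := fun q => rfl
  set c3 : V d → ℝ := fun x => (cpow (tau (pc d)) 3 x).toReal with hc3
  have hc30 : ∀ x, 0 ≤ c3 x := fun x => ENNReal.toReal_nonneg
  have hc3one : 1 ≤ c3 (0 : V d) := by
    have h3 : (1 : ℝ≥0∞) ≤ cpow (tau (pc d)) 3 (0 : V d) := by
      have h4 := cpow_le_cpow (f := tau (pc d)) (d := d) ((tau_zero (pc d)).ge) (Nat.zero_le 3)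
        (0 : V d)
      rwa [cpow_zero, dlt_zero] at h4
    have h5 := ENNReal.toReal_mono hfin.ne h3
    simpa [hc3] using h5
  have hterm : ∀ q ∈ T, ∀ q' ∈ T, (Pr d (A q ∩ A q')).toReal ≤
      (if q = q' then (Pr d (A q)).toReal else 0) + (C * ε₁ ^ 2 +
        C * (if q = q' then 0 else ε₁ * c3 (q'.2 - q.2))) := by
    intro q hq q' hq'
    by_cases h : q = q'
    · subst h
      simp only [if_true, mul_zero, add_zero, Set.inter_self]
      have : 0 ≤ C * ε₁ ^ 2 := by positivity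
      linarith
    · simp only [if_neg h, zero_add]
      by_cases hy : q.2 = q'.2
      · have h3 : (Pr d (A q ∩ A q')).toReal ≤ (Pr d (A q)).toReal :=
          ENNReal.toReal_mono (measure_ne_top _ _) (measure_mono Set.inter_subset_left)
        have h4 : (Pr d (A q)).toReal ≤ thr d (pc d + ε₁) := by
          rw [hthA]; exact thA_toReal_le _ _ _
        have h5 : thr d (pc d + ε₁) ≤ Cθ * ε₁ := by
          have := hθ (pc d + ε₁) (by linarith) (by linarith)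
          simpa using this
        have h6 : Cθ * ε₁ ≤ C * ε₁ := mul_le_mul_of_nonneg_right hCCθ hε0.le
        have h7 : C * ε₁ ≤ C * (ε₁ * c3 (q'.2 - q.2)) := by
          rw [hy, sub_self]
          have : ε₁ * 1 ≤ ε₁ * c3 0 := mul_le_mul_of_nonneg_left hc3one hε0.le
          rw [mul_one] at this
          exact mul_le_mul_of_nonneg_left this hC0.le
        have h8 : 0 ≤ C * ε₁ ^ 2 := by positivity
        linarith
      · have h3 := h2 ε₁ hε0 hεe U q.2 q'.2 (hT q hq) (hT q' hq') hy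
        have h4 : A q ∩ A q' = {ω : Om d |
            (ClA (Del.ofSet (U : Set (V d))) (opn (pc d + ε₁) ω) q.2).Infinite ∧
            (ClA (Del.ofSet (U : Set (V d))) (opn (pc d + ε₁) ω) q'.2).Infinite} := rfl
        rw [h4]
        refine h3.trans ?_
        have h5 : C₂ * ε₁ ^ 2 ≤ C * ε₁ ^ 2 := mul_le_mul_of_nonneg_right hCC₂ (sq_nonneg _)
        have h6 : C₂ * ε₁ * (cpow (tau (pc d)) 3 (q'.2 - q.2)).toReal ≤
            C * (ε₁ * c3 (q'.2 - q.2)) := by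
          rw [mul_assoc]
          exact mul_le_mul_of_nonneg_right hCC₂ (mul_nonneg hε0.le (hc30 _))
        linarith
  set z : ℝ := ∑ q ∈ T, (Pr d (A q)).toReal with hz
  have hZz' : Z ≤ z := hZz
  have hS2 : ∑ q ∈ T, ∑ q' ∈ T, (Pr d (A q ∩ A q')).toReal ≤ z + X := by
    calc ∑ q ∈ T, ∑ q' ∈ T, (Pr d (A q ∩ A q')).toReal
        ≤ ∑ q ∈ T, ∑ q' ∈ T, ((if q = q' then (Pr d (A q)).toReal else 0) + (C * ε₁ ^ 2 +
          C * (if q = q' then 0 else ε₁ * c3 (q'.2 - q.2)))) :=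
          Finset.sum_le_sum fun q hq => Finset.sum_le_sum fun q' hq' => hterm q hq q' hq'
      _ = z + C * (ε₁ ^ 2 * (T.card : ℝ) ^ 2 + ∑ q ∈ T, ∑ q' ∈ T, (if q = q' then 0 else
          ε₁ * c3 (q'.2 - q.2))) := by
          simp only [Finset.sum_add_distrib, Finset.sum_const, nsmul_eq_mul, ← Finset.mul_sum]
          have : ∑ q ∈ T, ∑ q' ∈ T, (if q = q' then (Pr d (A q)).toReal else 0) = z := by
            rw [hz]
            refine Finset.sum_congr rfl fun q hq => ?_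
            rw [Finset.sum_ite_eq T q]
            simp [hq]
          rw [this]
          ring
      _ ≤ z + X := by linarith
  have hsm := second_moment (Pr d) T A (fun b _ => hAm b)
  rw [← hUn] at hsm
  have hP0 : 0 ≤ (Pr d (infT (pc d + ε₁) U T)).toReal := ENNReal.toReal_nonneg
  have h9 : z ^ 2 ≤ (Pr d (infT (pc d + ε₁) U T)).toReal * (z + X) :=
    hsm.trans (mul_le_mul_of_nonneg_left hS2 hP0)
  have hzpos : 0 < z := lt_of_lt_of_le hZ hZz'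
  have h10 : z ^ 2 / (z + X) ≤ (Pr d (infT (pc d + ε₁) U T)).toReal := by
    rw [div_le_iff₀ (by linarith)]
    exact h9
  refine le_trans ?_ h10
  rw [div_le_div_iff₀ (by linarith) (by linarith)]
  have h11 : 0 ≤ (z - Z) * (Z * z + X * (z + Z)) :=
    mul_nonneg (by linarith) (by positivity)
  nlinarith [h11]

end Pool.Agent.PB
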