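import Pool.Agent.PB.L.StepA
import Pool.Agent.PB.L.Indep4
import Pool.Agent.PB.L.Sec4
import Pool.Agent.PB.L.BernGood

/-!
# PROJECT PB, Lemma 12.4 (assembly)
-/

set_option autoImplicit false
open MeasureTheory Filter Topology
open scoped ENNReal BigOperators

namespace Pool.Agent.PB.L12

variable {d : ℕ}

/-- Lemma 12.4 for fixed constants -/
theorem lem4_core (hd : 1 ≤ d) (hpc : 0 < pc d) (hpc1 : pc d < 1) (hI : In12 d)
    (hfin : ∀ x : V d, cpow (tau (pc d)) 3 x < ⊤) (Cθ : ℝ) (hCθ : 0 < Cθ)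
    (hθ : ∀ p : ℝ, pc d ≤ p → p ≤ 1 → thr d p ≤ Cθ * (p - pc d)) (R1 : ℕ) :
    ∃ C c4 e0 : ℝ, 1 ≤ C ∧ 0 < c4 ∧ 0 < e0 ∧ ∀ k : ℝ, 1 ≤ k → ∀ ε : ℝ, 0 < ε → ε < e0 →
      ∀ U V' : Finset (V d), V' ⊆ U → k ≤ ε ^ 2 * V'.card →
        G1 R1 (1 / (6 * d * Cθ * pc d)) V' → G2 ε V' → G3 (1 / (6 * d * Cθ * pc d)) V' U →
        (1 - C * (k ^ (-c4) + ε ^ (1 / 4 : ℝ))) * (Pr d (Bgt V' U)).toReal ≤
          (Pr d (Bgt V' U ∩ GoodEv (pc d + ε) V' U)).toReal := by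
  obtain ⟨Cs, es, hCs1, hes, hsec⟩ := sec4 hpc hpc1 hI (hfin 0) Cθ hCθ hθ
  obtain ⟨c4, hc4, h3⟩ := hI.h3
  -- constants
  set H : ℝ := 2 * (2 * R1 + 1) ^ d with hH
  have hHpos : 0 < H := by positivity
  set c2 : ℝ := 1 / (pc d * H) with hc2
  have hc2pos : 0 < c2 := by positivity
  have h1pc : 0 < 1 - pc d := by linarith
  have hdR : (1 : ℝ) ≤ d := by exact_mod_cast hd
  set CL : ℝ := 4 * d / (1 - pc d) with hCL
  have hCLpos : 0 < CL := by positivity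
  set X : ℝ := Cs * (CL ^ 2 + 1) with hX
  have hXpos : 0 < X := by positivity
  set c3 : ℝ := (c2 / 2) ^ 2 / (c2 / 2 + X) with hc3
  have hc3pos : 0 < c3 := by positivity
  refine ⟨1 + 1 / c3 + (4 * Cθ / c2 + 2 / CL + 1 / (1 - pc d) ^ 2), c4,
    min (min (1 / 4) es) (1 - pc d), ?_, hc4, ?_, ?_⟩
  · have : 0 < 1 / c3 + (4 * Cθ / c2 + 2 / CL + 1 / (1 - pc d) ^ 2) := by positivity
    linarith
  · exact lt_min (lt_min (by norm_num) hes) h1pc
  intro k hk ε hε hεe U V' hVU hkV hG1 hG2 hG3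
  have hε4 : ε < 1 / 4 := hεe.trans_le ((min_le_left _ _).trans (min_le_left _ _))
  have hεes : ε < es := hεe.trans_le ((min_le_left _ _).trans (min_le_right _ _))
  have hε1 : ε < 1 - pc d := hεe.trans_le (min_le_right _ _)
  set n' : ℝ := (V'.card : ℝ) with hn'
  have hn'pos : 0 < n' := by
    by_contra hcon
    push Not at hcon
    have : ε ^ 2 * n' ≤ 0 := mul_nonpos_of_nonneg_of_nonpos (by positivity) hcon
    linarith
  set ε₁ : ℝ := 1 / (ε * n') with hε₁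
  have hε₁pos : 0 < ε₁ := by positivity
  have hε₁ε : ε₁ ≤ ε / k := by
    rw [hε₁, div_le_div_iff₀ (by positivity) (by linarith)]
    nlinarith
  have hε₁ε' : ε₁ ≤ ε := hε₁ε.trans (div_le_self hε.le hk)
  -- step A
  have hA := stepA hd hpc hI Cθ hCθ hθ R1 V' U hVU ε₁ hε₁pos (hε₁ε'.trans hε4.le)
    (by linarith) hG1 hG3
  set B := bdE V' U with hB
  set θ : V d × V d → ℝ := fun q => (thA (pc d + ε₁) (Del.ofSet (U : Set (V d))) q.2).toReal
    with hθdef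
  have hA' : c2 / ε ≤ ∑ q ∈ B, θ q := by
    refine le_trans (le_of_eq ?_) hA
    rw [← hn', hc2, hε₁, hH]
    have : n' ≠ 0 := hn'pos.ne'
    field_simp
  set q0 : ℝ := (pc d + ε - pc d) / (1 - pc d) with hq0
  have hq0' : q0 = ε / (1 - pc d) := by rw [hq0]; ring
  have hq0pos : 0 < q0 := by rw [hq0']; positivity
  have hq0le : q0 ≤ 1 := by rw [hq0', div_le_one h1pc]; exact hε1.le
  have hεq0 : ε ≤ q0 := by
    rw [hq0', le_div_iff₀ h1pc]; nlinarith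
  have hm : c2 ≤ q0 * ∑ q ∈ B, θ q := by
    calc c2 = ε * (c2 / ε) := by field_simp
      _ ≤ q0 * ∑ q ∈ B, θ q := by
        apply mul_le_mul hεq0 hA' (by positivity) hq0pos.le
  -- bounds for θ
  have hθ0 : ∀ q, 0 ≤ θ q := fun q => ENNReal.toReal_nonneg
  have hθτ : ∀ q ∈ B, θ q ≤ Cθ * ε₁ := by
    intro q _
    refine (thA_toReal_le (pc d + ε₁) (U : Set (V d)) q.2).trans ?_
    have := hθ (pc d + ε₁) (by linarith) (by linarith)
    simpa using this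
  -- cardinality
  have hBc : (B.card : ℝ) ≤ 2 * d * n' := by
    have := card_bdE_le V' U
    rw [hn']
    exact_mod_cast this
  have hqL : q0 * (B.card : ℝ) ≤ (CL / ε₁) / 2 := by
    calc q0 * (B.card : ℝ) ≤ q0 * (2 * d * n') := by gcongr
      _ = (CL / ε₁) / 2 := by
        rw [hq0', hCL, hε₁]; field_simp; ring
  -- pair sums
  set D : V d × V d → V d × V d → ℝ := fun q q' =>
    ε₁ * (cpow (tau (pc d)) 3 (q'.2 - q.2)).toReal with hD
  have hD0 : ∀ q q', 0 ≤ D q q' := fun q q' => mul_nonneg hε₁pos.le ENNReal.toReal_nonneg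
  have hsq : 0 < Real.sqrt ε := Real.sqrt_pos.2 hε
  have hpair : ∑ q ∈ B, ∑ q' ∈ B, (if q = q' then 0 else D q q') ≤ (Real.sqrt ε)⁻¹ / ε := by
    calc ∑ q ∈ B, ∑ q' ∈ B, (if q = q' then 0 else D q q')
        ≤ ∑ q ∈ B, ∑ q' ∈ B, D q q' := by
          refine Finset.sum_le_sum fun q _ => Finset.sum_le_sum fun q' _ => ?_
          split_ifs
          · exact hD0 q q'
          · exact le_rfl
      _ = ε₁ * ∑ q ∈ B, ∑ q' ∈ B, (cpow (tau (pc d)) 3 (q'.2 - q.2)).toReal := by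
          simp only [hD, Finset.mul_sum]
      _ ≤ ε₁ * ∑ x ∈ V', ∑ x' ∈ V', (t3 (x' - x)).toReal := by
          gcongr; exact pair_bdE hfin V' U
      _ ≤ ε₁ * ((Real.sqrt ε)⁻¹ * n') := by
          gcongr; exact hG2
      _ = (Real.sqrt ε)⁻¹ / ε := by
          rw [hε₁]; field_simp
  have hq4 : 0 < ε ^ (1 / 4 : ℝ) := Real.rpow_pos_of_pos hε _
  have hq4le : ε ^ (1 / 4 : ℝ) ≤ 1 := Real.rpow_le_one hε.le (by linarith) (by norm_num)
  -- the function F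
  have hα0 : (0 : ℝ) ≤ min (1 / c3 * k ^ (-c4)) 1 := by
    have : (0 : ℝ) ≤ k ^ (-c4) := Real.rpow_nonneg (by linarith) _
    positivity
  have hgood := bern_good q0 hq0pos.le hq0le B θ (Cθ * ε₁) hθ0 hθτ D hD0 c2 hc2pos hm
    (CL / ε₁) (by positivity) hqL (ε ^ (1 / 4 : ℝ)) hq4
    (fun T => (Pr d (infT (pc d + ε) U T)).toReal) (min (1 / c3 * k ^ (-c4)) 1) hα0
    (min_le_right _ _) (fun T _ => ENNReal.toReal_nonneg) (by
      intro T hT hZ hTL hDT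
      have hToff : ∀ q ∈ T, q.2 ∉ U := fun q hq => (mem_bdE.1 (hT hq)).2.1
      have hcond : Cs * (ε₁ ^ 2 * (T.card : ℝ) ^ 2 + ∑ q ∈ T, ∑ q' ∈ T, (if q = q' then 0 else
          ε₁ * (cpow (tau (pc d)) 3 (q'.2 - q.2)).toReal)) ≤ X := by
        rw [hX]
        apply mul_le_mul_of_nonneg_left _ (by linarith)
        apply add_le_add
        · have h1 : ε₁ * (T.card : ℝ) ≤ CL := by
            calc ε₁ * (T.card : ℝ) ≤ ε₁ * (CL / ε₁) := by gcongr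
              _ = CL := by field_simp
          calc ε₁ ^ 2 * (T.card : ℝ) ^ 2 = (ε₁ * T.card) ^ 2 := by ring
            _ ≤ CL ^ 2 := by gcongr
        · exact hDT.trans hq4le
      have hs := hsec ε₁ hε₁pos (hε₁ε'.trans hεes.le) U T hToff (c2 / 2) X (by positivity)
        hXpos.le hZ hcond
      have hle1 : (Pr d (infT (pc d + ε₁) U T)).toReal ≤ 1 := by
        have : Pr d (infT (pc d + ε₁) U T) ≤ 1 := prob_le_one
        exact ENNReal.toReal_le_of_le_ofReal zero_le_one (by simpa using this)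
      have h3' := h3 U T (pc d + ε₁) (pc d + ε) c3 (by linarith) (by linarith) (by linarith)
        hc3pos (hs.trans hle1) hToff hs
      have hrat : ((pc d + ε₁ - pc d) / (pc d + ε - pc d)) ^ c4 ≤ k ^ (-c4) := by
        have e1 : (pc d + ε₁ - pc d) / (pc d + ε - pc d) = ε₁ / ε := by ring_nf
        rw [e1, Real.rpow_neg (by linarith), ← Real.inv_rpow (by linarith)]
        apply Real.rpow_le_rpow (by positivity) _ hc4.le
        rw [div_le_iff₀ hε, inv_mul_eq_div]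
        exact hε₁ε
      have hmain : 1 - 1 / c3 * k ^ (-c4) ≤ (Pr d (infT (pc d + ε) U T)).toReal := by
        have : 1 / c3 * ((pc d + ε₁ - pc d) / (pc d + ε - pc d)) ^ c4 ≤ 1 / c3 * k ^ (-c4) := by
          gcongr
        linarith
      rcases le_total (1 / c3 * k ^ (-c4)) 1 with h | h
      · rw [min_eq_left h]; exact hmain
      · rw [min_eq_right h]; simp)
  -- conclusion
  rw [Pr_Bgt_Good' hpc hpc1 V' U hVU (pc d + ε) (by linarith) (by linarith)]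
  rw [mul_comm]
  refine mul_le_mul_of_nonneg_left ?_ ENNReal.toReal_nonneg
  refine le_trans ?_ hgood
  have hkn : (0 : ℝ) ≤ k ^ (-c4) := Real.rpow_nonneg (by linarith) _
  have hmin : min (1 / c3 * k ^ (-c4)) 1 ≤ 1 / c3 * k ^ (-c4) := min_le_left _ _
  have hε14 : ε ≤ ε ^ (1 / 4 : ℝ) := by
    calc ε = ε ^ (1 : ℝ) := (Real.rpow_one ε).symm
      _ ≤ ε ^ (1 / 4 : ℝ) := Real.rpow_le_rpow_of_exponent_ge hε (by linarith) (by norm_num)
  have hsqrt : Real.sqrt ε = ε ^ (1 / 4 : ℝ) * ε ^ (1 / 4 : ℝ) := by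
    rw [← Real.rpow_add hε, Real.sqrt_eq_rpow]; norm_num
  have t1 : 4 * (Cθ * ε₁) / c2 ≤ 4 * Cθ / c2 * ε ^ (1 / 4 : ℝ) := by
    calc 4 * (Cθ * ε₁) / c2 = 4 * Cθ / c2 * ε₁ := by ring
      _ ≤ 4 * Cθ / c2 * ε ^ (1 / 4 : ℝ) := by gcongr; exact hε₁ε'.trans hε14
  have t2 : 2 / (CL / ε₁) ≤ 2 / CL * ε ^ (1 / 4 : ℝ) := by
    calc 2 / (CL / ε₁) = 2 / CL * ε₁ := by field_simp
      _ ≤ 2 / CL * ε ^ (1 / 4 : ℝ) := by gcongr; exact hε₁ε'.trans hε14
  have t3' : q0 ^ 2 * (∑ q ∈ B, ∑ q' ∈ B, (if q = q' then 0 else D q q')) / ε ^ (1 / 4 : ℝ) ≤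
      1 / (1 - pc d) ^ 2 * ε ^ (1 / 4 : ℝ) := by
    rw [div_le_iff₀ hq4]
    calc q0 ^ 2 * (∑ q ∈ B, ∑ q' ∈ B, (if q = q' then 0 else D q q'))
        ≤ q0 ^ 2 * ((Real.sqrt ε)⁻¹ / ε) := by gcongr
      _ = 1 / (1 - pc d) ^ 2 * Real.sqrt ε := by
        rw [hq0']
        have hs2 : Real.sqrt ε ^ 2 = ε := Real.sq_sqrt hε.le
        field_simp
        rw [hs2]
      _ = 1 / (1 - pc d) ^ 2 * ε ^ (1 / 4 : ℝ) * ε ^ (1 / 4 : ℝ) := by rw [hsqrt]; ring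
  have hc3k : 0 ≤ 1 / c3 * ε ^ (1 / 4 : ℝ) := by positivity
  have hk2 : 0 ≤ (4 * Cθ / c2 + 2 / CL + 1 / (1 - pc d) ^ 2) * k ^ (-c4) := by positivity
  nlinarith [t1, t2, t3', hmin, hc3k, hk2, hkn, hq4]

end Pool.Agent.PB.L12
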