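import Pool.Agent.PB.L.StopB
import Pool.Agent.PB.L.Indep4
import Pool.Agent.PB.P.Loc
import Pool.Agent.PB.P.Mix

/-!
# PROJECT PB, module PBL-StopInd: measurability and independence for the exploration of 12.5
-/

set_option autoImplicit false
open MeasureTheory Filter Topology
open scoped ENNReal BigOperators

namespace Pool.Agent.PB

variable {d : ℕ}

private theorem bef_meas {Ω : Type*} [MeasurableSpace Ω] {S : Ω → Set (Sym2 (V d))} (hS : MES S)
    (j : ℕ) (z z' : V d) : MeasurableSet {ω | Bef (S ω) j z z'} := by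
  have : {ω | Bef (S ω) j z z'} = (⋃ i : ℕ, ⋃ _ : i < j, {ω | RchL (S ω) i 0 z'}) ∪
      ({ω | RchL (S ω) j 0 z'} ∩ {_ω | enc z' < enc z}) := by
    ext ω; simp [Bef]
  rw [this]
  exact (MeasurableSet.iUnion fun i => MeasurableSet.iUnion fun _ => hS.rchL i 0 z').union
    ((hS.rchL j 0 z').inter (MeasurableSet.const _))

private theorem ncard_meas {Ω W : Type*} [MeasurableSpace Ω] [Countable W] {C : Ω → Set W}
    (hC : MVS C) (n : ℝ) : MeasurableSet {ω | (C ω).Finite ∧ ((C ω).ncard : ℝ) < n} := by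
  have h1 : {ω | (C ω).Finite ∧ ((C ω).ncard : ℝ) < n} =
      (fun ω => (C ω).encard) ⁻¹' {e : ℕ∞ | e ≠ ⊤ ∧ ((e.toNat : ℕ) : ℝ) < n} := by
    ext ω
    simp only [Set.mem_ofPred_eq, Set.mem_preimage, Ne, Set.encard_eq_top_iff, Set.not_infinite,
      Set.ncard_def]
  rw [h1]
  exact hC.encard (Set.to_countable _).measurableSet

theorem stopD_meas {Ω : Type*} [MeasurableSpace Ω] {S S' : Ω → Set (Sym2 (V d))} (hS : MES S)
    (hS' : MES S') (n : ℝ) (j : ℕ) (z : V d) (V1 U : Finset (V d)) :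
    MeasurableSet {ω | StopD (S ω) (S' ω) n j z V1 U} := by
  have hD : MVS (fun ω => (V1 : Set (V d)) ∪ ⋃ z' ∈ {z' | Bef (S ω) j z z'}, Cl (S' ω) z') := by
    intro x
    have : {ω | x ∈ (V1 : Set (V d)) ∪ ⋃ z' ∈ {z' | Bef (S ω) j z z'}, Cl (S' ω) z'} =
        {_ω | x ∈ (V1 : Set (V d))} ∪
          ⋃ z' : V d, ({ω | Bef (S ω) j z z'} ∩ {ω | x ∈ Cl (S' ω) z'}) := by
      ext ω; simp
    rw [this]
    exact (MeasurableSet.const _).union (MeasurableSet.iUnion fun z' =>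
      (bef_meas hS j z z').inter (hS'.cl z' x))
  have : {ω | StopD (S ω) (S' ω) n j z V1 U} =
      {ω | z ∈ Sph (S ω) j 0} ∩ {ω | Cl (S' ω) z = (V1 : Set (V d))} ∩
      {_ω | n ≤ (V1.card : ℝ)} ∩
      (⋂ z' : V d, ({ω | Bef (S ω) j z z'}ᶜ ∪
        {ω | (Cl (S' ω) z').Finite ∧ ((Cl (S' ω) z').ncard : ℝ) < n})) ∩
      {ω | (V1 : Set (V d)) ∪ ⋃ z' ∈ {z' | Bef (S ω) j z z'}, Cl (S' ω) z' =
        (U : Set (V d))} := by
    ext ω
    constructor
    · intro h
      refine ⟨⟨⟨⟨h.sph, h.cl⟩, h.big⟩, ?_⟩, h.ecl.symm⟩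
      rw [Set.mem_iInter]
      intro z'
      by_cases hb : Bef (S ω) j z z'
      · exact Or.inr (h.small z' hb)
      · exact Or.inl hb
    · rintro ⟨⟨⟨⟨h1, h2⟩, h3⟩, h4⟩, h5⟩
      refine ⟨h1, h2, h3, ?_, h5.symm⟩
      intro z' hb
      exact ((Set.mem_iInter.1 h4) z').resolve_left fun h => h hb
  rw [this]
  refine ((((hS.sph j 0 z).inter ((hS'.cl z).eq_set _)).inter (MeasurableSet.const _)).inter
    (MeasurableSet.iInter fun z' => (bef_meas hS j z z').compl.union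
      (ncard_meas (hS'.cl z') n))).inter (hD.eq_set _)

theorem stopE_meas (p n : ℝ) (j : ℕ) (z : V d) (V1 U : Finset (V d)) :
    MeasurableSet (StopE p n j z V1 U) := stopD_meas (opn_MES p) (opn_MES (pc d)) n j z V1 U

theorem stop_indep {p n : ℝ} (j : ℕ) (z : V d) (V1 U : Finset (V d)) :
    Pr d (StopE p n j z V1 U ∩ GoodEv p V1 U) * Pr d (Bgt V1 U) =
      Pr d (StopE p n j z V1 U) * Pr d (Bgt V1 U ∩ GoodEv p V1 U) := by
  classical
  by_cases hVU : V1 ⊆ U
  swap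
  · have h0 : StopE p n j z V1 U = ∅ := by
      ext ω
      simp only [Set.mem_empty_iff_false, iff_false]
      intro h
      exact hVU (StopD.subset h)
    rw [h0, Set.empty_inter, measure_empty, zero_mul, zero_mul]
  set B := Bset V1 U with hB
  set Stop' : Set (Om d) := {ω | StopD (opn p ω \ B) (opn (pc d) ω \ B) n j z V1 U} with hStop'
  have hedge : ∀ q ∈ bdE V1 U, und q ∈ (lat d).edgeSet := by
    intro q hq
    exact (SimpleGraph.mem_edgeSet _).2 (mem_bdE.1 hq).2.2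
  -- (1)
  have e1 : StopE p n j z V1 U = Stop' ∩ Bgt V1 U := by
    ext ω
    have h1 : ω ∈ StopE p n j z V1 U ↔
        (StopD (opn p ω \ B) (opn (pc d) ω \ B) n j z V1 U ∧ Disjoint B (opn (pc d) ω)) :=
      StopD_diff
    have h2 : Disjoint B (opn (pc d) ω) ↔ ω ∈ Bgt V1 U := by
      rw [Set.disjoint_left]
      constructor
      · intro h q hq
        have := h (show und q ∈ B from ⟨q, hq, rfl⟩)
        by_contra hcon
        exact this ⟨hedge q hq, not_lt.1 hcon⟩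
      · rintro h _ ⟨q, hq, rfl⟩ hmem
        exact absurd hmem.2 (not_le.2 (h q hq))
    rw [h1, h2]
    exact Iff.rfl
  -- (2)
  have hd1 : DependsOn (fun ω : Om d => ω ∈ Stop')
      (Sum.inl '' (touch (U : Set (V d)) \ B) : Set (Ix d)) := by
    have h1 := dep_comp (dep_pair (dep_opn (d := d) p (touch (U : Set (V d)) \ B)
      (S := (Sum.inl '' (touch (U : Set (V d)) \ B) : Set (Ix d))) fun e he => ⟨e, he, rfl⟩)
      (dep_opn (d := d) (pc d) (touch (U : Set (V d)) \ B)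
      (S := (Sum.inl '' (touch (U : Set (V d)) \ B) : Set (Ix d))) fun e he => ⟨e, he, rfl⟩))
      (fun q => StopD q.1 q.2 n j z V1 U)
    have h2 : ∀ O : Set (Sym2 (V d)), (O \ B) ∩ touch (U : Set (V d)) =
        O ∩ (touch (U : Set (V d)) \ B) := by
      intro O; ext e; simp only [Set.mem_inter_iff, Set.mem_sdiff]; tauto
    have h3 : ∀ ω : Om d, ω ∈ Stop' ↔ StopD (opn p ω ∩ (touch (U : Set (V d)) \ B))
        (opn (pc d) ω ∩ (touch (U : Set (V d)) \ B)) n j z V1 U := by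
      intro ω
      rw [← h2, ← h2]
      exact StopD_touch
    intro ω ω' hω
    have := h1 hω
    simp only [eq_iff_iff] at this ⊢
    rw [h3, h3]
    exact this
  -- (3)
  have hlab : ∀ ω ω' : Om d,
      (∀ i ∈ (Sum.inl '' B ∪ (tI (U : Set (V d)))ᶜ : Set (Ix d)), ω i = ω' i) →
      ∀ q ∈ bdE V1 U, ω (Sum.inl (und q)) = ω' (Sum.inl (und q)) := by
    intro ω ω' hω q hq
    exact hω _ (Or.inl ⟨und q, ⟨q, hq, rfl⟩, rfl⟩)
  have hd2 : DependsOn (fun ω : Om d => ω ∈ Bgt V1 U)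
      (Sum.inl '' B ∪ (tI (U : Set (V d)))ᶜ : Set (Ix d)) := by
    intro ω ω' hω
    have h1 := hlab ω ω' hω
    simp only [eq_iff_iff]
    constructor
    · intro h q hq; rw [← h1 q hq]; exact h q hq
    · intro h q hq; rw [h1 q hq]; exact h q hq
  have hd3 : DependsOn (fun ω : Om d => ω ∈ Bgt V1 U ∩ GoodEv p V1 U)
      (Sum.inl '' B ∪ (tI (U : Set (V d)))ᶜ : Set (Ix d)) := by
    intro ω ω' hω
    have h1 := hlab ω ω' hω
    have h2 := hd2 hω
    have h4 : ∀ y : V d, (ClA (Del.ofSet (U : Set (V d))) (opn p ω) y).Infinite ↔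
        (ClA (Del.ofSet (U : Set (V d))) (opn p ω') y).Infinite := by
      intro y
      have h3 := dep_rem_ofSet (d := d) p 0 0 (U : Set (V d)) (fun R _ _ =>
        {x : V d | y ∉ (Del.ofSet (U : Set (V d))).S ∧ Rch R y x}.Infinite)
        (fun i hi => hω i (Or.inr hi))
      simp only [eq_iff_iff] at h3
      exact h3
    simp only [eq_iff_iff] at h2 ⊢
    refine and_congr h2 ?_
    constructor
    · rintro ⟨q, hq, h5, h6⟩
      exact ⟨q, hq, by rw [← h1 q hq]; exact h5, (h4 _).1 h6⟩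
    · rintro ⟨q, hq, h5, h6⟩
      exact ⟨q, hq, by rw [h1 q hq]; exact h5, (h4 _).2 h6⟩
  have hdisj : Disjoint (Sum.inl '' (touch (U : Set (V d)) \ B) : Set (Ix d))
      (Sum.inl '' B ∪ (tI (U : Set (V d)))ᶜ : Set (Ix d)) := by
    rw [Set.disjoint_left]
    rintro _ ⟨e, he, rfl⟩ (⟨f, hf, hfe⟩ | h)
    · have : f = e := Sum.inl_injective hfe
      exact he.2 (this ▸ hf)
    · exact h (inl_mem_tI.2 he.1)
  have hm1 : MeasurableSet Stop' :=
    stopD_meas ((opn_MES p).sdiff (MES.const B)) ((opn_MES (pc d)).sdiff (MES.const B)) n j z V1 U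
  -- (4)
  have f1 : Pr d (StopE p n j z V1 U) = Pr d Stop' * Pr d (Bgt V1 U) := by
    rw [e1, Pr_eq]
    exact Pr_inter_indep hdisj hm1 (measurableSet_Bgt V1 U) hd1 hd2
  have f2 : Pr d (StopE p n j z V1 U ∩ GoodEv p V1 U) =
      Pr d Stop' * Pr d (Bgt V1 U ∩ GoodEv p V1 U) := by
    rw [e1, Set.inter_assoc, Pr_eq]
    exact Pr_inter_indep hdisj hm1 ((measurableSet_Bgt V1 U).inter (measurableSet_GoodEv p V1 U))
      hd1 hd3
  rw [f1, f2]
  ring

end Pool.Agent.PB
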