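import Pool.Agent.PB.L.StopA
import Pool.Agent.PB.L.StopInd
import Pool.Agent.PB.L.Indep4
import Pool.Agent.PB.P.Act

/-!
# PROJECT PB, module PBL-StopSum: summation over the stopping configurations (12.5, 12.7)

PLAN. Index set `ι = ℕ × V d × Finset (V d) × Finset (V d)` (countable), `E i := StopE p n i.1 i.2.1 i.2.2.1 i.2.2.2`, measurable (`stopE_meas`),
pairwise disjoint (`StopD.unique`), `I := {i | i.1 ≤ r}`, `J := {i ∈ I | G i.2.2.1 i.2.2.2}`.
(1) almost surely all `p_c`-clusters are finite: for every `x`, `Pr {ω | (Cl (Oc ω) x).Infinite} = theta d (pc d) = 0` (`theta_shift`), countable union.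
(2) `XEv p n r D0 0 ⊆ (⋃_{i ∈ I} E i) ∪ null set`: `StopD.exists` with `O = opn p ω`, `Q = Oc ω` (`D0.rem O = O`: `Del.ofSet_rem` with the empty set); if all
    `p_c`-clusters are finite only the second alternative in `XEv` is possible.
(3) for `i ∈ J` with `Pr (E i) ≠ 0`: `V1 ⊆ U` and `n ≤ |V1|` (take any ω in it), `stop_indep`, hypothesis `hG` and `Pr (Bgt) ≠ 0`
    (`Pr_Bgt`: its real value is `(1-p_c)^b > 0`) give `c (Pr (E i)).toReal ≤ (Pr (E i ∩ GoodEv)).toReal`.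
(4) `theta d p ≥ Σ_{i ∈ J} Pr(E i ∩ GoodEv i)` (disjoint measurable subsets: `stopE_good_subset`; `measure_biUnion`/`measure_iUnion`)
    `≥ ofReal c · Σ_{i ∈ J} Pr(E i) = ofReal c · Pr(⋃_{i ∈ J} E i)`.
(5) `⋃_{i ∈ I} E i ⊆ ⋃_{i ∈ J} E i ∪ bad`, so `Pr(⋃_J E i) ≥ Pr(XEv) - Pr(bad)`. Work in `ℝ≥0∞` until (4) and convert at the end (all are ≤ 1).
-/

set_option autoImplicit false
open MeasureTheory Filter Topology
open scoped ENNReal BigOperators

namespace Pool.Agent.PB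

variable {d : ℕ}

/-- the bad event: the exploration stops within distance `r` at a configuration not satisfying `G` -/
def BadStop (p n : ℝ) (r : ℕ) (G : Finset (V d) → Finset (V d) → Prop) : Set (Om d) :=
  {ω | ∃ j ≤ r, ∃ z V1 U, StopD (opn p ω) (Oc ω) n j z V1 U ∧ ¬ G V1 U}

/-- indices of the stopping configurations -/
private abbrev SIx (d : ℕ) := ℕ × V d × Finset (V d) × Finset (V d)

private def SE (p n : ℝ) (i : SIx d) : Set (Om d) := StopE p n i.1 i.2.1 i.2.2.1 i.2.2.2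

private theorem SE_disj {p n : ℝ} {i i' : SIx d} (h : i ≠ i') : Disjoint (SE p n i) (SE p n i') := by
  rw [Set.disjoint_left]
  intro ω h1 h2
  apply h
  obtain ⟨a, b, c', e⟩ := StopD.unique h1 h2
  exact Prod.ext a (Prod.ext b (Prod.ext c' e))

private theorem null_inf (hθ : theta d (pc d) = 0) :
    Pr d {ω : Om d | ∃ x : V d, (Cl (Oc ω) x).Infinite} = 0 := by
  have : {ω : Om d | ∃ x : V d, (Cl (Oc ω) x).Infinite} =
      ⋃ x : V d, {ω : Om d | (Cl (Oc ω) x).Infinite} := by ext ω; simp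
  rw [this, measure_iUnion_null_iff]
  intro x
  have := theta_shift (d := d) (pc d) x
  rw [hθ] at this
  exact this

private theorem D0_rem' (O : Set (Sym2 (V d))) : (D0 : Del (V d)).rem O = O := by
  rw [D0, Del.ofSet_rem]
  ext e; simp

private theorem X_subset {p n : ℝ} (r : ℕ) (G : Finset (V d) → Finset (V d) → Prop) :
    XEv p n r (D0 : Del (V d)) (0 : V d) ⊆
      ((⋃ i : {i : SIx d // i.1 ≤ r ∧ G i.2.2.1 i.2.2.2}, SE p n i.1) ∪ BadStop p n r G) ∪
        {ω : Om d | ∃ x : V d, (Cl (Oc ω) x).Infinite} := by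
  intro ω hω
  by_cases hinf : ∃ x : V d, (Cl (Oc ω) x).Infinite
  · exact Or.inr hinf
  left
  push Not at hinf
  have hfin : ∀ x, (Cl (Oc ω) x).Finite := hinf
  obtain ⟨_, z, hz, hor⟩ := hω
  rw [D0_rem'] at hz
  rw [D0_rem'] at hor
  have hbig : n ≤ ((Cl (Oc ω) z).ncard : ℝ) := hor.resolve_left (Set.not_infinite.2 (hinf z))
  obtain ⟨j, hj, z', V1, U, hst⟩ := StopD.exists (O := opn p ω) (fun e he => he.1) hfin ⟨z, hz, hbig⟩
  by_cases hG : G V1 U
  · left
    exact Set.mem_iUnion.2 ⟨⟨(j, z', V1, U), hj, hG⟩, hst⟩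
  · right
    exact ⟨j, hj, z', V1, U, hst, hG⟩

private theorem one_term (h0 : 0 < pc d) (h1 : pc d < 1) {p n c : ℝ} (hc0 : 0 ≤ c)
    (i : SIx d) (hi : n ≤ (i.2.2.1.card : ℝ) → i.2.2.1 ⊆ i.2.2.2 →
      c * (Pr d (Bgt i.2.2.1 i.2.2.2)).toReal ≤
        (Pr d (Bgt i.2.2.1 i.2.2.2 ∩ GoodEv p i.2.2.1 i.2.2.2)).toReal) :
    ENNReal.ofReal c * Pr d (SE p n i) ≤ Pr d (SE p n i ∩ GoodEv p i.2.2.1 i.2.2.2) := by
  obtain ⟨j, z, V1, U⟩ := i
  simp only at hi ⊢
  by_cases hz : Pr d (SE p n (j, z, V1, U)) = 0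
  · rw [hz, mul_zero]; exact zero_le
  have hne : (SE p n (j, z, V1, U)).Nonempty := by
    by_contra hcon
    rw [Set.not_nonempty_iff_eq_empty] at hcon
    rw [hcon, measure_empty] at hz
    exact hz rfl
  obtain ⟨ω, hω⟩ := hne
  have hsub : V1 ⊆ U := StopD.subset hω
  have hbig : n ≤ (V1.card : ℝ) := StopD.big hω
  have hG := hi hbig hsub
  have hB : (Pr d (Bgt V1 U)).toReal = (1 - pc d) ^ (bdE V1 U).card := Pr_Bgt h0 h1 V1 U hsub
  have hBpos : 0 < (Pr d (Bgt V1 U)).toReal := by rw [hB]; exact pow_pos (by linarith) _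
  have hB0 : Pr d (Bgt V1 U) ≠ 0 := by
    intro h; rw [h] at hBpos; simp at hBpos
  have hBt : Pr d (Bgt V1 U) ≠ ⊤ := measure_ne_top _ _
  have hG' : ENNReal.ofReal c * Pr d (Bgt V1 U) ≤ Pr d (Bgt V1 U ∩ GoodEv p V1 U) := by
    rw [← ENNReal.toReal_le_toReal (ENNReal.mul_ne_top ENNReal.ofReal_ne_top hBt) (measure_ne_top _ _),
      ENNReal.toReal_mul, ENNReal.toReal_ofReal hc0]
    exact hG
  have hind := stop_indep (d := d) (p := p) (n := n) j z V1 U
  have key : ENNReal.ofReal c * Pr d (SE p n (j, z, V1, U)) * Pr d (Bgt V1 U) ≤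
      Pr d (SE p n (j, z, V1, U) ∩ GoodEv p V1 U) * Pr d (Bgt V1 U) := by
    calc ENNReal.ofReal c * Pr d (SE p n (j, z, V1, U)) * Pr d (Bgt V1 U)
        = Pr d (SE p n (j, z, V1, U)) * (ENNReal.ofReal c * Pr d (Bgt V1 U)) := by ring
      _ ≤ Pr d (SE p n (j, z, V1, U)) * Pr d (Bgt V1 U ∩ GoodEv p V1 U) := by gcongr
      _ = _ := hind.symm
  exact (ENNReal.mul_le_mul_iff_left hB0 hBt).1 key

theorem stop_sum (h0 : 0 < pc d) (h1 : pc d < 1) (hθ : theta d (pc d) = 0) {p n : ℝ}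
    (hp : pc d ≤ p) (hp1 : p ≤ 1) (r : ℕ) (c : ℝ) (hc0 : 0 ≤ c) (hc1 : c ≤ 1)
    (G : Finset (V d) → Finset (V d) → Prop)
    (hG : ∀ V1 U : Finset (V d), V1 ⊆ U → n ≤ (V1.card : ℝ) → G V1 U →
      c * (Pr d (Bgt V1 U)).toReal ≤ (Pr d (Bgt V1 U ∩ GoodEv p V1 U)).toReal) :
    c * ((Pr d (XEv p n r (D0 : Del (V d)) (0 : V d))).toReal -
      (Pr d (BadStop p n r G)).toReal) ≤ thr d p := by
  set J := {i : SIx d // i.1 ≤ r ∧ G i.2.2.1 i.2.2.2} with hJ
  set UJ : Set (Om d) := ⋃ i : J, SE p n i.1 with hUJ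
  -- (A)
  have hA : Pr d (XEv p n r (D0 : Del (V d)) (0 : V d)) ≤ Pr d UJ + Pr d (BadStop p n r G) := by
    calc Pr d (XEv p n r (D0 : Del (V d)) (0 : V d))
        ≤ Pr d ((UJ ∪ BadStop p n r G) ∪ {ω : Om d | ∃ x : V d, (Cl (Oc ω) x).Infinite}) :=
          measure_mono (X_subset r G)
      _ ≤ Pr d (UJ ∪ BadStop p n r G) + Pr d {ω : Om d | ∃ x : V d, (Cl (Oc ω) x).Infinite} :=
          measure_union_le _ _
      _ ≤ (Pr d UJ + Pr d (BadStop p n r G)) + 0 := by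
          rw [null_inf hθ]; gcongr; exact measure_union_le _ _
      _ = _ := add_zero _
  have hA' : (Pr d (XEv p n r (D0 : Del (V d)) (0 : V d))).toReal ≤
      (Pr d UJ).toReal + (Pr d (BadStop p n r G)).toReal := by
    rw [← ENNReal.toReal_add (measure_ne_top _ _) (measure_ne_top _ _)]
    exact ENNReal.toReal_mono (ENNReal.add_ne_top.2 ⟨measure_ne_top _ _, measure_ne_top _ _⟩) hA
  -- (B)
  have hmeas : ∀ i : J, MeasurableSet (SE p n i.1 ∩ GoodEv p i.1.2.2.1 i.1.2.2.2) := fun i =>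
    (stopE_meas p n _ _ _ _).inter (measurableSet_GoodEv p _ _)
  have hdisj : Pairwise (Function.onFun Disjoint
      (fun i : J => SE p n i.1 ∩ GoodEv p i.1.2.2.1 i.1.2.2.2)) := by
    intro i i' hii
    have : i.1 ≠ i'.1 := fun h => hii (Subtype.ext h)
    exact (SE_disj this).mono Set.inter_subset_left Set.inter_subset_left
  have hB : ENNReal.ofReal c * Pr d UJ ≤ theta d p := by
    calc ENNReal.ofReal c * Pr d UJ ≤ ENNReal.ofReal c * ∑' i : J, Pr d (SE p n i.1) := by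
          gcongr; exact measure_iUnion_le _
      _ = ∑' i : J, ENNReal.ofReal c * Pr d (SE p n i.1) := by rw [ENNReal.tsum_mul_left]
      _ ≤ ∑' i : J, Pr d (SE p n i.1 ∩ GoodEv p i.1.2.2.1 i.1.2.2.2) :=
          ENNReal.tsum_le_tsum fun i => one_term h0 h1 hc0 i.1
            (fun hb hs => hG _ _ hs hb i.2.2)
      _ = Pr d (⋃ i : J, SE p n i.1 ∩ GoodEv p i.1.2.2.1 i.1.2.2.2) :=
          (measure_iUnion hdisj hmeas).symm
      _ ≤ theta d p := by
          refine measure_mono (Set.iUnion_subset fun i => ?_)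
          exact stopE_good_subset hp _ _ _ _
  have hB' : c * (Pr d UJ).toReal ≤ thr d p := by
    have := ENNReal.toReal_mono (theta_ne_top d p) hB
    rwa [ENNReal.toReal_mul, ENNReal.toReal_ofReal hc0] at this
  calc c * ((Pr d (XEv p n r (D0 : Del (V d)) (0 : V d))).toReal -
      (Pr d (BadStop p n r G)).toReal) ≤ c * (Pr d UJ).toReal := by
        apply mul_le_mul_of_nonneg_left _ hc0
        linarith
    _ ≤ thr d p := hB'

end Pool.Agent.PB
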