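import Pool.Agent.PB.L.Bad6
import Pool.Agent.PB.L.Lem4
import Pool.Agent.PB.L.GbrFar
import Pool.Agent.PB.L.StopSum
import Pool.Agent.PB.P.NL

/-!
# PROJECT PB, 12.7: `theorem out12`
-/

set_option autoImplicit false
open MeasureTheory Filter Topology
open scoped ENNReal BigOperators

namespace Pool.Agent.PB.L12

variable {d : ℕ}

theorem TR_tau_tendsto (hC : Crit d) :
    Tendsto (fun R : ℕ => TR R (tau (d := d) (pc d))) atTop (𝓝 0) := by
  have h := TRP_tendsto (d := d) (pc d) (t := tau (pc d)) (fun x => tau_neg (pc d) x) (by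
    rw [← cpow_succ']
    exact ((cpow_tau_le (by norm_num) 0).trans_lt hC.B8).ne)
  exact h

theorem out12 {b : ℝ} (hC : Crit d) (h5 : Out5 d) (h6 : Out6 d) (h7 : Out7 d b) (h8 : Out8 d b)
    (h9 : Out9 d b) (h10 : Out10 d) (h11 : Out11 d b) (hI : In12 d) : Out12 d b := by
  refine ⟨fun δ hδ => ?_⟩
  have hfin : ∀ x : V d, cpow (tau (pc d)) 3 x < ⊤ := fun x =>
    (cpow_tau_le (by norm_num) x).trans_lt hC.B8
  obtain ⟨Cθ, hCθ1, hθ⟩ := h9.th_le
  have hd1 : 1 ≤ d := by have := hC.hd; omega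
  have hd0 : (0 : ℝ) < d := by exact_mod_cast hd1
  have hpc := hC.pc_pos
  have hpc1 := hC.pc_lt
  set c1 : ℝ := 1 / (6 * d * Cθ * pc d) with hc1
  have hc1pos : 0 < c1 := by positivity
  obtain ⟨R1, hbad⟩ := bad6 hC h5 h8 h10 (fun R R1 => gbr_gfar_le hC h5 h6 h7 R R1)
    (TR_tau_tendsto hC) c1 hc1pos
  obtain ⟨C, c4, e0, hC1, hc4, he0, hlem⟩ := lem4_core hd1 hpc hpc1 hI hfin Cθ (by linarith) hθ R1
  set lm : ℝ := lam d b with hlm
  have hlmpos : 0 < lm := h9.lam_pos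
  set η : ℝ := min (1 / 4) (δ / (4 * lm)) with hη
  have hηpos : 0 < η := by positivity
  -- choice of k
  obtain ⟨k, hk1, hkC⟩ : ∃ k : ℝ, 1 ≤ k ∧ C * k ^ (-c4) ≤ η := by
    have h1 : Tendsto (fun k : ℝ => C * k ^ (-c4)) atTop (𝓝 (C * 0)) :=
      (tendsto_rpow_neg_atTop hc4).const_mul C
    rw [mul_zero] at h1
    have h2 := (h1.eventually (gt_mem_nhds hηpos)).and (eventually_ge_atTop (1 : ℝ))
    obtain ⟨k, hk⟩ := h2.exists
    exact ⟨k, hk.2, hk.1.le⟩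
  obtain ⟨K, hK, hlow⟩ := h11.low k (by linarith) (δ / 4) (by positivity)
  have h14 : Tendsto (fun ε : ℝ => C * ε ^ (1 / 4 : ℝ)) (𝓝[>] 0) (𝓝 0) := by
    have : Tendsto (fun ε : ℝ => ε ^ (1 / 4 : ℝ)) (𝓝 0) (𝓝 ((0 : ℝ) ^ (1 / 4 : ℝ))) :=
      (Real.continuousAt_rpow_const 0 (1 / 4) (Or.inr (by norm_num))).tendsto
    have h2 := (this.const_mul C).mono_left (nhdsWithin_le_nhds (s := Set.Ioi (0 : ℝ)))
    rw [Real.zero_rpow (by norm_num), mul_zero] at h2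
    exact h2
  filter_upwards [hlow, hbad k K (δ / 4) (by linarith) hK (by positivity), self_mem_nhdsWithin,
    (eventually_lt_nhds he0).filter_mono nhdsWithin_le_nhds,
    (eventually_lt_nhds (show (0 : ℝ) < 1 - pc d by linarith)).filter_mono nhdsWithin_le_nhds,
    h14.eventually (gt_mem_nhds hηpos)] with ε e1 e2 hε0 hεe hε1 hε4
  have hε : (0 : ℝ) < ε := hε0
  set c : ℝ := 1 - C * (k ^ (-c4) + ε ^ (1 / 4 : ℝ)) with hc
  have hkn : (0 : ℝ) ≤ k ^ (-c4) := Real.rpow_nonneg (by linarith) _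
  have hε14 : (0 : ℝ) ≤ ε ^ (1 / 4 : ℝ) := Real.rpow_nonneg hε.le _
  have hcη : 1 - 2 * η ≤ c := by
    rw [hc, mul_add]; linarith
  have hη4 : η ≤ 1 / 4 := min_le_left _ _
  have hc0 : 0 ≤ c := by linarith
  have hcle : c ≤ 1 := by
    have : 0 ≤ C * (k ^ (-c4) + ε ^ (1 / 4 : ℝ)) := by positivity
    linarith
  have hsum := stop_sum hpc hpc1 h5.theta_pc (p := pc d + ε) (n := k / ε ^ 2) (by linarith)
    (by linarith) ⌊K / ε⌋₊ c hc0 hcle
    (fun V1 U : Finset (V d) => G1 R1 c1 V1 ∧ G2 ε V1 ∧ G3 c1 V1 U) (by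
      intro V1 U hVU hn hG
      refine hlem k hk1 ε hε hεe U V1 hVU ?_ hG.1 hG.2.1 hG.2.2
      rw [div_le_iff₀ (by positivity)] at hn
      linarith)
  have hbadR : (Pr d (BadStop (pc d + ε) (k / ε ^ 2) ⌊K / ε⌋₊
      (fun V1 U : Finset (V d) => G1 R1 c1 V1 ∧ G2 ε V1 ∧ G3 c1 V1 U))).toReal ≤ δ / 4 * ε :=
    ENNReal.toReal_le_of_le_ofReal (by positivity) e2
  have hthr0 : 0 ≤ thr d (pc d + ε) := ENNReal.toReal_nonneg
  rcases le_total (lm - δ / 2) 0 with hneg | hpos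
  · refine le_trans ?_ hthr0
    exact mul_nonpos_of_nonpos_of_nonneg (by linarith) hε.le
  · have h3 : c * ((lm - δ / 2) * ε) ≤ thr d (pc d + ε) := by
      refine le_trans (mul_le_mul_of_nonneg_left ?_ hc0) hsum
      linarith
    refine le_trans ?_ h3
    have hηδ : η * (4 * lm) ≤ δ := by
      have : η ≤ δ / (4 * lm) := min_le_right _ _
      rwa [le_div_iff₀ (by positivity)] at this
    have h4 : (1 - 2 * η) * ((lm - δ / 2) * ε) ≤ c * ((lm - δ / 2) * ε) :=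
      mul_le_mul_of_nonneg_right hcη (mul_nonneg hpos hε.le)
    refine le_trans ?_ h4
    have h5 : (lm - δ) ≤ (1 - 2 * η) * (lm - δ / 2) := by nlinarith
    calc (lm - δ) * ε ≤ ((1 - 2 * η) * (lm - δ / 2)) * ε := by gcongr
      _ = (1 - 2 * η) * ((lm - δ / 2) * ε) := by ring

end Pool.Agent.PB.L12
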