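import Pool.Agent.PB.L.BdEdge
import Pool.Agent.PB.P.Act
import Pool.Agent.PB.P.Conv

/-!
# PROJECT PB, module PBL-Bad: reaching a bad critical cluster by a short `p`-open path (12.6, first lemma)

PLAN. `ε' := (p-p_c)/(1-p_c)`.
(1) DETERMINISTIC. Let `RchL (opn p ω) r 0 z`, `K := C(Oc ω, z)` finite with `P K`. Choose such a pair `(j, z)`, `j ≤ r`, with `RchL (opn p ω) j 0 z` and `j`
   minimal. If `j = 0`: `z = 0`, so `C(0)` is finite and `P`. If `j = i + 1`: by minimality the second alternative of `RchL` holds: `RchL O i 0 y`, `s(y,z) ∈ O`.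
   All vertices `x` with `RchL O i 0 x` are not in `K` (otherwise `C(x) = K` is finite with `P`, contradicting minimality). So
   `y ∉ K`, `RchL ((ofSet K).rem O) i 0 y` (LEMMA: if every `x` with `RchL O i 0 x` is outside `K` then `RchL O i 0 y → RchL ((ofSet K).rem O) i 0 y`: induction
   on `i`), hence `RchL ((ofSet K).rem O) r 0 y`; the edge `s(z,y)` is in `O`, so its label is `≤ p` and `l1 (y - z) = 1` (`mem_opn`).
(2) So the event is contained in `{C(0) finite, P} ∪ ⋃_{z} ⋃_{e ∈ U1 d} ⋃_{K finset, P K, z ∈ K, z+e ∉ K} {Cl (Oc ω) z = K} ∩ {label s(z,z+e) ≤ p} ∩ F_{K,z+e}`,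
   `F_{K,y} = {ω | RchL ((Del.ofSet K).rem (opn p ω)) r 0 y}` (depends on `(tI K)ᶜ`, measurable). `bdEdge`: each has probability
   `ofReal ε' Pr{C(z)=K} Pr(F_{K,y}) ≤ ofReal ε' Pr{C(z) = K} kap p r y` (`RchL.mono`, `Del.rem_subset`).
(3) sum over `K`: `Σ_{K : P K} Pr{C(z)=K} = Pr{C(z) finite, P} = Pr{C(0) finite, P}` (translation: `Pr_act (trI z)`, `Rch_act`, invariance `hP`);
   sum over `z = y - e`: `Σ_z Σ_e kap p r (z+e) = Σ_e Σ_y kap p r y = |U1 d| Σ_y kap p r y`, `|U1 d| ≤ 2d`.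
-/

set_option autoImplicit false
open MeasureTheory Filter Topology
open scoped ENNReal BigOperators

namespace Pool.Agent.PB

variable {d : ℕ}


/-! ### Deterministic part -/

theorem bad_rchL_off {W : Type*} {O : Set (Sym2 W)} {a : W} {K : Set W} :
    ∀ (i : ℕ) (y : W), (∀ x, RchL O i a x → x ∉ K) → RchL O i a y →
      RchL ((Del.ofSet K).rem O) i a y := by
  intro i
  induction i with
  | zero => intro y _ h; exact h
  | succ i ih =>
    intro y hK h
    have hK' : ∀ x, RchL O i a x → x ∉ K := fun x hx => hK x (Or.inl hx)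
    rcases h with h | ⟨z, hz, hzy⟩
    · exact Or.inl (ih y hK' h)
    · refine Or.inr ⟨z, ih z hK' hz, ?_⟩
      rw [rem_ofSet]
      refine ⟨hzy, fun ht => ?_⟩
      rcases mem_touch_iff.1 ht with h1 | h1
      · exact hK' z hz h1
      · exact hK y (Or.inr ⟨z, hz, hzy⟩) h1

theorem bad_det {W : Type*} (O O' : Set (Sym2 W)) (a : W) (P : Set W → Prop) :
    ∀ (j : ℕ) (z : W), RchL O j a z → (Cl O' z).Finite → P (Cl O' z) →
      ((Cl O' a).Finite ∧ P (Cl O' a)) ∨ ∃ (z y : W) (K : Finset W), P (K : Set W) ∧ z ∈ K ∧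
        y ∉ K ∧ s(z, y) ∈ O ∧ Cl O' z = (K : Set W) ∧
        RchL ((Del.ofSet (K : Set W)).rem O) j a y := by
  intro j
  induction j with
  | zero =>
    intro z h hf hP
    have : a = z := h
    subst this
    exact Or.inl ⟨hf, hP⟩
  | succ j ih =>
    intro z h hf hP
    have step : ∀ x, RchL O j a x → (Cl O' x).Finite → P (Cl O' x) →
        ((Cl O' a).Finite ∧ P (Cl O' a)) ∨ ∃ (z y : W) (K : Finset W), P (K : Set W) ∧ z ∈ K ∧
        y ∉ K ∧ s(z, y) ∈ O ∧ Cl O' z = (K : Set W) ∧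
        RchL ((Del.ofSet (K : Set W)).rem O) (j + 1) a y := by
      intro x hx hxf hxP
      rcases ih x hx hxf hxP with h1 | ⟨z, y, K, h1, h2, h3, h4, h5, h6⟩
      · exact Or.inl h1
      · exact Or.inr ⟨z, y, K, h1, h2, h3, h4, h5, Or.inl h6⟩
    rcases h with h | ⟨y, hy, hyz⟩
    · exact step z h hf hP
    · by_cases hex : ∃ x, RchL O j a x ∧ x ∈ Cl O' z
      · obtain ⟨x, hx, hxz⟩ := hex
        have hCl : Cl O' x = Cl O' z := Cl_eq_of_mem hxz
        exact step x hx (by rw [hCl]; exact hf) (by rw [hCl]; exact hP)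
      · have hK : ∀ x, RchL O j a x → x ∉ ((hf.toFinset : Finset W) : Set W) := by
          intro x hx hxK
          exact hex ⟨x, hx, by simpa using hxK⟩
        refine Or.inr ⟨z, y, hf.toFinset, by simpa using hP, ?_, ?_, ?_, by simp, ?_⟩
        · simpa using self_mem_Cl O' z
        · exact fun h' => hK y hy (by exact_mod_cast h')
        · rw [Sym2.eq_swap]; exact hyz
        · exact Or.inl (bad_rchL_off j y hK hy)

/-! ### Probability -/

theorem bad_shift (z : V d) (P : Set (V d) → Prop)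
    (hP : ∀ (K : Set (V d)) (z : V d), P ((fun x => x + z) '' K) ↔ P K) :
    Pr d {ω : Om d | (Cl (Oc ω) z).Finite ∧ P (Cl (Oc ω) z)} =
      Pr d {ω : Om d | (Cl (Oc ω) (0 : V d)).Finite ∧ P (Cl (Oc ω) (0 : V d))} := by
  rw [← Pr_act (trI z) {ω : Om d | (Cl (Oc ω) (0 : V d)).Finite ∧ P (Cl (Oc ω) (0 : V d))}]
  congr 1
  ext ω
  simp only [Set.mem_ofPred_eq]
  have h1 : Cl (Oc ω) z = (fun x => x + z) '' Cl (Oc (act (trI z) ω)) 0 := by
    ext x
    constructor
    · intro hx
      refine ⟨x - z, ?_, sub_add_cancel x z⟩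
      show Rch (opn (pc d) (act (trI z) ω)) 0 (x - z)
      rw [Rch_act (trI_aut z)]
      have hx' : Rch (opn (pc d) ω) z x := hx
      simpa [trI_apply] using hx'
    · rintro ⟨w, hw, rfl⟩
      have hw' : Rch (opn (pc d) (act (trI z) ω)) 0 w := hw
      rw [Rch_act (trI_aut z)] at hw'
      show Rch (opn (pc d) ω) z (w + z)
      simpa [trI_apply] using hw'
  rw [h1, hP]
  have h2 : ((fun x => x + z) '' Cl (Oc (act (trI z) ω)) (0 : V d)).Finite ↔
      (Cl (Oc (act (trI z) ω)) (0 : V d)).Finite :=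
    Set.finite_image_iff (add_left_injective z).injOn
  rw [h2]

theorem bad_sumK (z : V d) (P : Set (V d) → Prop) [DecidablePred fun K : Finset (V d) => P K] :
    ∑' K : Finset (V d), (if P (K : Set (V d)) then Pr d {ω : Om d | Cl (Oc ω) z = K} else 0) ≤
      Pr d {ω : Om d | (Cl (Oc ω) z).Finite ∧ P (Cl (Oc ω) z)} := by
  have hm : ∀ K : Finset (V d), MeasurableSet
      (if P (K : Set (V d)) then {ω : Om d | Cl (Oc ω) z = K} else ∅) := by
    intro K
    split_ifs
    · exact MVS.eq_set ((opn_MES (d := d) (pc d)).cl z) K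
    · exact MeasurableSet.empty
  have hd : Pairwise (Function.onFun Disjoint (fun K : Finset (V d) =>
      (if P (K : Set (V d)) then {ω : Om d | Cl (Oc ω) z = K} else ∅))) := by
    intro K K' hne
    rw [Function.onFun, Set.disjoint_left]
    intro ω h h'
    split_ifs at h h'
    · exact hne (Finset.coe_injective ((h : Cl (Oc ω) z = _).symm.trans h'))
    all_goals first | exact h | exact h'
  have h1 : ∀ K : Finset (V d), (if P (K : Set (V d)) then Pr d {ω : Om d | Cl (Oc ω) z = K}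
      else 0) = Pr d (if P (K : Set (V d)) then {ω : Om d | Cl (Oc ω) z = K} else ∅) := by
    intro K
    split_ifs
    · rfl
    · exact measure_empty.symm
  simp only [h1]
  rw [← measure_iUnion hd hm]
  refine measure_mono ?_
  intro ω hω
  obtain ⟨K, hK⟩ := Set.mem_iUnion.1 hω
  split_ifs at hK with hPK
  · have hK' : Cl (Oc ω) z = (K : Set (V d)) := hK
    refine ⟨?_, ?_⟩
    · rw [hK']; exact K.finite_toSet
    · rw [hK']; exact hPK
  · exact absurd hK (Set.notMem_empty _)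

theorem bad_lemma (h0 : 0 < pc d) (h1 : pc d < 1) {p : ℝ} (hp : pc d ≤ p) (hp1 : p ≤ 1) (r : ℕ)
    (P : Set (V d) → Prop) (hP : ∀ (K : Set (V d)) (z : V d), P ((fun x => x + z) '' K) ↔ P K) :
    Pr d {ω : Om d | ∃ z, RchL (opn p ω) r 0 z ∧ (Cl (Oc ω) z).Finite ∧ P (Cl (Oc ω) z)} ≤
      (1 + ENNReal.ofReal (2 * d * ((p - pc d) / (1 - pc d))) * ∑' x : V d, kap p r x) *
        Pr d {ω : Om d | (Cl (Oc ω) (0 : V d)).Finite ∧ P (Cl (Oc ω) (0 : V d))} := by
  classical
  set q : ℝ≥0∞ := Pr d {ω : Om d | (Cl (Oc ω) (0 : V d)).Finite ∧ P (Cl (Oc ω) (0 : V d))}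
    with hq
  set ε' : ℝ := (p - pc d) / (1 - pc d) with hε
  have hε0 : 0 ≤ ε' := div_nonneg (by linarith) (by linarith)
  let F : Finset (V d) → V d → Set (Om d) := fun K y =>
    {ω | RchL ((Del.ofSet (K : Set (V d))).rem (opn p ω)) r 0 y}
  let G : V d → V d → Finset (V d) → Set (Om d) := fun z e K =>
    if P (K : Set (V d)) ∧ z ∈ K ∧ z + e ∉ K then
      {ω | Cl (Oc ω) z = (K : Set (V d))} ∩
        ({ω | ((ω (Sum.inl s(z, z + e)) : unitInterval) : ℝ) ≤ p} ∩ F K (z + e)) else ∅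
  have hsub : {ω : Om d | ∃ z, RchL (opn p ω) r 0 z ∧ (Cl (Oc ω) z).Finite ∧ P (Cl (Oc ω) z)} ⊆
      {ω : Om d | (Cl (Oc ω) (0 : V d)).Finite ∧ P (Cl (Oc ω) (0 : V d))} ∪
        ⋃ z : V d, ⋃ e ∈ U1 d, ⋃ K : Finset (V d), G z e K := by
    rintro ω ⟨z, hz, hf, hPz⟩
    rcases bad_det (opn p ω) (Oc ω) 0 P r z hz hf hPz with h |
      ⟨z, y, K, h1, h2, h3, h4, h5, h6⟩
    · exact Or.inl h
    · refine Or.inr ?_
      simp only [Set.mem_iUnion]
      have hl : l1 (y - z) = 1 := by
        have := h4.1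
        rw [SimpleGraph.mem_edgeSet] at this
        exact this
      refine ⟨z, y - z, (mem_U1 _).2 hl, K, ?_⟩
      have hy : z + (y - z) = y := add_sub_cancel z y
      simp only [G]
      rw [hy, if_pos ⟨h1, h2, h3⟩]
      exact ⟨h5, h4.2, h6⟩
  have hG : ∀ z e, e ∈ U1 d → ∀ K : Finset (V d), Pr d (G z e K) ≤
      ENNReal.ofReal ε' * kap p r (z + e) *
        (if P (K : Set (V d)) then Pr d {ω : Om d | Cl (Oc ω) z = K} else 0) := by
    intro z e he K
    simp only [G]
    split_ifs with hc hPK hPK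
    · have hl : l1 (z + e - z) = 1 := by
        rw [add_sub_cancel_left]; exact (mem_U1 e).1 he
      have hFm : MeasurableSet (F K (z + e)) :=
        ((opn_MES (d := d) p).rem (Del.ofSet (K : Set (V d)))).rchL r 0 (z + e)
      have hFd : DependsOn (fun ω => ω ∈ F K (z + e)) (tI (K : Set (V d)))ᶜ :=
        dep_rem_ofSet (d := d) p 0 0 (K : Set (V d)) (fun O _ _ => RchL O r 0 (z + e))
      rw [bdEdge h0 h1 hp hp1 K z z (z + e) hc.2.1 hc.2.2 hl _ hFm hFd]
      have hFk : Pr d (F K (z + e)) ≤ kap p r (z + e) :=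
        measure_mono fun ω hω => RchL.mono (Del.rem_subset _ _) hω
      calc ENNReal.ofReal ε' * (Pr d {ω : Om d | Cl (Oc ω) z = (K : Set (V d))} *
            Pr d (F K (z + e)))
          ≤ ENNReal.ofReal ε' * (Pr d {ω : Om d | Cl (Oc ω) z = (K : Set (V d))} *
            kap p r (z + e)) := by gcongr
        _ = ENNReal.ofReal ε' * kap p r (z + e) *
            Pr d {ω : Om d | Cl (Oc ω) z = (K : Set (V d))} := by ring
    · exact absurd hc.1 hPK
    · rw [measure_empty]; exact zero_le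
    · rw [measure_empty]; exact zero_le
  have hsum : ∀ z e, e ∈ U1 d → Pr d (⋃ K : Finset (V d), G z e K) ≤
      ENNReal.ofReal ε' * q * kap p r (z + e) := by
    intro z e he
    calc Pr d (⋃ K : Finset (V d), G z e K) ≤ ∑' K : Finset (V d), Pr d (G z e K) :=
          measure_iUnion_le _
      _ ≤ ∑' K : Finset (V d), ENNReal.ofReal ε' * kap p r (z + e) *
          (if P (K : Set (V d)) then Pr d {ω : Om d | Cl (Oc ω) z = K} else 0) :=
          ENNReal.tsum_le_tsum (hG z e he)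
      _ = ENNReal.ofReal ε' * kap p r (z + e) * ∑' K : Finset (V d),
          (if P (K : Set (V d)) then Pr d {ω : Om d | Cl (Oc ω) z = K} else 0) :=
          ENNReal.tsum_mul_left
      _ ≤ ENNReal.ofReal ε' * kap p r (z + e) * q := by
          refine mul_le_mul' le_rfl ?_
          rw [hq, ← bad_shift z P hP]
          exact bad_sumK z P
      _ = ENNReal.ofReal ε' * q * kap p r (z + e) := by ring
  calc Pr d {ω : Om d | ∃ z, RchL (opn p ω) r 0 z ∧ (Cl (Oc ω) z).Finite ∧ P (Cl (Oc ω) z)}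
      ≤ Pr d ({ω : Om d | (Cl (Oc ω) (0 : V d)).Finite ∧ P (Cl (Oc ω) (0 : V d))} ∪
        ⋃ z : V d, ⋃ e ∈ U1 d, ⋃ K : Finset (V d), G z e K) := measure_mono hsub
    _ ≤ q + Pr d (⋃ z : V d, ⋃ e ∈ U1 d, ⋃ K : Finset (V d), G z e K) :=
        measure_union_le _ _
    _ ≤ q + ∑' z : V d, ∑ e ∈ U1 d, ENNReal.ofReal ε' * q * kap p r (z + e) := by
        refine add_le_add le_rfl ?_
        refine (measure_iUnion_le _).trans (ENNReal.tsum_le_tsum fun z => ?_)
        refine (measure_biUnion_finset_le _ _).trans (Finset.sum_le_sum fun e he => ?_)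
        exact hsum z e he
    _ = q + ∑ e ∈ U1 d, ∑' z : V d, ENNReal.ofReal ε' * q * kap p r (z + e) := by
        rw [Summable.tsum_finsetSum fun _ _ => ENNReal.summable]
    _ = q + ∑ e ∈ U1 d, ENNReal.ofReal ε' * q * ∑' x : V d, kap p r x := by
        congr 1
        refine Finset.sum_congr rfl fun e _ => ?_
        rw [ENNReal.tsum_mul_left]
        congr 1
        exact (Equiv.addRight e).tsum_eq (fun x => kap p r x)
    _ = q + ((U1 d).card : ℝ≥0∞) * (ENNReal.ofReal ε' * q * ∑' x : V d, kap p r x) := by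
        rw [Finset.sum_const, nsmul_eq_mul]
    _ = (1 + ENNReal.ofReal (2 * d * ε') * ∑' x : V d, kap p r x) * q := by
        rw [card_U1, ENNReal.ofReal_mul (by positivity), ENNReal.ofReal_mul (by norm_num),
          ENNReal.ofReal_natCast]
        push_cast
        rw [ENNReal.ofReal_ofNat]
        ring

end Pool.Agent.PB
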