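import Pool.Agent.PB.L.GDefs

/-!
# PROJECT PB, module PBL-BadG1: (G1) fails with probability `≤ δ ε`

Hypotheses: `hg` = `gbr_gfar_le` (module PBL-GbrFar), `hTR`: `TR R τ → 0` (6.6).

PLAN. DETERMINISTIC PART (`g1_split`): `Cl O 0 = V'` (finite). For `x ∈ V'`: `hF R1 V' x = Σ_{u ∈ V', u ∉ bx R1 x} ta (u-x)`. Split `V' = (V' ∩ Lb R O x) ∪ (V' \ Lb R O x)`; `Lb R O x ⊆ Cl O x = V'`.
 The first part is `Σ_{u ∈ Lb R O x, u ∉ bx R1 x} ta (u-x) = gfar R R1 (Lb0 R O x)` (`u - x ∈ Lb0 R O x ↔ u ∈ Lb R O x`; `Lb R O x ⊆ bx R x`, so `u - x ∈ bxF d R`; a bijection of finite sums);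
 the second is `≤ Σ_{u ∈ V' \ Lb R O x} ta (u - x)`. Hence
 `Σ_{x ∈ V'} hF R1 V' x ≤ Yf R (gfar R R1) O 0 + Σ_{x ∈ V'} Σ_{u ∈ V', u ∉ Lb R O x} ta (u-x)`.
(G1): `R1` with `(FarS d R1).toReal ≤ c1/4` (`farS_tendsto`). Given `k, K2, δ`: `C` from `Out8.nonloc k K2`; `R` with `(C/(c1/2)) (TR R τ).toReal ≤ δ/2` and `TR R τ < ⊤`.
 `Out8.lln R (gfar R R1) c k K2 (c1/4)` (bounded: `|gfar R R1 L| ≤ |bxF d R|` since `0 ≤ ta ≤ 1`): along `s = ε²` (`ε → 0+` gives `s → 0+`, `√s = ε`): eventually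
 `Pr(LLN-bad) ≤ (δ/2) ε`. `Out8.nonloc` with `t = τ`, `η = c1/2`, `s = ε²`: `≤ ofReal (C/(c1/2) ε) * TR R τ ≤ (δ/2) ε`.
 Outside both bad events: `Yf ≤ (gbr + c1/4) N ≤ (c1/2) N` and `Σ_x Σ_{u ∉ Lb} ta ≤ (c1/2) N` (the real double sum is the toReal of the double tsum of the indicator), so `G1 R1 c1 V'` holds.
-/

set_option autoImplicit false
open MeasureTheory Filter Topology
open scoped ENNReal BigOperators

namespace Pool.Agent.PB.L12

variable {d : ℕ}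

private theorem ta_nonneg' (x : V d) : 0 ≤ ta x := ENNReal.toReal_nonneg

private theorem tau_ne_top' (x : V d) : tau (pc d) x ≠ ⊤ :=
  ((prob_le_one (μ := Pr d)).trans_lt ENNReal.one_lt_top).ne

private theorem ta_le_one' (x : V d) : ta x ≤ 1 := by
  unfold ta
  have h : tau (pc d) x ≤ 1 := prob_le_one
  have := (ENNReal.toReal_le_toReal (tau_ne_top' x) ENNReal.one_ne_top).2 h
  rwa [ENNReal.toReal_one] at this

private theorem mem_bx_sub (R1 : ℕ) (x u : V d) : u - x ∈ bx R1 (0 : V d) ↔ u ∈ bx R1 x := by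
  constructor
  · intro h i
    have := h i
    rwa [Pi.zero_apply, sub_zero, Pi.sub_apply] at this
  · intro h i
    rw [Pi.zero_apply, sub_zero, Pi.sub_apply]
    exact h i

private theorem Lb_subset_bx (R : ℕ) (O : Set (Sym2 (V d))) (x : V d) : Lb R O x ⊆ bx R x := by
  intro u hu
  refine Rch.mem_of_closed (bx R x) ?_ ?_ hu
  · intro i; simp
  · intro a _ b hab
    exact hab.2 b (Sym2.mem_mk_right a b)

private theorem Lb_subset_Cl (R : ℕ) (O : Set (Sym2 (V d))) (x : V d) : Lb R O x ⊆ Cl O x :=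
  Cl_mono Set.inter_subset_left x

open Classical in
private theorem hF_le (R R1 : ℕ) (O : Set (Sym2 (V d))) (V' : Finset (V d)) (x : V d) :
    hF R1 V' x ≤ gfar R R1 (Lb0 R O x) + ∑ u ∈ V', (if u ∉ Lb R O x then ta (u - x) else 0) := by
  have h1 : hF R1 V' x ≤ ∑ u ∈ V', ((if u ∈ Lb R O x ∧ u ∉ bx R1 x then ta (u - x) else 0) +
      (if u ∉ Lb R O x then ta (u - x) else 0)) := by
    unfold hF
    refine Finset.sum_le_sum fun u _ => ?_
    have h0 := ta_nonneg' (u - x)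
    by_cases ha : u ∈ bx R1 x <;> by_cases hb : u ∈ Lb R O x <;> simp [ha, hb, h0]
  refine h1.trans ?_
  rw [Finset.sum_add_distrib]
  refine add_le_add ?_ le_rfl
  unfold gfar
  rw [← Finset.sum_filter, ← Finset.sum_filter]
  have hinj : Set.InjOn (fun u : V d => u - x)
      (V'.filter (fun u => u ∈ Lb R O x ∧ u ∉ bx R1 x) : Finset (V d)) := by
    intro u _ v _ huv
    exact sub_left_injective huv
  rw [← Finset.sum_image (f := fun v => ta v) hinj]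
  refine Finset.sum_le_sum_of_subset_of_nonneg ?_ (fun v _ _ => ta_nonneg' v)
  intro v hv
  rw [Finset.mem_image] at hv
  obtain ⟨u, hu, rfl⟩ := hv
  rw [Finset.mem_filter] at hu
  rw [Finset.mem_filter]
  refine ⟨?_, ⟨u, hu.2.1, rfl⟩, ?_⟩
  · rw [mem_bxF, mem_bx_sub]
    exact Lb_subset_bx R O x hu.2.1
  · rw [mem_bx_sub]; exact hu.2.2

theorem g1_split (R R1 : ℕ) (O : Set (Sym2 (V d))) (V' : Finset (V d))
    (h : Cl O (0 : V d) = (V' : Set (V d))) :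
    ∑ x ∈ V', hF R1 V' x ≤ Yf R (gfar R R1) O 0 +
      (∑' x : V d, ∑' z : V d, Set.indicator {q : V d × V d | q.1 ∈ Cl O (0 : V d) ∧
            q.2 ∈ Cl O (0 : V d) ∧ q.2 ∉ Lb R O q.1} (fun q => tau (pc d) (q.2 - q.1)) (x, z)).toReal := by
  classical
  have hfin : (Cl O (0 : V d)).Finite := by rw [h]; exact V'.finite_toSet
  have hto : hfin.toFinset = V' := by
    ext x; rw [Set.Finite.mem_toFinset, h, Finset.mem_coe]
  have hY : Yf R (gfar R R1) O (0 : V d) = ∑ x ∈ V', gfar R R1 (Lb0 R O x) := by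
    unfold Yf
    rw [dif_pos hfin, hto]
  have hS : (∑' x : V d, ∑' z : V d, Set.indicator {q : V d × V d | q.1 ∈ Cl O (0 : V d) ∧
            q.2 ∈ Cl O (0 : V d) ∧ q.2 ∉ Lb R O q.1} (fun q => tau (pc d) (q.2 - q.1)) (x, z)) =
      ∑ x ∈ V', ∑ z ∈ V', (if z ∉ Lb R O x then tau (pc d) (z - x) else 0) := by
    rw [tsum_eq_sum (s := V')]
    · refine Finset.sum_congr rfl fun x hx => ?_
      rw [tsum_eq_sum (s := V')]
      · refine Finset.sum_congr rfl fun z hz => ?_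
        rw [Set.indicator_apply]
        have hx' : x ∈ Cl O (0 : V d) := by rw [h]; exact hx
        have hz' : z ∈ Cl O (0 : V d) := by rw [h]; exact hz
        by_cases hL : z ∈ Lb R O x
        · rw [if_neg (fun hc => hc.2.2 hL), if_neg (not_not.2 hL)]
        · rw [if_pos ⟨hx', hz', hL⟩, if_pos hL]
      · intro z hz
        rw [Set.indicator_of_notMem]
        intro hc
        have h1 : z ∈ Cl O (0 : V d) := hc.2.1
        rw [h] at h1
        exact hz h1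
    · intro x hx
      rw [ENNReal.tsum_eq_zero]
      intro z
      rw [Set.indicator_of_notMem]
      intro hc
      have h1 : x ∈ Cl O (0 : V d) := hc.1
      rw [h] at h1
      exact hx h1
  have hS' : (∑ x ∈ V', ∑ z ∈ V', (if z ∉ Lb R O x then tau (pc d) (z - x) else 0)).toReal =
      ∑ x ∈ V', ∑ z ∈ V', (if z ∉ Lb R O x then ta (z - x) else 0) := by
    have hne : ∀ x z : V d, (if z ∉ Lb R O x then tau (pc d) (z - x) else 0) ≠ ⊤ := by
      intro x z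
      split_ifs
      · exact ENNReal.zero_ne_top
      · exact tau_ne_top' _
    rw [ENNReal.toReal_sum (fun x _ => (ENNReal.sum_lt_top.2 fun z _ => (hne x z).lt_top).ne)]
    refine Finset.sum_congr rfl fun x _ => ?_
    rw [ENNReal.toReal_sum (fun z _ => hne x z)]
    refine Finset.sum_congr rfl fun z _ => ?_
    split_ifs
    · rfl
    · rfl
  rw [hS, hS', hY, ← Finset.sum_add_distrib]
  exact Finset.sum_le_sum fun x _ => hF_le R R1 O V' x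

private theorem gfar_bd (R R1 : ℕ) (L : Set (V d)) : |gfar R R1 L| ≤ ((bxF d R).card : ℝ) := by
  classical
  unfold gfar
  refine (Finset.abs_sum_le_sum_abs _ _).trans ?_
  calc ∑ u ∈ bxF d R, |if u ∈ L ∧ u ∉ bx R1 (0 : V d) then ta u else 0|
      ≤ ∑ _u ∈ bxF d R, (1 : ℝ) := by
        refine Finset.sum_le_sum fun u _ => ?_
        split_ifs
        · rw [abs_of_nonneg (ta_nonneg' u)]; exact ta_le_one' u
        · rw [abs_zero]; exact zero_le_one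
    _ = _ := by rw [Finset.sum_const, nsmul_eq_mul, mul_one]

theorem bad_g1 {b : ℝ} (hC : Crit d) (h8 : Out8 d b)
    (hg : ∀ R R1 : ℕ, gbr R (gfar (d := d) R R1) ≤ (FarS d R1).toReal)
    (hTR : Tendsto (fun R : ℕ => TR R (tau (d := d) (pc d))) atTop (𝓝 0)) (c1 : ℝ) (hc1 : 0 < c1) :
    ∃ R1 : ℕ, ∀ k K2 : ℝ, 0 < k → k < K2 → ∀ δ : ℝ, 0 < δ → ∀ᶠ ε in 𝓝[>] (0 : ℝ),
    Pr d {ω : Om d | k ≤ ε ^ 2 * (Nc (Oc ω) (0 : V d) : ℝ) ∧
      ε ^ 2 * (Nc (Oc ω) (0 : V d) : ℝ) ≤ K2 ∧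
      ∃ V' : Finset (V d), Cl (Oc ω) (0 : V d) = (V' : Set (V d)) ∧ ¬ G1 R1 c1 V'} ≤
      ENNReal.ofReal (δ * ε) := by
  classical
  obtain ⟨R1, hR1⟩ : ∃ R1 : ℕ, (FarS d R1).toReal ≤ c1 / 4 := by
    have h1 : ∀ᶠ R1 : ℕ in atTop, FarS d R1 < ENNReal.ofReal (c1 / 4) :=
      (farS_tendsto hC.B8).eventually (gt_mem_nhds (by rw [ENNReal.ofReal_pos]; positivity))
    obtain ⟨R1, h2⟩ := h1.exists
    refine ⟨R1, ?_⟩
    have h3 := ENNReal.toReal_mono ENNReal.ofReal_ne_top h2.le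
    rwa [ENNReal.toReal_ofReal (by positivity)] at h3
  refine ⟨R1, fun k K2 hk hkK δ hδ => ?_⟩
  obtain ⟨C, hC0, hnl⟩ := h8.nonloc k K2 hk hkK
  obtain ⟨R, hR⟩ : ∃ R : ℕ, TR R (tau (d := d) (pc d)) ≤ ENNReal.ofReal (δ * c1 / (4 * C)) := by
    have h1 : ∀ᶠ R : ℕ in atTop, TR R (tau (d := d) (pc d)) < ENNReal.ofReal (δ * c1 / (4 * C)) :=
      hTR.eventually (gt_mem_nhds (by rw [ENNReal.ofReal_pos]; positivity))
    obtain ⟨R, h2⟩ := h1.exists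
    exact ⟨R, h2.le⟩
  have hlln := h8.lln R (gfar R R1) ((bxF d R).card : ℝ) (fun L _ _ => gfar_bd R R1 L) k K2
    (c1 / 4) hk hkK (by positivity)
  have hsq : Tendsto (fun ε : ℝ => ε ^ 2) (𝓝[>] 0) (𝓝[>] 0) := by
    refine tendsto_nhdsWithin_iff.2 ⟨?_, ?_⟩
    · have h1 : Tendsto (fun ε : ℝ => ε ^ 2) (𝓝 0) (𝓝 (0 ^ 2)) := (continuous_pow 2).tendsto 0
      rw [zero_pow two_ne_zero] at h1
      exact h1.mono_left nhdsWithin_le_nhds
    · filter_upwards [self_mem_nhdsWithin] with ε hε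
      have hε' : 0 < ε := hε
      exact pow_pos hε' 2
  have hev := (hlln.comp hsq).eventually (gt_mem_nhds (half_pos hδ))
  have hle1 : ∀ᶠ ε : ℝ in 𝓝[>] 0, 0 < ε ∧ ε ≤ 1 := by
    filter_upwards [Ioc_mem_nhdsGT (one_pos (α := ℝ))] with ε hε using hε
  filter_upwards [hev, hle1] with ε hε1 hε2
  obtain ⟨hε0, hε2⟩ := hε2
  have hs0 : 0 < ε ^ 2 := pow_pos hε0 2
  have hs1 : ε ^ 2 ≤ 1 := pow_le_one₀ hε0.le hε2
  have hsqrt : Real.sqrt (ε ^ 2) = ε := Real.sqrt_sq hε0.le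
  have h1 : (Pr d {ω : Om d | k ≤ ε ^ 2 * (Nc (Oc ω) (0 : V d) : ℝ) ∧
        ε ^ 2 * (Nc (Oc ω) (0 : V d) : ℝ) ≤ K2 ∧
        c1 / 4 * (Nc (Oc ω) (0 : V d) : ℝ) <
          |Yf R (gfar R R1) (Oc ω) 0 - gbr R (gfar (d := d) R R1) *
            (Nc (Oc ω) (0 : V d) : ℝ)|}) ≤ ENNReal.ofReal (δ / 2 * ε) := by
    have h2 : (Pr d {ω : Om d | k ≤ ε ^ 2 * (Nc (Oc ω) (0 : V d) : ℝ) ∧
        ε ^ 2 * (Nc (Oc ω) (0 : V d) : ℝ) ≤ K2 ∧
        c1 / 4 * (Nc (Oc ω) (0 : V d) : ℝ) <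
          |Yf R (gfar R R1) (Oc ω) 0 - gbr R (gfar (d := d) R R1) *
            (Nc (Oc ω) (0 : V d) : ℝ)|}).toReal / Real.sqrt (ε ^ 2) < δ / 2 := hε1
    rw [hsqrt, div_lt_iff₀ hε0] at h2
    have h3 : Pr d {ω : Om d | k ≤ ε ^ 2 * (Nc (Oc ω) (0 : V d) : ℝ) ∧
        ε ^ 2 * (Nc (Oc ω) (0 : V d) : ℝ) ≤ K2 ∧
        c1 / 4 * (Nc (Oc ω) (0 : V d) : ℝ) <
          |Yf R (gfar R R1) (Oc ω) 0 - gbr R (gfar (d := d) R R1) *
            (Nc (Oc ω) (0 : V d) : ℝ)|} ≠ ⊤ := measure_ne_top _ _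
    rw [← ENNReal.ofReal_toReal h3]
    exact ENNReal.ofReal_le_ofReal h2.le
  have h2 := hnl R (tau (d := d) (pc d)) (c1 / 2) (ε ^ 2) (by positivity) hs0 hs1
  rw [hsqrt] at h2
  have h3 : ENNReal.ofReal (C / (c1 / 2) * ε) * TR R (tau (d := d) (pc d)) ≤
      ENNReal.ofReal (δ / 2 * ε) := by
    refine (mul_le_mul' le_rfl hR).trans ?_
    rw [← ENNReal.ofReal_mul (by positivity)]
    refine ENNReal.ofReal_le_ofReal (le_of_eq ?_)
    field_simp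
    ring
  have hsum : ENNReal.ofReal (δ / 2 * ε) + ENNReal.ofReal (δ / 2 * ε) =
      ENNReal.ofReal (δ * ε) := by
    rw [← ENNReal.ofReal_add (by positivity) (by positivity)]
    congr 1
    ring
  rw [← hsum]
  refine le_trans ?_ (add_le_add h1 (h2.trans h3))
  refine le_trans (measure_mono ?_) (measure_union_le _ _)
  rintro ω ⟨hk1, hk2, V', hV', hG⟩
  by_contra hcon
  rw [Set.mem_union, not_or] at hcon
  obtain ⟨hn1, hn2⟩ := hcon
  have hN : (Nc (Oc ω) (0 : V d) : ℝ) = (V'.card : ℝ) := by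
    unfold Nc
    rw [hV', Set.ncard_coe_finset]
  have hY : |Yf R (gfar R R1) (Oc ω) 0 - gbr R (gfar (d := d) R R1) *
      (Nc (Oc ω) (0 : V d) : ℝ)| ≤ c1 / 4 * (Nc (Oc ω) (0 : V d) : ℝ) := by
    by_contra h4
    exact hn1 ⟨hk1, hk2, not_le.1 h4⟩
  have hD : ∑' x : V d, ∑' z : V d, Set.indicator {q : V d × V d | q.1 ∈ Cl (Oc ω) (0 : V d) ∧
            q.2 ∈ Cl (Oc ω) (0 : V d) ∧ q.2 ∉ Lb R (Oc ω) q.1}
              (fun q => tau (pc d) (q.2 - q.1)) (x, z) ≤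
      ENNReal.ofReal (c1 / 2 * (Nc (Oc ω) (0 : V d) : ℝ)) := by
    by_contra h4
    exact hn2 ⟨hk1, hk2, not_le.1 h4⟩
  apply hG
  unfold G1
  have h5 := g1_split R R1 (Oc ω) V' hV'
  have hN0 : (0 : ℝ) ≤ (Nc (Oc ω) (0 : V d) : ℝ) := Nat.cast_nonneg _
  have h6 := ENNReal.toReal_mono ENNReal.ofReal_ne_top hD
  rw [ENNReal.toReal_ofReal (by positivity)] at h6
  have h7 := (abs_le.1 hY).2
  have h8' : gbr R (gfar (d := d) R R1) * (Nc (Oc ω) (0 : V d) : ℝ) ≤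
      c1 / 4 * (Nc (Oc ω) (0 : V d) : ℝ) :=
    mul_le_mul_of_nonneg_right ((hg R R1).trans hR1) hN0
  rw [← hN]
  linarith

end Pool.Agent.PB.L12
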