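import Pool.Agent.PB.L.Fin

/-!
# PROJECT PB, module PBL-BadG2: (G2) fails with probability `≤ δ ε`

PLAN. `Out8.pairs` with `a = k`, `b' = K2`, `t = t3`, `Λ = (√ε)⁻¹`, `s = ε²` (`√s = ε`): if `Cl (Oc ω) 0 = V'` and `¬ G2 ε V'` then
`(√ε)⁻¹ |V'| < Σ_{x,x' ∈ V'} (t3 (x'-x)).toReal`, hence `ofReal (Λ N) < Σ'_x Σ'_z indicator {x, z ∈ C(0)} t3(z - x)` (the double tsum of the indicator is the finite double
sum over `V'` (`tsum_eq_sum`), every `t3` is finite or the right side is `⊤`; `N = Nc = V'.card`, `Set.ncard_coe_finset`). So the probability is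
`≤ ofReal (C √ε ε) * T`, `T = Σ' z, t3 z * conv τ τ z < ⊤` (`t3_sum_lt_top`), `≤ δ ε` as soon as `C T √ε ≤ δ`.
-/

set_option autoImplicit false
open MeasureTheory Filter Topology
open scoped ENNReal BigOperators

namespace Pool.Agent.PB.L12

variable {d : ℕ}

theorem bad_g2 {b : ℝ} (hC : Crit d) (h8 : Out8 d b) (k K2 : ℝ) (hk : 0 < k) (hkK : k < K2)
    (δ : ℝ) (hδ : 0 < δ) : ∀ᶠ ε in 𝓝[>] (0 : ℝ),
    Pr d {ω : Om d | k ≤ ε ^ 2 * (Nc (Oc ω) (0 : V d) : ℝ) ∧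
      ε ^ 2 * (Nc (Oc ω) (0 : V d) : ℝ) ≤ K2 ∧
      ∃ V' : Finset (V d), Cl (Oc ω) (0 : V d) = (V' : Set (V d)) ∧ ¬ G2 ε V'} ≤
      ENNReal.ofReal (δ * ε) := by
  obtain ⟨C, hC0, hP⟩ := h8.pairs k K2 hk hkK
  have hT := t3_sum_lt_top (d := d) hC.B8
  set T : ℝ≥0∞ := ∑' z : V d, t3 z * conv (tau (pc d)) (tau (pc d)) z with hTdef
  have hT0 : 0 ≤ T.toReal := ENNReal.toReal_nonneg
  have hsq : ∀ᶠ ε in 𝓝[>] (0 : ℝ), Real.sqrt ε < δ / (C * T.toReal + 1) := by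
    have h1 : Tendsto (fun ε : ℝ => Real.sqrt ε) (𝓝[>] 0) (𝓝 0) := by
      have h2 : Tendsto (fun ε : ℝ => Real.sqrt ε) (𝓝 0) (𝓝 (Real.sqrt 0)) :=
        Real.continuous_sqrt.tendsto 0
      rw [Real.sqrt_zero] at h2
      exact h2.mono_left nhdsWithin_le_nhds
    exact h1.eventually_lt_const (by positivity)
  filter_upwards [hsq, Ioo_mem_nhdsGT (zero_lt_one (α := ℝ))] with ε hε1 hε2
  have hε0 : 0 < ε := hε2.1
  have hs : 0 < Real.sqrt ε := Real.sqrt_pos.2 hε0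
  have h1 := hP t3 (Real.sqrt ε)⁻¹ (ε ^ 2) (inv_pos.2 hs) (by positivity)
    (by nlinarith [hε2.2])
  refine (measure_mono ?_).trans (h1.trans ?_)
  · rintro ω ⟨h2, h3, V', h4, h5⟩
    refine ⟨h2, h3, ?_⟩
    have hN : Nc (Oc ω) (0 : V d) = V'.card := by
      unfold Nc
      rw [h4, Set.ncard_coe_finset]
    unfold G2 at h5
    rw [not_le] at h5
    rw [hN]
    have h6 : ENNReal.ofReal ((Real.sqrt ε)⁻¹ * (V'.card : ℝ)) <
        ENNReal.ofReal (∑ x ∈ V', ∑ x' ∈ V', (t3 (x' - x)).toReal) :=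
      (ENNReal.ofReal_lt_ofReal_iff (lt_of_le_of_lt (by positivity) h5)).2 h5
    refine h6.trans_le ?_
    rw [ENNReal.ofReal_sum_of_nonneg fun x _ => Finset.sum_nonneg fun x' _ =>
      ENNReal.toReal_nonneg]
    refine (Finset.sum_le_sum fun x hx => ?_).trans (ENNReal.sum_le_tsum V')
    rw [ENNReal.ofReal_sum_of_nonneg fun x' _ => ENNReal.toReal_nonneg]
    refine (Finset.sum_le_sum fun x' hx' => ?_).trans (ENNReal.sum_le_tsum V')
    rw [Set.indicator_of_mem]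
    · exact ENNReal.ofReal_toReal_le
    · refine ⟨?_, ?_⟩
      · rw [h4]; exact Finset.mem_coe.2 hx
      · rw [h4]; exact Finset.mem_coe.2 hx'
  · rw [← hTdef, ← ENNReal.ofReal_toReal hT.ne, ← ENNReal.ofReal_mul (by positivity)]
    refine ENNReal.ofReal_le_ofReal ?_
    have h2 : Real.sqrt (ε ^ 2) = ε := Real.sqrt_sq hε0.le
    rw [h2, div_inv_eq_mul]
    have h3 : Real.sqrt ε * (C * T.toReal + 1) < δ := by
      rwa [lt_div_iff₀ (by positivity)] at hε1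
    have h4 : C * Real.sqrt ε * T.toReal ≤ δ := by nlinarith
    calc C * Real.sqrt ε * ε * T.toReal = C * Real.sqrt ε * T.toReal * ε := by ring
      _ ≤ δ * ε := mul_le_mul_of_nonneg_right h4 hε0.le

end Pool.Agent.PB.L12
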