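import Pool.Agent.PB.L.Defs
import Pool.Agent.PB.P.Loc
import Pool.Agent.PB.P.Mix
import Pool.Agent.PB.P.Expl

/-!
# PROJECT PB, module PBL-BdEdge: a boundary edge of a critical cluster, and everything off the cluster

PLAN. `e := s(u,y)`, `u ∈ K`, `y ∉ K`, a lattice edge. On `{Cl (Oc ω) x = K}` the edge `e` is not in `Oc ω` (otherwise `y ∈ K`: `Cl_closed`), i.e. its
label is `> p_c`, and `Oc ω = del1 (Oc ω) e`; conversely `{Cl (del1 (Oc ω) e) x = K} ∩ {label e > p_c} ⊆ {Cl (Oc ω) x = K}`. So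
`{Cl (Oc ω) x = K} = E' ∩ {p_c < label e}`, `E' = {Cl (del1 (Oc ω) e) x = K}` depends on `tI K \ {inl e}` (`dep_Cl_del1_eq`). Three independent groups of labels:
`tI K \ {inl e}`, `{inl e}` and `(tI K)ᶜ` (`inl e ∈ tI K` since `e` touches `K`): `Pr_inter_indep` twice.
`Pr{p_c < label e ≤ p} = ofReal (p - p_c)` (`Pr_label_le`, difference), `Pr{p_c < label e} = ofReal (1 - p_c)`. So
`Pr(C(x) = K) = Pr(E') (1-p_c)` and `Pr(C(x)=K, label ≤ p, F) = Pr(E') (p-p_c) Pr(F)`.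
-/

set_option autoImplicit false
open MeasureTheory Filter Topology
open scoped ENNReal BigOperators

namespace Pool.Agent.PB

variable {d : ℕ}

private theorem bdEdge_label_Ioc {q p : ℝ} (h0 : 0 < q) (hq : q ≤ p) (hp1 : p ≤ 1) (i : Ix d) :
    Pr d {ω : Om d | q < ((ω i : unitInterval) : ℝ) ∧ ((ω i : unitInterval) : ℝ) ≤ p} =
      ENNReal.ofReal (p - q) := by
  have h1 : {ω : Om d | q < ((ω i : unitInterval) : ℝ) ∧ ((ω i : unitInterval) : ℝ) ≤ p} =
      {ω : Om d | ((ω i : unitInterval) : ℝ) ≤ p} \ {ω : Om d | ((ω i : unitInterval) : ℝ) ≤ q} := by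
    ext ω
    simp only [Set.mem_ofPred_eq, Set.mem_sdiff, not_le]
    exact and_comm
  have h2 : {ω : Om d | ((ω i : unitInterval) : ℝ) ≤ q} ⊆ {ω : Om d | ((ω i : unitInterval) : ℝ) ≤ p} :=
    fun ω hω => le_trans hω hq
  have hm : MeasurableSet {ω : Om d | ((ω i : unitInterval) : ℝ) ≤ q} :=
    measurableSet_le (measurable_subtype_coe.comp (measurable_pi_apply _)) measurable_const
  have h3 : Pr d {ω : Om d | ((ω i : unitInterval) : ℝ) ≤ p} = ENNReal.ofReal (min p 1) :=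
    Pr_label_le i p
  have h4 : Pr d {ω : Om d | ((ω i : unitInterval) : ℝ) ≤ q} = ENNReal.ofReal (min q 1) :=
    Pr_label_le i q
  rw [h1, measure_sdiff h2 hm.nullMeasurableSet (measure_ne_top _ _), h3, h4, min_eq_left hp1,
    min_eq_left (hq.trans hp1), ENNReal.ofReal_sub _ h0.le]

theorem bdEdge (h0 : 0 < pc d) (h1 : pc d < 1) {p : ℝ} (hp : pc d ≤ p) (hp1 : p ≤ 1)
    (K : Finset (V d)) (x u y : V d) (hu : u ∈ K) (hy : y ∉ K) (hl : l1 (y - u) = 1)
    (F : Set (Om d)) (hF : MeasurableSet F)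
    (hdep : DependsOn (fun ω => ω ∈ F) (tI (K : Set (V d)))ᶜ) :
    Pr d ({ω | Cl (Oc ω) x = (K : Set (V d))} ∩
        ({ω | ((ω (Sum.inl s(u, y)) : unitInterval) : ℝ) ≤ p} ∩ F)) =
      ENNReal.ofReal ((p - pc d) / (1 - pc d)) *
        (Pr d {ω | Cl (Oc ω) x = (K : Set (V d))} * Pr d F) := by
  have hadj : (lat d).Adj u y := hl
  have he : s(u, y) ∈ (lat d).edgeSet := hadj
  have heK : s(u, y) ∈ touch (K : Set (V d)) := mem_touch_left (Finset.mem_coe.2 hu)
  have hyK : y ∉ (K : Set (V d)) := fun h => hy (Finset.mem_coe.1 h)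
  have hA : MeasurableSet {ω : Om d | Cl (del1 (Oc ω) s(u, y)) x = (K : Set (V d))} :=
    (((opn_MES (pc d)).del1 _).cl x).eq_set _
  have hlab : MeasurableSet {ω : Om d | pc d < ((ω (Sum.inl s(u, y)) : unitInterval) : ℝ) ∧
      ((ω (Sum.inl s(u, y)) : unitInterval) : ℝ) ≤ p} := by
    have hc : Measurable (fun ω : Om d => ((ω (Sum.inl s(u, y)) : unitInterval) : ℝ)) :=
      measurable_subtype_coe.comp (measurable_pi_apply _)
    exact (measurableSet_lt measurable_const hc).inter (measurableSet_le hc measurable_const)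
  have hset : {ω : Om d | Cl (Oc ω) x = (K : Set (V d))} ∩
        ({ω | ((ω (Sum.inl s(u, y)) : unitInterval) : ℝ) ≤ p} ∩ F) =
      {ω : Om d | pc d < ((ω (Sum.inl s(u, y)) : unitInterval) : ℝ) ∧
        ((ω (Sum.inl s(u, y)) : unitInterval) : ℝ) ≤ p} ∩
      ({ω : Om d | Cl (del1 (Oc ω) s(u, y)) x = (K : Set (V d))} ∩ F) := by
    ext ω
    simp only [Set.mem_inter_iff, Set.mem_ofPred_eq]
    rw [Cl_eq_iff_del1 (O := Oc ω) (y := x) (Finset.mem_coe.2 hu) hyK]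
    have h2 : s(u, y) ∉ Oc ω ↔ pc d < ((ω (Sum.inl s(u, y)) : unitInterval) : ℝ) := by
      simp only [Oc, opn, Set.mem_ofPred_eq, not_and, not_le]
      exact ⟨fun h => h he, fun h _ => h⟩
    rw [h2]
    tauto
  have hdepA : DependsOn (fun ω : Om d => ω ∈
      {ω : Om d | Cl (del1 (Oc ω) s(u, y)) x = (K : Set (V d))})
      (tI (K : Set (V d)) \ {Sum.inl s(u, y)}) :=
    dep_Cl_del1_eq (pc d) s(u, y) x (K : Set (V d))
  have h3 : Pr d ({ω : Om d | Cl (del1 (Oc ω) s(u, y)) x = (K : Set (V d))} ∩ F) =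
      Pr d {ω : Om d | Cl (del1 (Oc ω) s(u, y)) x = (K : Set (V d))} * Pr d F :=
    Pr_inter_dep disjoint_compl_right hA hF (hdepA.mono fun i hi => hi.1) hdep
  have h4 : Pr d ({ω : Om d | pc d < ((ω (Sum.inl s(u, y)) : unitInterval) : ℝ) ∧
        ((ω (Sum.inl s(u, y)) : unitInterval) : ℝ) ≤ p} ∩
      ({ω : Om d | Cl (del1 (Oc ω) s(u, y)) x = (K : Set (V d))} ∩ F)) =
      Pr d {ω : Om d | pc d < ((ω (Sum.inl s(u, y)) : unitInterval) : ℝ) ∧
        ((ω (Sum.inl s(u, y)) : unitInterval) : ℝ) ≤ p} *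
      Pr d ({ω : Om d | Cl (del1 (Oc ω) s(u, y)) x = (K : Set (V d))} ∩ F) := by
    refine Pr_inter_dep (S := {Sum.inl s(u, y)}) (T := {Sum.inl s(u, y)}ᶜ) disjoint_compl_right
      hlab (hA.inter hF) ?_ (dep_inter (hdepA.mono fun i hi => hi.2) (hdep.mono fun i hi h => ?_))
    · intro ω ω' h
      have := h (Sum.inl s(u, y)) rfl
      simp only [Set.mem_ofPred_eq, this]
    · rw [Set.mem_singleton_iff.1 h] at hi
      exact hi (inl_mem_tI.2 heK)
  have h5 : Pr d {ω : Om d | Cl (Oc ω) x = (K : Set (V d))} =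
      ENNReal.ofReal (1 - pc d) *
        Pr d {ω : Om d | Cl (del1 (Oc ω) s(u, y)) x = (K : Set (V d))} := by
    have h6 := Pr_Cl_del1 (pc d) x hadj (Finset.mem_coe.2 hu) hyK
    rw [min_eq_left h1.le, ← ENNReal.ofReal_one, ← ENNReal.ofReal_sub _ h0.le] at h6
    exact h6
  have h7 : ENNReal.ofReal (p - pc d) =
      ENNReal.ofReal ((p - pc d) / (1 - pc d)) * ENNReal.ofReal (1 - pc d) := by
    rw [← ENNReal.ofReal_mul (div_nonneg (by linarith) (by linarith))]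
    congr 1
    have : 1 - pc d ≠ 0 := by linarith
    field_simp
  rw [hset, h4, h3, h5, bdEdge_label_Ioc h0 hp hp1, h7]
  ring

end Pool.Agent.PB
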