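import Pool.Agent.PB.L.GDefs
import Pool.Agent.PB.BK
import Pool.Agent.PB.P.Act

/-!
# PROJECT PB, module PBL-G3b: BK bound for `Tri`

PLAN. Up-events: `A1 = {RchL (opn p ω) r 0 w}`, `A2 = {RchL (opn p ω) r w y}`, `A3 = {∃ v, RchL (opn p ω) r w v ∧ Rch (Oc ω) v x}` (`Oc ω = opn (pc d) ω ⊆ opn p ω`); measurable (`MES.rchL`, `MES.rch`, countable union), `IsUp`
(decreasing labels enlarges `opn`).
* `tri_meas`: `Tri` is measurable for measurable random edge sets: it is enough to prove `MeasurableSet` for `(opn p ω, Oc ω)` after deletion: reduce the sets `S1, S2, S3` to finite ones (`RchL` and `Rch` use finitely many edges: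
  `Rch.exists_finite`; for `RchL` the same induction) and write it as a countable union over finsets `T1, T2, T3` and `w, v` of `{T1 ∪ T2 ∪ T3 ⊆ S ω, ...}`; `Rch (T3 ∩ Q) v x` with `T3` finite: countable union over finsets
  `T4 ⊆ T3` of `{T4 ⊆ S' ω}`.
* `tri_le`: `{Tri (opn p ω) (Oc ω) r 0 y x} ⊆ ⋃_w dOcc ![A1 w, A2 w, A3 w]`: for finite `T_i` as above the index sets `Sum.inl '' T_i` are disjoint finite sets of labels and `restr (Sum.inl '' T_i) ω` has open edges `= T_i ∩ ..`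
  (labels outside are 1 > p if p < 1; if `p = 1` every lattice edge is open in both: then use that `restr` only has to stay in the event, `T_i ⊆ opn p (restr .. ω)` always holds). `bk_Pr`, `measure_iUnion_le`, `Fin.prod_univ_three`.
  `Pr(A1) = kap p r w`, `Pr(A2) = kap p r (y-w)`, `Pr(A3) ≤ mixk p r (x-w)` by translation (P/Act: `Pr_act (trI w)`, `RchL` under `act`: induction from `mem_opn_act`) and `mixk_bd`.
* `mixk_bd`: `Pr{∃ v, RchL (opn p ω) r 0 v ∧ Rch (Oc ω) v x} ≤ mixk p r x`: by `last_exit`/`split_path` of PBL-G3a (prove what you need privately or import L.G3a): with `P` the vertex set of a geodesic from `0` to `v` there is `w' ∈ P`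
  with `RchL S1 r 0 w'`, `S1 ⊆ opn ∩ ins P`, and `Rch (Oc \ ins P) w' x`: so `⋃_{w'} dOcc ![{RchL (opn p ω) r 0 w'}, {Rch (Oc ω) w' x}]`, `bk_Pr`: `Σ_{w'} kap p r w' * tau (pc d) (x - w')`.
-/

set_option autoImplicit false
open MeasureTheory Filter Topology
open scoped ENNReal BigOperators

namespace Pool.Agent.PB.L12

variable {d : ℕ}

section det

variable {W W' : Type*}

private theorem g3b_fin {O : Set (Sym2 W)} {n : ℕ} {x y : W} (h : RchL O n x y) :
    ∃ T : Finset (Sym2 W), (T : Set (Sym2 W)) ⊆ O ∧ RchL (T : Set (Sym2 W)) n x y := by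
  classical
  induction n generalizing y with
  | zero => exact ⟨∅, by simp, h⟩
  | succ n ih =>
    rcases h with h | ⟨z, hz, hzy⟩
    · obtain ⟨T, h1, h2⟩ := ih h
      exact ⟨T, h1, Or.inl h2⟩
    · obtain ⟨T, h1, h2⟩ := ih hz
      refine ⟨insert s(z, y) T, ?_, Or.inr ⟨z, h2.mono ?_, ?_⟩⟩
      · rw [Finset.coe_insert]
        exact Set.insert_subset hzy h1
      · rw [Finset.coe_insert]
        exact Set.subset_insert _ _
      · exact_mod_cast Finset.mem_insert_self _ _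

private theorem g3b_fin' {O : Set (Sym2 W)} {x y : W} (h : Rch O x y) :
    ∃ T : Finset (Sym2 W), (T : Set (Sym2 W)) ⊆ O ∧ Rch (T : Set (Sym2 W)) x y := by
  obtain ⟨S, h1, h2, h3⟩ := h.exists_finite
  exact ⟨h2.toFinset, by rwa [h2.coe_toFinset], by rwa [h2.coe_toFinset]⟩

private theorem g3b_tri {O Q : Set (Sym2 W)} {r : ℕ} {o y x : W} :
    Tri O Q r o y x ↔ ∃ w v, ∃ T1 T2 T3 T4 : Finset (Sym2 W), (Disjoint T1 T2 ∧ Disjoint T1 T3 ∧
      Disjoint T2 T3 ∧ T4 ⊆ T3 ∧ RchL (T1 : Set (Sym2 W)) r o w ∧ RchL (T2 : Set (Sym2 W)) r w y ∧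
      RchL (T3 : Set (Sym2 W)) r w v ∧ Rch (T4 : Set (Sym2 W)) v x) ∧
      (((T1 : Set (Sym2 W)) ⊆ O ∧ (T2 : Set (Sym2 W)) ⊆ O) ∧ (T3 : Set (Sym2 W)) ⊆ O ∧
        (T4 : Set (Sym2 W)) ⊆ Q) := by
  classical
  constructor
  · rintro ⟨w, S1, S2, S3, h1, h2, h3, d1, d2, d3, r1, r2, v, r3, r4⟩
    obtain ⟨T1, a1, b1⟩ := g3b_fin r1
    obtain ⟨T2, a2, b2⟩ := g3b_fin r2
    obtain ⟨T3, a3, b3⟩ := g3b_fin r3
    obtain ⟨T4, a4, b4⟩ := g3b_fin' r4
    have a34 : ((T3 ∪ T4 : Finset (Sym2 W)) : Set (Sym2 W)) ⊆ S3 := by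
      rw [Finset.coe_union]
      exact Set.union_subset a3 (a4.trans Set.inter_subset_left)
    refine ⟨w, v, T1, T2, T3 ∪ T4, T4, ⟨?_, ?_, ?_, Finset.subset_union_right, b1, b2, ?_, b4⟩,
      ⟨a1.trans h1, a2.trans h2⟩, a34.trans h3, a4.trans Set.inter_subset_right⟩
    · rw [← Finset.disjoint_coe]
      exact d1.mono a1 a2
    · rw [← Finset.disjoint_coe]
      exact d2.mono a1 a34
    · rw [← Finset.disjoint_coe]
      exact d3.mono a2 a34
    · exact b3.mono (by exact_mod_cast Finset.subset_union_left)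
  · rintro ⟨w, v, T1, T2, T3, T4, ⟨d1, d2, d3, h43, r1, r2, r3, r4⟩, ⟨s1, s2⟩, s3, s4⟩
    refine ⟨w, T1, T2, T3, s1, s2, s3, ?_, ?_, ?_, r1, r2, v, r3, r4.mono ?_⟩
    · exact Finset.disjoint_coe.2 d1
    · exact Finset.disjoint_coe.2 d2
    · exact Finset.disjoint_coe.2 d3
    · exact Set.subset_inter (by exact_mod_cast h43) s4

private theorem g3b_path {O : Set (Sym2 W)} {n : ℕ} {a y : W} (h : RchL O n a y) :
    ∃ P : Set W, y ∈ P ∧ ∀ w ∈ P, RchL (O ∩ ins P) n a w := by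
  induction n generalizing y with
  | zero =>
    cases h
    refine ⟨{a}, rfl, ?_⟩
    rintro w rfl
    exact RchL.refl _ _ _
  | succ n ih =>
    rcases h with h | ⟨z, hz, hzy⟩
    · obtain ⟨P, h1, h2⟩ := ih h
      exact ⟨P, h1, fun w hw => Or.inl (h2 w hw)⟩
    · obtain ⟨P, h1, h2⟩ := ih hz
      have hsub : O ∩ ins P ⊆ O ∩ ins (insert y P) := by
        rintro e ⟨he, hP⟩
        exact ⟨he, fun x hx => Or.inr (hP x hx)⟩
      refine ⟨insert y P, Set.mem_insert _ _, ?_⟩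
      rintro w (rfl | hw)
      · refine Or.inr ⟨z, (h2 z h1).mono hsub, hzy, ?_⟩
        intro x hx
        rcases Sym2.mem_iff.1 hx with rfl | rfl
        · exact Or.inr h1
        · exact Or.inl rfl
      · exact Or.inl ((h2 w hw).mono hsub)

private theorem g3b_exit {Q : Set (Sym2 W)} {P : Set W} {v x : W} (hv : v ∈ P) (h : Rch Q v x) :
    ∃ w ∈ P, Rch (Q \ ins P) w x := by
  refine Rch.induct (P := fun z => ∃ w ∈ P, Rch (Q \ ins P) w z) ⟨v, hv, Rch.refl _ _⟩ ?_ h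
  rintro b c _ hbc ⟨w, hw, hr⟩
  by_cases hc : c ∈ P
  · exact ⟨c, hc, Rch.refl _ _⟩
  · exact ⟨w, hw, hr.tail ⟨hbc, fun h => hc (h c (Sym2.mem_mk_right b c))⟩⟩

private theorem g3b_equiv {O : Set (Sym2 W)} {O' : Set (Sym2 W')} (f : W ≃ W')
    (h : ∀ a b, s(a, b) ∈ O ↔ s(f a, f b) ∈ O') (n : ℕ) (x y : W) :
    RchL O n x y ↔ RchL O' n (f x) (f y) := by
  induction n generalizing y with
  | zero => exact f.injective.eq_iff.symm
  | succ n ih =>
    change (RchL O n x y ∨ ∃ z, RchL O n x z ∧ s(z, y) ∈ O) ↔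
      (RchL O' n (f x) (f y) ∨ ∃ z, RchL O' n (f x) z ∧ s(z, f y) ∈ O')
    rw [ih y]
    refine or_congr Iff.rfl ⟨?_, ?_⟩
    · rintro ⟨z, h1, h2⟩
      exact ⟨f z, (ih z).1 h1, (h z y).1 h2⟩
    · rintro ⟨z, h1, h2⟩
      refine ⟨f.symm z, (ih _).2 (by rwa [f.apply_symm_apply]), (h _ _).2 ?_⟩
      rwa [f.apply_symm_apply]

end det

private theorem g3b_up {p : ℝ} {ω ω' : Om d} (h : ∀ i, ω' i ≤ ω i) : opn p ω ⊆ opn p ω' := by
  rintro e ⟨h1, h2⟩
  refine ⟨h1, le_trans ?_ h2⟩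
  exact_mod_cast h (Sum.inl e)

private theorem g3b_restr {p : ℝ} {ω : Om d} {T : Finset (Sym2 (V d))} {I : Finset (Ix d)}
    (hI : ∀ e ∈ T, Sum.inl e ∈ I) (hT : (T : Set (Sym2 (V d))) ⊆ opn p ω) :
    (T : Set (Sym2 (V d))) ⊆ opn p (restr (I : Set (Ix d)) ω) := by
  intro e he
  have h1 := hT he
  refine ⟨h1.1, ?_⟩
  rw [restr_of_mem ω (by exact_mod_cast hI e (by exact_mod_cast he))]
  exact h1.2

/-- the index set of a finite set of edges -/
private def g3bI (T : Finset (Sym2 (V d))) : Finset (Ix d) :=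
  T.map ⟨Sum.inl, Sum.inl_injective⟩

private theorem g3bI_mem {T : Finset (Sym2 (V d))} {e : Sym2 (V d)} (h : e ∈ T) :
    (Sum.inl e : Ix d) ∈ g3bI T := by
  unfold g3bI
  exact Finset.mem_map.2 ⟨e, h, rfl⟩

private theorem g3bI_disj {T T' : Finset (Sym2 (V d))} (h : Disjoint T T') :
    Disjoint (g3bI T) (g3bI T') := by
  unfold g3bI
  exact (Finset.disjoint_map _).2 h

private theorem g3b_sub {Ω : Type*} [MeasurableSpace Ω] {S : Ω → Set (Sym2 (V d))} (hS : MES S)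
    (T : Finset (Sym2 (V d))) : MeasurableSet {ω | (T : Set (Sym2 (V d))) ⊆ S ω} := by
  have : {ω | (T : Set (Sym2 (V d))) ⊆ S ω} = ⋂ e : Sym2 (V d), ⋂ _ : e ∈ T, {ω | e ∈ S ω} := by
    ext ω
    simp only [Set.mem_ofPred_eq, Set.mem_iInter]
    rfl
  rw [this]
  exact MeasurableSet.iInter fun e => MeasurableSet.iInter fun _ => hS e

theorem tri_meas {Ω : Type*} [MeasurableSpace Ω] {S S' : Ω → Set (Sym2 (V d))} (hS : MES S)
    (hS' : MES S') (r : ℕ) (o y x : V d) : MeasurableSet {ω | Tri (S ω) (S' ω) r o y x} := by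
  have : {ω | Tri (S ω) (S' ω) r o y x} = ⋃ w : V d, ⋃ v : V d, ⋃ T1 : Finset (Sym2 (V d)),
      ⋃ T2 : Finset (Sym2 (V d)), ⋃ T3 : Finset (Sym2 (V d)), ⋃ T4 : Finset (Sym2 (V d)),
      ({_ω : Ω | Disjoint T1 T2 ∧ Disjoint T1 T3 ∧
      Disjoint T2 T3 ∧ T4 ⊆ T3 ∧ RchL (T1 : Set (Sym2 (V d))) r o w ∧
      RchL (T2 : Set (Sym2 (V d))) r w y ∧
      RchL (T3 : Set (Sym2 (V d))) r w v ∧ Rch (T4 : Set (Sym2 (V d))) v x} ∩
      (({ω | (T1 : Set (Sym2 (V d))) ⊆ S ω} ∩ {ω | (T2 : Set (Sym2 (V d))) ⊆ S ω}) ∩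
        ({ω | (T3 : Set (Sym2 (V d))) ⊆ S ω} ∩ {ω | (T4 : Set (Sym2 (V d))) ⊆ S' ω}))) := by
    ext ω
    simp only [Set.mem_iUnion]
    exact g3b_tri
  rw [this]
  exact MeasurableSet.iUnion fun w => MeasurableSet.iUnion fun v => MeasurableSet.iUnion fun T1 =>
    MeasurableSet.iUnion fun T2 => MeasurableSet.iUnion fun T3 => MeasurableSet.iUnion fun T4 =>
    (MeasurableSet.const _).inter (((g3b_sub hS T1).inter (g3b_sub hS T2)).inter
      ((g3b_sub hS T3).inter (g3b_sub hS' T4)))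

private theorem g3b_kap (p : ℝ) (r : ℕ) (w y : V d) :
    Pr d {ω : Om d | RchL (opn p ω) r w y} = kap p r (y - w) := by
  unfold kap
  rw [← Pr_act (trI w) {ω | RchL (opn p ω) r 0 (y - w)}]
  congr 1
  ext ω
  simp only [Set.mem_ofPred_eq]
  rw [g3b_equiv (O' := opn p ω) (trI w) (fun a b => mem_opn_act (trI_aut w) p ω a b)]
  simp [trI_apply]

private theorem g3b_mix (p : ℝ) (r : ℕ) (w x : V d) :
    Pr d {ω : Om d | ∃ v, RchL (opn p ω) r w v ∧ Rch (Oc ω) v x} =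
      Pr d {ω : Om d | ∃ v, RchL (opn p ω) r 0 v ∧ Rch (Oc ω) v (x - w)} := by
  rw [← Pr_act (trI w) {ω | ∃ v, RchL (opn p ω) r 0 v ∧ Rch (Oc ω) v (x - w)}]
  congr 1
  ext ω
  simp only [Set.mem_ofPred_eq]
  have h1 : ∀ v : V d, (RchL (opn p (act (trI w) ω)) r 0 v ∧ Rch (Oc (act (trI w) ω)) v (x - w)) ↔
      (RchL (opn p ω) r w (v + w) ∧ Rch (Oc ω) (v + w) x) := by
    intro v
    unfold Oc
    rw [g3b_equiv (O' := opn p ω) (trI w) (fun a b => mem_opn_act (trI_aut w) p ω a b),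
      Rch_act (trI_aut w)]
    simp [trI_apply]
  simp only [h1]
  constructor
  · rintro ⟨v, h⟩
    exact ⟨v - w, by rwa [sub_add_cancel]⟩
  · rintro ⟨v, h⟩
    exact ⟨v + w, h⟩

theorem mixk_bd {p : ℝ} (hp : pc d ≤ p) (r : ℕ) (x : V d) :
    Pr d {ω : Om d | ∃ v, RchL (opn p ω) r 0 v ∧ Rch (Oc ω) v x} ≤ mixk p r x := by
  have hsub : {ω : Om d | ∃ v, RchL (opn p ω) r 0 v ∧ Rch (Oc ω) v x} ⊆
      ⋃ w : V d, box {ω : Om d | RchL (opn p ω) r 0 w} {ω : Om d | Rch (Oc ω) w x} := by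
    rintro ω ⟨v, h1, h2⟩
    obtain ⟨P, hv, hP⟩ := g3b_path h1
    obtain ⟨w, hw, h3⟩ := g3b_exit hv h2
    obtain ⟨T1, a1, b1⟩ := g3b_fin (hP w hw)
    obtain ⟨T2, a2, b2⟩ := g3b_fin' h3
    have hd : Disjoint T1 T2 := by
      rw [← Finset.disjoint_coe]
      refine Set.disjoint_left.2 fun e he he' => ?_
      exact (a2 he').2 (a1 he).2
    refine Set.mem_iUnion.2 ⟨w, g3bI T1, g3bI T2, g3bI_disj hd, ?_, ?_⟩
    · exact b1.mono (g3b_restr (fun e he => g3bI_mem he) (a1.trans Set.inter_subset_left))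
    · exact b2.mono (g3b_restr (fun e he => g3bI_mem he) (a2.trans Set.sdiff_subset))
  refine (measure_mono hsub).trans ((measure_iUnion_le _).trans ?_)
  unfold mixk conv
  refine ENNReal.tsum_le_tsum fun w => ?_
  refine (bk2_Pr ((opn_MES p).rchL r 0 w) ((opn_MES (pc d)).rch w x) ?_ ?_).trans ?_
  · intro ω ω' h hω
    exact RchL.mono (g3b_up h) hω
  · intro ω ω' h hω
    exact Rch.mono (g3b_up h) hω
  · exact mul_le_mul' le_rfl (le_of_eq (tau_shift (pc d) w x))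

theorem tri_le {p : ℝ} (hp : pc d ≤ p) (r : ℕ) (y x : V d) :
    Pr d {ω : Om d | Tri (opn p ω) (Oc ω) r 0 y x} ≤
      ∑' w : V d, kap p r w * kap p r (y - w) * mixk p r (x - w) := by
  have hsub : {ω : Om d | Tri (opn p ω) (Oc ω) r 0 y x} ⊆
      ⋃ w : V d, dOcc ![{ω : Om d | RchL (opn p ω) r 0 w}, {ω : Om d | RchL (opn p ω) r w y},
        {ω : Om d | ∃ v, RchL (opn p ω) r w v ∧ Rch (Oc ω) v x}] := by
    intro ω hω
    obtain ⟨w, v, T1, T2, T3, T4, ⟨d1, d2, d3, h43, r1, r2, r3, r4⟩, ⟨s1, s2⟩, s3, s4⟩ :=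
      g3b_tri.1 hω
    refine Set.mem_iUnion.2 ⟨w, ![g3bI T1, g3bI T2, g3bI T3], ?_, ?_⟩
    · intro i j hij
      have e1 := g3bI_disj d1
      have e2 := g3bI_disj d2
      have e3 := g3bI_disj d3
      fin_cases i <;> fin_cases j
      · exact absurd rfl hij
      · exact e1
      · exact e2
      · exact e1.symm
      · exact absurd rfl hij
      · exact e3
      · exact e2.symm
      · exact e3.symm
      · exact absurd rfl hij
    · intro j
      fin_cases j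
      · exact r1.mono (g3b_restr (fun e he => g3bI_mem he) s1)
      · exact r2.mono (g3b_restr (fun e he => g3bI_mem he) s2)
      · refine ⟨v, r3.mono (g3b_restr (fun e he => g3bI_mem he) s3), ?_⟩
        exact r4.mono (g3b_restr (fun e he => g3bI_mem (h43 he)) s4)
  refine (measure_mono hsub).trans ((measure_iUnion_le _).trans ?_)
  refine ENNReal.tsum_le_tsum fun w => ?_
  have m3 : MeasurableSet {ω : Om d | ∃ v, RchL (opn p ω) r w v ∧ Rch (Oc ω) v x} := by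
    have : {ω : Om d | ∃ v, RchL (opn p ω) r w v ∧ Rch (Oc ω) v x} =
        ⋃ v : V d, ({ω : Om d | RchL (opn p ω) r w v} ∩ {ω : Om d | Rch (opn (pc d) ω) v x}) := by
      ext ω
      simp only [Set.mem_iUnion]
      rfl
    rw [this]
    exact MeasurableSet.iUnion fun v => ((opn_MES p).rchL r w v).inter ((opn_MES (pc d)).rch v x)
  refine (bk_Pr ?_ ?_).trans ?_
  · intro j
    fin_cases j
    · exact (opn_MES p).rchL r 0 w
    · exact (opn_MES p).rchL r w y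
    · exact m3
  · intro j
    fin_cases j
    · intro ω ω' h hω
      exact RchL.mono (g3b_up h) hω
    · intro ω ω' h hω
      exact RchL.mono (g3b_up h) hω
    · rintro ω ω' h ⟨v, h1, h2⟩
      exact ⟨v, h1.mono (g3b_up h), Rch.mono (g3b_up h) h2⟩
  · rw [Fin.prod_univ_three]
    refine mul_le_mul' (mul_le_mul' ?_ ?_) ?_
    · exact le_rfl
    · exact le_of_eq (g3b_kap p r w y)
    · exact (le_of_eq (g3b_mix p r w x)).trans (mixk_bd hp r (x - w))

end Pool.Agent.PB.L12
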