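import Pool.Agent.PB.L.GDefs
import Pool.Agent.PB.L.BdEdge
import Pool.Agent.PB.L.G3b
import Pool.Agent.PB.L.Tree

/-!
# PROJECT PB, module PBL-G3c: the expectation of `Σ_{x ∈ Ecl \ V'} h(x)` (12.6 (G3))

`SG p n r ω` = sum over `z`, finite `K` with `n ≤ |K|`, neighbours `y ∉ K` of `z`, `x ∉ K` of `(Σ_{u ∈ K} τ(u-x)) 1{XG}`, where `XG` = `C(Oc,z) = K`, the label of `s(z,y)` is `≤ p` and
`Tri (O_p^K) (Oc^K) r 0 y x`.

PLAN. `ε' = (p-p_c)/(1-p_c)`.
* `g3_prob`: if `z ∉ K` the event is empty (`self_mem_Cl`). Otherwise `bdEdge` with `u = z`, `F = {ω | Tri ((ofSet K).rem (opn p ω)) ((ofSet K).rem (Oc ω)) r 0 y x}`: measurable (`tri_meas`, `opn_MES`, `MES.rem`), depends on `(tI K)ᶜ`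
  (`rem_ofSet : (ofSet K).rem O = O \ touch K`, `dep_opn` with `T = (touch K)ᶜ` at the two levels, `dep_pair`, `dep_comp`; cf. `dep_Rch_off`), and `F ⊆ {Tri (opn p ω) (Oc ω) r 0 y x}` (monotone: `Del.rem_subset`), `tri_le`.
* `g3_int`: `lintegral_tsum` (measurability of `XG`: `MVS.eq_set`, label, `tri_meas`), `g3_prob`, `Σ_{u ∈ K} ... = Σ'_u 1{u ∈ K} ..`. For fixed `z, u`: `Σ_{K ∋ u, n ≤ |K|} Pr{C(z) = K} = Pr{u ∈ C(z), finite, n ≤ ncard} ≤ 2 (τ*τ)(u-z) Mg(1/n)` (`tree_big`;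
  countable disjoint union over finsets `K`). `kap ≤ Ck τ` for `kap p r (y-w)` and inside `mixk` (`conv_mono`, `conv_const_mul_left`): `mixk ≤ Ck (τ*τ)`. The sum over neighbours `y = z + e`, `e ∈ U1 d` (`|U1 d| = 2d`, `card_U1`),
  then for fixed `w, e` the sum over `z, x, u` is `≤ Bm d (pc d) 8` (`six_sum`), and the sum over `w` of `kap p r w` remains. (`ENNReal.tsum_comm`, `ENNReal.tsum_mul_left`.)
-/

set_option autoImplicit false
open MeasureTheory Filter Topology
open scoped ENNReal BigOperators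

namespace Pool.Agent.PB.L12

variable {d : ℕ}

/-- the event of 12.6 (G3) -/
def XG (p : ℝ) (r : ℕ) (z : V d) (K : Finset (V d)) (y x : V d) : Set (Om d) :=
  {ω | Cl (Oc ω) z = (K : Set (V d))} ∩ ({ω | ((ω (Sum.inl s(z, y)) : unitInterval) : ℝ) ≤ p} ∩
    {ω | Tri ((Del.ofSet (K : Set (V d))).rem (opn p ω)) ((Del.ofSet (K : Set (V d))).rem (Oc ω))
      r 0 y x})

/-- the majorant -/
noncomputable def SG (p n : ℝ) (r : ℕ) (ω : Om d) : ℝ≥0∞ := by
  classical exact ∑' z : V d, ∑' K : Finset (V d), ∑' y : V d, ∑' x : V d,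
    (if l1 (y - z) = 1 ∧ n ≤ (K.card : ℝ) ∧ y ∉ K ∧ x ∉ K then
      ((∑ u ∈ K, tau (pc d) (u - x)) * (XG p r z K y x).indicator (fun _ => (1 : ℝ≥0∞)) ω) else 0)

private theorem XG_meas (p : ℝ) (r : ℕ) (z : V d) (K : Finset (V d)) (y x : V d) :
    MeasurableSet (XG p r z K y x) := by
  refine MeasurableSet.inter (((opn_MES (pc d)).cl z).eq_set _) (MeasurableSet.inter ?_ ?_)
  · exact measurableSet_le (measurable_subtype_coe.comp (measurable_pi_apply _)) measurable_const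
  · exact tri_meas ((opn_MES p).rem _) ((opn_MES (pc d)).rem _) r 0 y x

private theorem Tri_mono {W : Type*} {O O' Q Q' : Set (Sym2 W)} (hO : O ⊆ O') (hQ : Q ⊆ Q') {r : ℕ}
    {o y x : W} (h : Tri O Q r o y x) : Tri O' Q' r o y x := by
  obtain ⟨w, S1, S2, S3, h1, h2, h3, h4, h5, h6, h7, h8, v, h9, h10⟩ := h
  exact ⟨w, S1, S2, S3, h1.trans hO, h2.trans hO, h3.trans hO, h4, h5, h6, h7, h8, v, h9,
    h10.mono (Set.inter_subset_inter_right _ hQ)⟩

theorem g3_prob (h0 : 0 < pc d) (h1 : pc d < 1) {p : ℝ} (hp : pc d ≤ p) (hp1 : p ≤ 1) (r : ℕ)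
    (z : V d) (K : Finset (V d)) (y x : V d) (hy : y ∉ K) (hl : l1 (y - z) = 1) :
    Pr d (XG p r z K y x) ≤ ENNReal.ofReal ((p - pc d) / (1 - pc d)) *
      (Pr d {ω : Om d | Cl (Oc ω) z = (K : Set (V d))} *
        ∑' w : V d, kap p r w * kap p r (y - w) * mixk p r (x - w)) := by
  by_cases hz : z ∈ K
  · set F : Set (Om d) := {ω | Tri ((Del.ofSet (K : Set (V d))).rem (opn p ω))
      ((Del.ofSet (K : Set (V d))).rem (Oc ω)) r 0 y x} with hF
    have hFm : MeasurableSet F :=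
      tri_meas ((opn_MES p).rem _) ((opn_MES (pc d)).rem _) r 0 y x
    have hdep : DependsOn (fun ω => ω ∈ F) (tI (K : Set (V d)))ᶜ := by
      have e1 := dep_rem_ofSet (d := d) p 0 0 (K : Set (V d)) (fun O _ _ => O)
      have e2 := dep_rem_ofSet (d := d) (pc d) 0 0 (K : Set (V d)) (fun O _ _ => O)
      exact dep_comp (dep_pair e1 e2) (fun q => Tri q.1 q.2 r 0 y x)
    have h2 := bdEdge h0 h1 hp hp1 K z z y hz hy hl F hFm hdep
    have h3 : Pr d F ≤ ∑' w : V d, kap p r w * kap p r (y - w) * mixk p r (x - w) := by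
      refine (measure_mono fun ω hω => ?_).trans (tri_le hp r y x)
      exact Tri_mono (Del.rem_subset _ _) (Del.rem_subset _ _) hω
    exact (le_of_eq h2).trans (mul_le_mul' le_rfl (mul_le_mul' le_rfl h3))
  · have : XG p r z K y x = ∅ := by
      apply Set.eq_empty_of_forall_notMem
      rintro ω ⟨h2, -⟩
      apply hz
      have h3 : Cl (Oc ω) z = (K : Set (V d)) := h2
      have h4 := self_mem_Cl (Oc ω) z
      rw [h3] at h4
      exact h4
    rw [this, measure_empty]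
    exact zero_le

private theorem SG_int {p : ℝ} (r : ℕ) {n : ℝ} :
    ∫⁻ ω, SG p n r ω ∂Pr d = ∑' z : V d, ∑' K : Finset (V d), ∑' y : V d, ∑' x : V d,
      (open Classical in if l1 (y - z) = 1 ∧ n ≤ (K.card : ℝ) ∧ y ∉ K ∧ x ∉ K then
        ((∑ u ∈ K, tau (pc d) (u - x)) * Pr d (XG p r z K y x)) else 0) := by
  classical
  have hm : ∀ (z : V d) (K : Finset (V d)) (y x : V d), Measurable (fun ω : Om d =>
      (if l1 (y - z) = 1 ∧ n ≤ (K.card : ℝ) ∧ y ∉ K ∧ x ∉ K then
      ((∑ u ∈ K, tau (pc d) (u - x)) * (XG p r z K y x).indicator (fun _ => (1 : ℝ≥0∞)) ω)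
        else 0)) := by
    intro z K y x
    by_cases h : l1 (y - z) = 1 ∧ n ≤ (K.card : ℝ) ∧ y ∉ K ∧ x ∉ K
    · simp only [if_pos h]
      exact (measurable_const.indicator (XG_meas p r z K y x)).const_mul _
    · simp only [if_neg h]
      exact measurable_const
  unfold SG
  rw [lintegral_tsum fun z => (Measurable.ennreal_tsum fun K => Measurable.ennreal_tsum fun y =>
    Measurable.ennreal_tsum fun x => hm z K y x).aemeasurable]
  refine tsum_congr fun z => ?_
  rw [lintegral_tsum fun K => (Measurable.ennreal_tsum fun y =>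
    Measurable.ennreal_tsum fun x => hm z K y x).aemeasurable]
  refine tsum_congr fun K => ?_
  rw [lintegral_tsum fun y => (Measurable.ennreal_tsum fun x => hm z K y x).aemeasurable]
  refine tsum_congr fun y => ?_
  rw [lintegral_tsum fun x => (hm z K y x).aemeasurable]
  refine tsum_congr fun x => ?_
  by_cases h : l1 (y - z) = 1 ∧ n ≤ (K.card : ℝ) ∧ y ∉ K ∧ x ∉ K
  · simp only [if_pos h]
    rw [lintegral_const_mul _ (measurable_const.indicator (XG_meas p r z K y x)),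
      lintegral_indicator (XG_meas p r z K y x), lintegral_one, Measure.restrict_apply_univ]
  · simp only [if_neg h]
    exact lintegral_zero

open Classical in
/-- `Pr{C(z) = K}` if `n ≤ |K|`, `u ∈ K` -/
private noncomputable def PK (n : ℝ) (z : V d) (K : Finset (V d)) (u : V d) : ℝ≥0∞ :=
  if n ≤ (K.card : ℝ) ∧ u ∈ K then Pr d {ω : Om d | Cl (Oc ω) z = (K : Set (V d))} else 0

private theorem sumK {n : ℝ} (hn : 0 < n) (z u : V d) :
    ∑' K : Finset (V d), PK n z K u ≤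
      2 * (conv (tau (pc d)) (tau (pc d)) (u - z) * Mg d (pc d) (1 / n)) := by
  classical
  set E : Finset (V d) → Set (Om d) := fun K =>
    {ω | Cl (Oc ω) z = (K : Set (V d)) ∧ (n ≤ (K.card : ℝ) ∧ u ∈ K)} with hE
  have h1 : ∀ K, PK n z K u = Pr d (E K) := by
    intro K
    unfold PK
    by_cases h : n ≤ (K.card : ℝ) ∧ u ∈ K
    · rw [if_pos h]
      congr 1
      ext ω
      exact ⟨fun hω => ⟨hω, h⟩, fun hω => hω.1⟩
    · rw [if_neg h]
      have : E K = ∅ := Set.eq_empty_of_forall_notMem fun ω hω => h hω.2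
      rw [this, measure_empty]
  have hEm : ∀ K, MeasurableSet (E K) := by
    intro K
    exact (((opn_MES (pc d)).cl z).eq_set _).inter (MeasurableSet.const _)
  have hEd : Pairwise (Function.onFun Disjoint E) := by
    intro K K' hK
    rw [Function.onFun, Set.disjoint_left]
    rintro ω ⟨h2, -⟩ ⟨h3, -⟩
    apply hK
    rw [h2] at h3
    exact_mod_cast h3
  rw [tsum_congr h1, ← measure_iUnion hEd hEm]
  refine (measure_mono ?_).trans (tree_big hn z u)
  intro ω hω
  obtain ⟨K, h2, h3, h4⟩ := Set.mem_iUnion.1 hω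
  show u ∈ Cl (Oc ω) z ∧ (Cl (Oc ω) z).Finite ∧ n ≤ ((Cl (Oc ω) z).ncard : ℝ)
  rw [h2, Set.ncard_coe_finset]
  exact ⟨h4, K.finite_toSet, h3⟩

open Classical in
private noncomputable def chi1 (d : ℕ) (e : V d) : ℝ≥0∞ := if e ∈ U1 d then 1 else 0

private theorem tsum_chi1 : ∑' e : V d, chi1 d e = 2 * d := by
  classical
  rw [tsum_eq_sum (s := U1 d)]
  · unfold chi1
    rw [Finset.sum_congr rfl (fun e he => if_pos he), Finset.sum_const, card_U1]
    simp
  · intro e he
    exact if_neg he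

private theorem mul_tsum2 (A B : ℝ≥0∞) (f g : V d → ℝ≥0∞) :
    A * (B * (∑' w, f w) * (∑' u, g u)) = ∑' w, ∑' u, A * (B * f w * g u) := by
  simp only [ENNReal.tsum_mul_left, ENNReal.tsum_mul_right]

theorem g3_int (h0 : 0 < pc d) (h1 : pc d < 1) {p : ℝ} (hp : pc d ≤ p) (hp1 : p ≤ 1) (r : ℕ)
    {n : ℝ} (hn : 0 < n) {Ck : ℝ} (hk : ∀ x : V d, kap p r x ≤ ENNReal.ofReal Ck * tau (pc d) x) :
    ∫⁻ ω, SG p n r ω ∂Pr d ≤ ENNReal.ofReal ((p - pc d) / (1 - pc d)) * (2 * Mg d (pc d) (1 / n)) *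
      ENNReal.ofReal Ck ^ 2 * (∑' w : V d, kap p r w) * (2 * d) * Bm d (pc d) 8 := by
  classical
  rw [SG_int]
  set c : ℝ≥0∞ := ENNReal.ofReal ((p - pc d) / (1 - pc d)) with hc
  set M : ℝ≥0∞ := Mg d (pc d) (1 / n) with hM
  set a : ℝ≥0∞ := ENNReal.ofReal Ck with ha
  set τ : V d → ℝ≥0∞ := tau (pc d) with hτ
  set T : V d → ℝ≥0∞ := conv τ τ with hT
  have hmix : ∀ x, mixk p r x ≤ a * T x := by
    intro x
    unfold mixk
    refine (conv_mono hk (fun _ => le_rfl) x).trans (le_of_eq ?_)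
    rw [conv_const_mul_left]
  -- the sum over `K`
  have hK : ∀ z y x : V d, ∑' K : Finset (V d),
      (if l1 (y - z) = 1 ∧ n ≤ (K.card : ℝ) ∧ y ∉ K ∧ x ∉ K then
        ((∑ u ∈ K, τ (u - x)) * Pr d (XG p r z K y x)) else 0) ≤
      chi1 d (y - z) * (c * (∑' w : V d, kap p r w * (a * τ (y - w)) * (a * T (x - w))) *
        (∑' u : V d, τ (u - x) * (2 * (T (u - z) * M)))) := by
    intro z y x
    by_cases hl : l1 (y - z) = 1
    · have hchi : chi1 d (y - z) = 1 := if_pos ((mem_U1 _).2 hl)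
      rw [hchi, one_mul]
      set D : ℝ≥0∞ := ∑' w : V d, kap p r w * kap p r (y - w) * mixk p r (x - w) with hD
      have hDle : D ≤ ∑' w : V d, kap p r w * (a * τ (y - w)) * (a * T (x - w)) :=
        ENNReal.tsum_le_tsum fun w => mul_le_mul' (mul_le_mul' le_rfl (hk _)) (hmix _)
      have h3 : ∀ K : Finset (V d), (if l1 (y - z) = 1 ∧ n ≤ (K.card : ℝ) ∧ y ∉ K ∧ x ∉ K then
          ((∑ u ∈ K, τ (u - x)) * Pr d (XG p r z K y x)) else 0) ≤
          c * D * ∑' u : V d, τ (u - x) * PK n z K u := by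
        intro K
        split_ifs with hcond
        · obtain ⟨-, hnK, hyK, -⟩ := hcond
          have h4 := g3_prob h0 h1 hp hp1 r z K y x hyK hl
          have h5 : (∑ u ∈ K, τ (u - x)) * Pr d {ω : Om d | Cl (Oc ω) z = (K : Set (V d))} =
              ∑' u : V d, τ (u - x) * PK n z K u := by
            rw [Finset.sum_mul, tsum_eq_sum (s := K)]
            · refine Finset.sum_congr rfl fun u hu => ?_
              unfold PK
              rw [if_pos ⟨hnK, hu⟩]
            · intro u hu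
              unfold PK
              rw [if_neg (fun h => hu h.2), mul_zero]
          rw [← h5]
          calc (∑ u ∈ K, τ (u - x)) * Pr d (XG p r z K y x)
              ≤ (∑ u ∈ K, τ (u - x)) * (c * (Pr d {ω : Om d | Cl (Oc ω) z = (K : Set (V d))} * D)) :=
                mul_le_mul' le_rfl h4
            _ = _ := by ring
        · exact zero_le
      refine (ENNReal.tsum_le_tsum h3).trans ?_
      rw [ENNReal.tsum_mul_left, ENNReal.tsum_comm]
      refine mul_le_mul' (mul_le_mul' le_rfl hDle) (ENNReal.tsum_le_tsum fun u => ?_)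
      rw [ENNReal.tsum_mul_left]
      exact mul_le_mul' le_rfl (sumK hn z u)
    · have : ∀ K : Finset (V d), (if l1 (y - z) = 1 ∧ n ≤ (K.card : ℝ) ∧ y ∉ K ∧ x ∉ K then
          ((∑ u ∈ K, τ (u - x)) * Pr d (XG p r z K y x)) else 0) = 0 :=
        fun K => if_neg fun h => hl h.1
      rw [tsum_congr this, tsum_zero]
      exact zero_le
  -- bring the sum over `K` inside
  have h2 : ∑' z : V d, ∑' K : Finset (V d), ∑' y : V d, ∑' x : V d,
      (if l1 (y - z) = 1 ∧ n ≤ (K.card : ℝ) ∧ y ∉ K ∧ x ∉ K then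
        ((∑ u ∈ K, τ (u - x)) * Pr d (XG p r z K y x)) else 0) ≤
      ∑' z : V d, ∑' y : V d, ∑' x : V d,
        chi1 d (y - z) * (c * (∑' w : V d, kap p r w * (a * τ (y - w)) * (a * T (x - w))) *
        (∑' u : V d, τ (u - x) * (2 * (T (u - z) * M)))) := by
    refine ENNReal.tsum_le_tsum fun z => ?_
    rw [ENNReal.tsum_comm]
    refine ENNReal.tsum_le_tsum fun y => ?_
    rw [ENNReal.tsum_comm]
    exact ENNReal.tsum_le_tsum fun x => hK z y x
  refine h2.trans ?_
  -- all sums outside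
  set H : V d → V d → V d → V d → V d → ℝ≥0∞ := fun w e z x u =>
    (c * (2 * M) * a ^ 2) * kap p r w * chi1 d e *
      (T (u - z) * τ (u - x) * τ (z + e - w) * T (x - w)) with hH
  have h3 : ∑' z : V d, ∑' y : V d, ∑' x : V d,
        chi1 d (y - z) * (c * (∑' w : V d, kap p r w * (a * τ (y - w)) * (a * T (x - w))) *
        (∑' u : V d, τ (u - x) * (2 * (T (u - z) * M)))) =
      ∑' z : V d, ∑' e : V d, ∑' x : V d, ∑' w : V d, ∑' u : V d, H w e z x u := by
    refine tsum_congr fun z => ?_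
    rw [← (Equiv.addLeft z).tsum_eq]
    refine tsum_congr fun e => tsum_congr fun x => ?_
    show chi1 d (z + e - z) * (c * (∑' w : V d, kap p r w * (a * τ (z + e - w)) * (a * T (x - w))) *
        (∑' u : V d, τ (u - x) * (2 * (T (u - z) * M)))) = _
    rw [add_sub_cancel_left, mul_tsum2]
    refine tsum_congr fun w => tsum_congr fun u => ?_
    rw [hH]
    ring
  rw [h3]
  have h4 : ∑' z : V d, ∑' e : V d, ∑' x : V d, ∑' w : V d, ∑' u : V d, H w e z x u =
      ∑' w : V d, ∑' e : V d, ∑' z : V d, ∑' x : V d, ∑' u : V d, H w e z x u := by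
    calc ∑' z : V d, ∑' e : V d, ∑' x : V d, ∑' w : V d, ∑' u : V d, H w e z x u
        = ∑' z : V d, ∑' e : V d, ∑' w : V d, ∑' x : V d, ∑' u : V d, H w e z x u :=
          tsum_congr fun z => tsum_congr fun e => ENNReal.tsum_comm
      _ = ∑' z : V d, ∑' w : V d, ∑' e : V d, ∑' x : V d, ∑' u : V d, H w e z x u :=
          tsum_congr fun z => ENNReal.tsum_comm
      _ = ∑' w : V d, ∑' z : V d, ∑' e : V d, ∑' x : V d, ∑' u : V d, H w e z x u :=
          ENNReal.tsum_comm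
      _ = _ := tsum_congr fun w => ENNReal.tsum_comm
  rw [h4]
  have h5 : ∀ w e : V d, ∑' z : V d, ∑' x : V d, ∑' u : V d, H w e z x u ≤
      (c * (2 * M) * a ^ 2) * kap p r w * chi1 d e * Bm d (pc d) 8 := by
    intro w e
    rw [hH]
    simp only [ENNReal.tsum_mul_left]
    exact mul_le_mul' le_rfl (six_sum w e)
  refine (ENNReal.tsum_le_tsum fun w => ENNReal.tsum_le_tsum fun e => h5 w e).trans (le_of_eq ?_)
  have h6 : ∀ w : V d, ∑' e : V d, (c * (2 * M) * a ^ 2) * kap p r w * chi1 d e * Bm d (pc d) 8 =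
      (c * (2 * M) * a ^ 2) * (2 * d) * Bm d (pc d) 8 * kap p r w := by
    intro w
    rw [ENNReal.tsum_mul_right, ENNReal.tsum_mul_left, tsum_chi1]
    ring
  rw [tsum_congr h6, ENNReal.tsum_mul_left]
  ring

end Pool.Agent.PB.L12
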