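import Pool.Agent.PB.L.Defs

/-!
# PROJECT PB, module PBL-Kap: bounds for `kap` at level `p_c + ε`, `r = ⌊K/ε⌋`

PLAN. `(1 + ε/p_c)^r ≤ exp(ε r/p_c) ≤ exp(K/p_c)` (`Real.add_one_le_exp`, `r ≤ K/ε`). `kap (pc d) r x ≤ tau (pc d) x` (`RchL.rch`, measure_mono).
`Out10.keepK`, `Out10.ball`: `Σ kap (pc d) r x ≤ ofReal (C (r+1))`, `r + 1 ≤ K/ε + 1 ≤ (K+1)/ε` for `ε ≤ 1`.
-/

set_option autoImplicit false
open MeasureTheory Filter Topology
open scoped ENNReal BigOperators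

namespace Pool.Agent.PB

variable {d : ℕ}

theorem kap_le_tau (p : ℝ) (r : ℕ) (x : V d) : kap p r x ≤ tau p x := by
  unfold kap tau
  exact measure_mono fun ω hω => RchL.rch hω

private theorem kap_pow_le (h0 : 0 < pc d) {K ε : ℝ} (hK : 0 < K) (hε : 0 < ε) :
    ((pc d + ε) / pc d) ^ ⌊K / ε⌋₊ ≤ Real.exp (K / pc d) := by
  have h1 : (pc d + ε) / pc d ≤ Real.exp (ε / pc d) := by
    have := Real.add_one_le_exp (ε / pc d)
    have e : (pc d + ε) / pc d = ε / pc d + 1 := by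
      field_simp
      ring
    rw [e]
    exact this
  have hpos : 0 ≤ (pc d + ε) / pc d := by positivity
  have hr : (⌊K / ε⌋₊ : ℝ) ≤ K / ε := Nat.floor_le (by positivity)
  calc ((pc d + ε) / pc d) ^ ⌊K / ε⌋₊ ≤ Real.exp (ε / pc d) ^ ⌊K / ε⌋₊ :=
        pow_le_pow_left₀ hpos h1 _
    _ = Real.exp ((⌊K / ε⌋₊ : ℝ) * (ε / pc d)) := (Real.exp_nat_mul _ _).symm
    _ ≤ Real.exp (K / pc d) := by
        apply Real.exp_le_exp.2
        calc (⌊K / ε⌋₊ : ℝ) * (ε / pc d) ≤ K / ε * (ε / pc d) :=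
              mul_le_mul_of_nonneg_right hr (by positivity)
          _ = K / pc d := by field_simp

theorem kap_tau (h0 : 0 < pc d) (h10 : Out10 d) (K : ℝ) (hK : 0 < K) :
    ∃ C : ℝ, 1 ≤ C ∧ ∀ ε : ℝ, 0 < ε → pc d + ε ≤ 1 → ∀ x : V d,
      kap (pc d + ε) ⌊K / ε⌋₊ x ≤ ENNReal.ofReal C * tau (pc d) x := by
  refine ⟨Real.exp (K / pc d), Real.one_le_exp (by positivity), fun ε hε h1 x => ?_⟩
  refine (h10.keepK (pc d + ε) ⌊K / ε⌋₊ x (by linarith) h1).trans ?_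
  exact mul_le_mul' (ENNReal.ofReal_le_ofReal (kap_pow_le h0 hK hε)) (kap_le_tau _ _ _)

theorem kap_sum (h0 : 0 < pc d) (h10 : Out10 d) (K : ℝ) (hK : 0 < K) :
    ∃ C : ℝ, 1 ≤ C ∧ ∀ ε : ℝ, 0 < ε → pc d + ε ≤ 1 →
      ∑' x : V d, kap (pc d + ε) ⌊K / ε⌋₊ x ≤ ENNReal.ofReal (C / ε) := by
  obtain ⟨C, hC1, hC⟩ := h10.ball
  have hE : 1 ≤ Real.exp (K / pc d) := Real.one_le_exp (by positivity)
  refine ⟨Real.exp (K / pc d) * (C * (K + 1)), ?_, fun ε hε h1 => ?_⟩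
  · have h2 : 1 ≤ C * (K + 1) := by nlinarith
    nlinarith
  · have hε1 : ε ≤ 1 := by linarith
    have hr : (⌊K / ε⌋₊ : ℝ) ≤ K / ε := Nat.floor_le (by positivity)
    have hr1 : (⌊K / ε⌋₊ : ℝ) + 1 ≤ (K + 1) / ε := by
      rw [add_div]
      have : 1 ≤ 1 / ε := by
        rw [le_div_iff₀ hε]
        linarith
      linarith
    calc ∑' x : V d, kap (pc d + ε) ⌊K / ε⌋₊ x
        ≤ ∑' x : V d, ENNReal.ofReal (((pc d + ε) / pc d) ^ ⌊K / ε⌋₊) * kap (pc d) ⌊K / ε⌋₊ x :=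
          ENNReal.tsum_le_tsum fun x => h10.keepK (pc d + ε) ⌊K / ε⌋₊ x (by linarith) h1
      _ = ENNReal.ofReal (((pc d + ε) / pc d) ^ ⌊K / ε⌋₊) * ∑' x : V d, kap (pc d) ⌊K / ε⌋₊ x :=
          ENNReal.tsum_mul_left
      _ ≤ ENNReal.ofReal (Real.exp (K / pc d)) * ENNReal.ofReal (C * (⌊K / ε⌋₊ + 1)) :=
          mul_le_mul' (ENNReal.ofReal_le_ofReal (kap_pow_le h0 hK hε)) (hC _)
      _ = ENNReal.ofReal (Real.exp (K / pc d) * (C * (⌊K / ε⌋₊ + 1))) :=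
          (ENNReal.ofReal_mul (Real.exp_pos _).le).symm
      _ ≤ ENNReal.ofReal (Real.exp (K / pc d) * (C * (K + 1)) / ε) := by
          apply ENNReal.ofReal_le_ofReal
          rw [mul_div_assoc, mul_div_assoc]
          exact mul_le_mul_of_nonneg_left (mul_le_mul_of_nonneg_left hr1 (by linarith))
            (Real.exp_pos _).le

end Pool.Agent.PB
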