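import Pool.Agent.PB.L.G3a
import Pool.Agent.PB.L.G3c
import Pool.Agent.PB.L.StopSum
import Pool.Agent.PB.L.Kap

/-!
# PROJECT PB, module PBL-G3d: (G3) fails with probability `O(ε³)` (Markov)

PLAN.
* `g3_markov`: pointwise on the bad event: `StopD (opn p ω) (Oc ω) n j z V1 U`, `j ≤ r`, `c1 |V1| < Σ_{x ∈ U \ V1} hV V1 x`. Then `ofReal (c1 n) ≤ SG p n r ω`: keep in the outer sums only `z` and `K = V1`; for every `x ∈ U \ V1` let `y = y(x)` be given by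
  `g3_det` (`s(z,y) ∈ opn p ω` gives `l1 (y - z) = 1` and label `≤ p` (`mem_opn`), `y ∉ V1`, `Tri ..`; `h.cl` gives `Cl (Oc ω) z = V1`), so `ω ∈ XG p r z V1 y x` and the inner sums are `≥ Σ_{x ∈ U \ V1} Σ_{u ∈ V1} tau (u-x)`
  (`ENNReal.le_tsum`, exchange the sums over `y` and `x`: `Σ'_y Σ'_x = Σ'_x Σ'_y`, `ENNReal.sum_le_tsum`) `= ofReal (Σ_{x ∈ U\V1} hV V1 x) ≥ ofReal (c1 |V1|) ≥ ofReal (c1 n)`. Markov: `meas_ge_le_lintegral_div` or `mul_meas_ge_le_lintegral₀`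
  (`ofReal (c1 n) * Pr {ofReal (c1 n) ≤ SG} ≤ ∫⁻ SG`; needs `SG` (a.e.) measurable: countable sums of indicators of measurable sets; state `SG_meas`).
* `bad_g3`: `p = p_c + ε`, `n = k/ε²`, `r = ⌊K/ε⌋₊`: `Mg d (pc d) (1/n) = ofReal (Mr ..) ≤ ofReal (C √(ε²/k)) = ofReal (C ε/√k)` for `ε² ≤ k` (`Out5.bounds`, `1/n ≤ 1`), `kap_tau`, `kap_sum : Σ kap ≤ ofReal (C/ε)`,
  `(p-p_c)/(1-p_c) = ε/(1-p_c)`: so `∫⁻ SG ≤ ofReal (C₁ ε)` and `Pr(bad) ≤ C₁ ε · ε²/(c1 k) ≤ δ ε` for `ε² ≤ δ c1 k / C₁`. `Bm d (pc d) 8 < ⊤` is `hC.B8`.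
-/

set_option autoImplicit false
open MeasureTheory Filter Topology
open scoped ENNReal BigOperators

namespace Pool.Agent.PB.L12

variable {d : ℕ}

private theorem XG_meas (p : ℝ) (r : ℕ) (z : V d) (K : Finset (V d)) (y x : V d) :
    MeasurableSet (XG p r z K y x) := by
  unfold XG
  refine (((opn_MES (d := d) (pc d)).cl z).eq_set (K : Set (V d))).inter (MeasurableSet.inter ?_ ?_)
  · exact measurableSet_le (measurable_subtype_coe.comp (measurable_pi_apply _)) measurable_const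
  · exact tri_meas ((opn_MES (d := d) p).rem _) ((opn_MES (d := d) (pc d)).rem _) r 0 y x

theorem SG_meas (p n : ℝ) (r : ℕ) : Measurable (SG (d := d) p n r) := by
  unfold SG
  refine Measurable.ennreal_tsum fun z => Measurable.ennreal_tsum fun K =>
    Measurable.ennreal_tsum fun y => Measurable.ennreal_tsum fun x => ?_
  split_ifs
  · exact measurable_const.mul (measurable_const.indicator (XG_meas p r z K y x))
  · exact measurable_const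

private theorem prod_ofReal (a b c e B : ℝ) (m : ℕ) (ha : 0 ≤ a) (hb : 0 ≤ b) (hc : 0 ≤ c)
    (he : 0 ≤ e) (hB : 0 ≤ B) :
    ENNReal.ofReal a * (2 * ENNReal.ofReal b) * ENNReal.ofReal c ^ 2 * ENNReal.ofReal e * (2 * m) *
      ENNReal.ofReal B = ENNReal.ofReal (a * (2 * b) * c ^ 2 * e * (2 * m) * B) := by
  have b1 : (2 : ℝ≥0∞) = ENNReal.ofReal 2 := by simp
  have b2 : ((m : ℕ) : ℝ≥0∞) = ENNReal.ofReal (m : ℝ) := by simp
  have m1 : ENNReal.ofReal (2 * b) = 2 * ENNReal.ofReal b := by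
    rw [ENNReal.ofReal_mul (by norm_num), ← b1]
  have m2 : ENNReal.ofReal (2 * (m : ℝ)) = 2 * m := by
    rw [ENNReal.ofReal_mul (by norm_num), ← b1, ← b2]
  rw [ENNReal.ofReal_mul (p := a * (2 * b) * c ^ 2 * e * (2 * m)) (by positivity),
    ENNReal.ofReal_mul (p := a * (2 * b) * c ^ 2 * e) (by positivity),
    ENNReal.ofReal_mul (p := a * (2 * b) * c ^ 2) (by positivity),
    ENNReal.ofReal_mul (p := a * (2 * b)) (by positivity),
    ENNReal.ofReal_mul (p := a) ha, ENNReal.ofReal_pow hc, m1, m2]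

private theorem ofReal_hV (V1 : Finset (V d)) (x : V d) :
    ENNReal.ofReal (hV V1 x) = ∑ u ∈ V1, tau (pc d) (u - x) := by
  unfold hV ta
  rw [ENNReal.ofReal_sum_of_nonneg fun u _ => ENNReal.toReal_nonneg]
  refine Finset.sum_congr rfl fun u _ => ENNReal.ofReal_toReal ?_
  exact ((tau_le_one _ _).trans_lt ENNReal.one_lt_top).ne

private theorem hV_nonneg (V1 : Finset (V d)) (x : V d) : 0 ≤ hV V1 x :=
  Finset.sum_nonneg fun _ _ => ENNReal.toReal_nonneg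

private theorem SG_ge {p : ℝ} (hp : pc d ≤ p) (r : ℕ) {n : ℝ} {c1 : ℝ} (hc1 : 0 < c1) {ω : Om d}
    (hω : ω ∈ BadStop p n r (fun V1 U : Finset (V d) => G3 c1 V1 U)) :
    ENNReal.ofReal (c1 * n) ≤ SG (d := d) p n r ω := by
  classical
  obtain ⟨j, hj, z, V1, U, hst, hG⟩ := hω
  have hG' : c1 * V1.card < ∑ x ∈ U \ V1, hV V1 x := not_le.1 hG
  have h1 : c1 * n ≤ ∑ x ∈ U \ V1, hV V1 x :=
    (mul_le_mul_of_nonneg_left hst.big hc1.le).trans hG'.le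
  have hQ : Oc ω ⊆ opn p ω := opn_mono hp ω
  have hdet : ∀ x ∈ U \ V1, ∃ y, l1 (y - z) = 1 ∧ y ∉ V1 ∧ ω ∈ XG p r z V1 y x := by
    intro x hx
    rw [Finset.mem_sdiff] at hx
    obtain ⟨y, hy1, hy2, hy3⟩ := g3_det hQ hj hst hx.1 hx.2
    have hy := mem_opn.1 hy1
    exact ⟨y, hy.1, hy2, hst.cl, hy.2, hy3⟩
  unfold SG
  calc ENNReal.ofReal (c1 * n) ≤ ENNReal.ofReal (∑ x ∈ U \ V1, hV V1 x) :=
        ENNReal.ofReal_le_ofReal h1
    _ = ∑ x ∈ U \ V1, ∑ u ∈ V1, tau (pc d) (u - x) := by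
        rw [ENNReal.ofReal_sum_of_nonneg fun x _ => hV_nonneg V1 x]
        exact Finset.sum_congr rfl fun x _ => ofReal_hV V1 x
    _ ≤ ∑ x ∈ U \ V1, ∑' y : V d, (if l1 (y - z) = 1 ∧ n ≤ (V1.card : ℝ) ∧ y ∉ V1 ∧ x ∉ V1 then
          ((∑ u ∈ V1, tau (pc d) (u - x)) *
            (XG p r z V1 y x).indicator (fun _ => (1 : ℝ≥0∞)) ω) else 0) := by
        refine Finset.sum_le_sum fun x hx => ?_
        obtain ⟨y, hy1, hy2, hy3⟩ := hdet x hx
        refine le_trans ?_ (ENNReal.le_tsum y)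
        rw [if_pos ⟨hy1, hst.big, hy2, (Finset.mem_sdiff.1 hx).2⟩, Set.indicator_of_mem hy3, mul_one]
    _ ≤ ∑' x : V d, ∑' y : V d, (if l1 (y - z) = 1 ∧ n ≤ (V1.card : ℝ) ∧ y ∉ V1 ∧ x ∉ V1 then
          ((∑ u ∈ V1, tau (pc d) (u - x)) *
            (XG p r z V1 y x).indicator (fun _ => (1 : ℝ≥0∞)) ω) else 0) :=
        ENNReal.sum_le_tsum _
    _ = ∑' y : V d, ∑' x : V d, (if l1 (y - z) = 1 ∧ n ≤ (V1.card : ℝ) ∧ y ∉ V1 ∧ x ∉ V1 then
          ((∑ u ∈ V1, tau (pc d) (u - x)) *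
            (XG p r z V1 y x).indicator (fun _ => (1 : ℝ≥0∞)) ω) else 0) := ENNReal.tsum_comm
    _ ≤ ∑' K : Finset (V d), ∑' y : V d, ∑' x : V d,
        (if l1 (y - z) = 1 ∧ n ≤ (K.card : ℝ) ∧ y ∉ K ∧ x ∉ K then
          ((∑ u ∈ K, tau (pc d) (u - x)) *
            (XG p r z K y x).indicator (fun _ => (1 : ℝ≥0∞)) ω) else 0) :=
        ENNReal.le_tsum (f := fun K : Finset (V d) => ∑' y : V d, ∑' x : V d,
        (if l1 (y - z) = 1 ∧ n ≤ (K.card : ℝ) ∧ y ∉ K ∧ x ∉ K then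
          ((∑ u ∈ K, tau (pc d) (u - x)) *
            (XG p r z K y x).indicator (fun _ => (1 : ℝ≥0∞)) ω) else 0)) V1
    _ ≤ _ := ENNReal.le_tsum z

theorem g3_markov {p : ℝ} (hp : pc d ≤ p) (r : ℕ) {n : ℝ} (hn : 0 < n) {c1 : ℝ} (hc1 : 0 < c1) :
    ENNReal.ofReal (c1 * n) * Pr d (BadStop p n r (fun V1 U : Finset (V d) => G3 c1 V1 U)) ≤
      ∫⁻ ω, SG (d := d) p n r ω ∂Pr d := by
  have key : BadStop p n r (fun V1 U : Finset (V d) => G3 c1 V1 U) ⊆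
      {ω | ENNReal.ofReal (c1 * n) ≤ SG (d := d) p n r ω} :=
    fun ω hω => SG_ge hp r hc1 hω
  calc ENNReal.ofReal (c1 * n) * Pr d (BadStop p n r (fun V1 U : Finset (V d) => G3 c1 V1 U))
      ≤ ENNReal.ofReal (c1 * n) * Pr d {ω | ENNReal.ofReal (c1 * n) ≤ SG (d := d) p n r ω} := by
        gcongr
    _ ≤ _ := mul_meas_ge_le_lintegral (SG_meas p n r) _

theorem bad_g3 (hC : Crit d) (h5 : Out5 d) (h10 : Out10 d) (c1 k K δ : ℝ) (hc1 : 0 < c1)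
    (hk : 0 < k) (hK : 0 < K) (hδ : 0 < δ) : ∀ᶠ ε in 𝓝[>] (0 : ℝ),
    Pr d (BadStop (pc d + ε) (k / ε ^ 2) ⌊K / ε⌋₊ (fun V1 U : Finset (V d) => G3 c1 V1 U)) ≤
      ENNReal.ofReal (δ * ε) := by
  obtain ⟨C5, hC5, hM⟩ := h5.bounds
  obtain ⟨C1, hC1, hk1⟩ := kap_tau hC.pc_pos h10 K hK
  obtain ⟨C2, hC2, hk2⟩ := kap_sum hC.pc_pos h10 K hK
  have hB : Bm d (pc d) 8 ≠ ⊤ := hC.B8.ne
  set B : ℝ := (Bm d (pc d) 8).toReal with hBdef
  have hB0 : 0 ≤ B := ENNReal.toReal_nonneg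
  have h1p : 0 < 1 - pc d := by linarith [hC.pc_lt]
  have hsk : 0 < Real.sqrt k := Real.sqrt_pos.2 hk
  set Ct : ℝ := 1 / (1 - pc d) * (2 * (C5 / Real.sqrt k)) * C1 ^ 2 * C2 * (2 * d) * B with hCt
  have hCt0 : 0 ≤ Ct := by positivity
  have ev1 : ∀ᶠ ε : ℝ in 𝓝[>] (0 : ℝ), ε ^ 2 < k :=
    ((continuous_pow 2).tendsto' (0 : ℝ) 0 (by simp)).mono_left nhdsWithin_le_nhds
      |>.eventually_lt_const hk
  have ev2 : ∀ᶠ ε : ℝ in 𝓝[>] (0 : ℝ), ε ^ 2 * Ct < δ * (c1 * k) :=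
    (((continuous_pow 2).mul continuous_const).tendsto' (0 : ℝ) 0 (by simp)).mono_left
      nhdsWithin_le_nhds |>.eventually_lt_const (by positivity)
  have ev3 : ∀ᶠ ε : ℝ in 𝓝[>] (0 : ℝ), ε < 1 - pc d :=
    (continuous_id.tendsto' (0 : ℝ) 0 rfl).mono_left nhdsWithin_le_nhds
      |>.eventually_lt_const h1p
  filter_upwards [ev1, ev2, ev3, self_mem_nhdsWithin] with ε e1 e2 e3 e4
  have hε : 0 < ε := e4
  have hp1 : pc d + ε ≤ 1 := by linarith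
  have hn : 0 < k / ε ^ 2 := by positivity
  have hh : 1 / (k / ε ^ 2) = ε ^ 2 / k := one_div_div _ _
  have hMg : Mg d (pc d) (1 / (k / ε ^ 2)) ≤ ENNReal.ofReal (C5 * (ε / Real.sqrt k)) := by
    have h2 := (hM (1 / (k / ε ^ 2)) (by positivity) (by
      rw [hh, div_le_one hk]
      exact e1.le)).1
    have h3 : Real.sqrt (1 / (k / ε ^ 2)) = ε / Real.sqrt k := by
      rw [hh, Real.sqrt_div (by positivity), Real.sqrt_sq hε.le]
    rw [h3] at h2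
    have h4 : Mg d (pc d) (1 / (k / ε ^ 2)) ≠ ⊤ := measure_ne_top _ _
    rw [← ENNReal.ofReal_toReal h4]
    exact ENNReal.ofReal_le_ofReal h2
  have hint := g3_int hC.pc_pos hC.pc_lt (p := pc d + ε) (by linarith) hp1 ⌊K / ε⌋₊ hn
    (Ck := C1) (hk1 ε hε hp1)
  have hmk := g3_markov (d := d) (p := pc d + ε) (by linarith) ⌊K / ε⌋₊ hn hc1
  have hle : ENNReal.ofReal (c1 * (k / ε ^ 2)) *
      Pr d (BadStop (pc d + ε) (k / ε ^ 2) ⌊K / ε⌋₊ (fun V1 U : Finset (V d) => G3 c1 V1 U)) ≤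
      ENNReal.ofReal (ε * Ct) := by
    refine hmk.trans (hint.trans ?_)
    have a1 : pc d + ε - pc d = ε := by ring
    rw [a1]
    calc ENNReal.ofReal (ε / (1 - pc d)) * (2 * Mg d (pc d) (1 / (k / ε ^ 2))) *
          ENNReal.ofReal C1 ^ 2 * (∑' w : V d, kap (pc d + ε) ⌊K / ε⌋₊ w) * (2 * d) *
          Bm d (pc d) 8
        ≤ ENNReal.ofReal (ε / (1 - pc d)) * (2 * ENNReal.ofReal (C5 * (ε / Real.sqrt k))) *
          ENNReal.ofReal C1 ^ 2 * ENNReal.ofReal (C2 / ε) * (2 * d) * Bm d (pc d) 8 := by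
          gcongr
          exact hk2 ε hε hp1
      _ = ENNReal.ofReal (ε / (1 - pc d) * (2 * (C5 * (ε / Real.sqrt k))) *
          C1 ^ 2 * (C2 / ε) * (2 * d) * B) := by
          have b3 : Bm d (pc d) 8 = ENNReal.ofReal B := (ENNReal.ofReal_toReal hB).symm
          rw [b3]
          exact prod_ofReal _ _ _ _ _ d (by positivity) (by positivity) (by positivity)
            (by positivity) hB0
      _ = ENNReal.ofReal (ε * Ct) := by
          congr 1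
          rw [hCt]
          field_simp
  have hc : 0 < c1 * (k / ε ^ 2) := by positivity
  have hfin : Pr d (BadStop (pc d + ε) (k / ε ^ 2) ⌊K / ε⌋₊
      (fun V1 U : Finset (V d) => G3 c1 V1 U)) ≠ ⊤ := measure_ne_top _ _
  rw [← ENNReal.ofReal_toReal hfin] at hle ⊢
  rw [← ENNReal.ofReal_mul hc.le, ENNReal.ofReal_le_ofReal_iff (by positivity)] at hle
  apply ENNReal.ofReal_le_ofReal
  set P := (Pr d (BadStop (pc d + ε) (k / ε ^ 2) ⌊K / ε⌋₊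
      (fun V1 U : Finset (V d) => G3 c1 V1 U))).toReal
  have h6 : c1 * (k / ε ^ 2) * P ≤ c1 * (k / ε ^ 2) * (δ * ε) := by
    refine hle.trans ?_
    have h7 : c1 * (k / ε ^ 2) * (δ * ε) = ε * (δ * (c1 * k)) / ε ^ 2 := by
      field_simp
    rw [h7, le_div_iff₀ (by positivity)]
    have h8 : ε * Ct * ε ^ 2 = ε * (ε ^ 2 * Ct) := by ring
    rw [h8]
    exact mul_le_mul_of_nonneg_left e2.le hε.le
  exact le_of_mul_le_mul_left h6 hc

end Pool.Agent.PB.L12
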