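import Pool.Agent.PB.L.BadSize
import Pool.Agent.PB.L.BadG1
import Pool.Agent.PB.L.BadG2
import Pool.Agent.PB.L.G3d
import Pool.Agent.PB.L.Bad

/-!
# PROJECT PB, 12.6 (assembly): the exploration stops at a bad configuration with probability `≤ δ ε`
-/

set_option autoImplicit false
open MeasureTheory Filter Topology
open scoped ENNReal BigOperators

namespace Pool.Agent.PB.L12

variable {d : ℕ}

/-- translation of a finite vertex set -/
theorem sum_image_tr (V' : Finset (V d)) (z : V d) (f : V d → ℝ) :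
    ∑ x ∈ V'.image (fun x => x + z), f x = ∑ x ∈ V', f (x + z) :=
  Finset.sum_image fun a _ b _ h => add_right_cancel h

theorem hF_tr (R1 : ℕ) (V' : Finset (V d)) (z x : V d) :
    hF R1 (V'.image (fun x => x + z)) (x + z) = hF R1 V' x := by
  classical
  unfold hF
  rw [Finset.sum_image fun a _ b _ h => add_right_cancel h]
  refine Finset.sum_congr rfl fun u _ => ?_
  have h1 : (u + z ∈ bx R1 (x + z)) = (u ∈ bx R1 x) := by
    apply propext
    simp only [bx, Set.mem_ofPred_eq, Pi.add_apply]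
    refine forall_congr' fun i => ?_
    rw [show u i + z i - (x i + z i) = u i - x i by ring]
  have h2 : u + z - (x + z) = u - x := by abel
  simp only [h1, h2]

theorem card_tr (V' : Finset (V d)) (z : V d) : (V'.image (fun x => x + z)).card = V'.card :=
  Finset.card_image_of_injective _ fun a b h => add_right_cancel h

theorem G1_tr (R1 : ℕ) (c1 : ℝ) (V' : Finset (V d)) (z : V d) :
    G1 R1 c1 (V'.image (fun x => x + z)) ↔ G1 R1 c1 V' := by
  unfold G1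
  rw [sum_image_tr, card_tr]
  simp only [hF_tr]

theorem G2_tr (ε : ℝ) (V' : Finset (V d)) (z : V d) :
    G2 ε (V'.image (fun x => x + z)) ↔ G2 ε V' := by
  unfold G2
  rw [sum_image_tr, card_tr]
  have : ∀ x : V d, ∑ x' ∈ V'.image (fun x => x + z), (t3 (x' - (x + z))).toReal =
      ∑ x' ∈ V', (t3 (x' - x)).toReal := by
    intro x
    rw [sum_image_tr]
    refine Finset.sum_congr rfl fun x' _ => ?_
    rw [show x' + z - (x + z) = x' - x by abel]
  simp only [this]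

/-- the bad property of a vertex set -/
def BadP (R1 : ℕ) (c1 ε k : ℝ) (K : Set (V d)) : Prop :=
  ∃ V' : Finset (V d), K = (V' : Set (V d)) ∧ k ≤ ε ^ 2 * (V'.card : ℝ) ∧
    ¬ (G1 R1 c1 V' ∧ G2 ε V')

theorem badP_tr1 (R1 : ℕ) (c1 ε k : ℝ) (K : Set (V d)) (z : V d) (h : BadP R1 c1 ε k K) :
    BadP R1 c1 ε k ((fun x => x + z) '' K) := by
  obtain ⟨V', rfl, h2, h3⟩ := h
  refine ⟨V'.image (fun x => x + z), by simp, ?_, ?_⟩
  · rw [card_tr]; exact h2
  · rw [G1_tr, G2_tr]; exact h3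

theorem badP_tr (R1 : ℕ) (c1 ε k : ℝ) (K : Set (V d)) (z : V d) :
    BadP R1 c1 ε k ((fun x => x + z) '' K) ↔ BadP R1 c1 ε k K := by
  refine ⟨fun h => ?_, badP_tr1 R1 c1 ε k K z⟩
  have := badP_tr1 R1 c1 ε k _ (-z) h
  rw [Set.image_image] at this
  simpa using this

theorem bad6 {b : ℝ} (hC : Crit d) (h5 : Out5 d) (h8 : Out8 d b) (h10 : Out10 d)
    (hg : ∀ R R1 : ℕ, gbr R (gfar (d := d) R R1) ≤ (FarS d R1).toReal)
    (hTR : Tendsto (fun R : ℕ => TR R (tau (d := d) (pc d))) atTop (𝓝 0)) (c1 : ℝ) (hc1 : 0 < c1) :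
    ∃ R1 : ℕ, ∀ k K δ : ℝ, 0 < k → 0 < K → 0 < δ → ∀ᶠ ε in 𝓝[>] (0 : ℝ),
      Pr d (BadStop (pc d + ε) (k / ε ^ 2) ⌊K / ε⌋₊
        (fun V1 U : Finset (V d) => G1 R1 c1 V1 ∧ G2 ε V1 ∧ G3 c1 V1 U)) ≤
      ENNReal.ofReal (δ * ε) := by
  obtain ⟨R1, hR1⟩ := bad_g1 hC h8 hg hTR c1 hc1
  refine ⟨R1, fun k K δ hk hK hδ => ?_⟩
  obtain ⟨C, hC1, hks⟩ := kap_sum hC.pc_pos h10 K hK
  have h1pc : 0 < 1 - pc d := by linarith [hC.pc_lt]
  set CF : ℝ := 1 + 2 * d * (C / (1 - pc d)) with hCF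
  have hCF1 : 1 ≤ CF := by
    have : 0 ≤ 2 * d * (C / (1 - pc d)) := by positivity
    linarith
  set δ' : ℝ := δ / (4 * CF) with hδ'
  have hδ'pos : 0 < δ' := by positivity
  obtain ⟨K2, hK2, hsize⟩ := bad_size h5 δ' hδ'pos
  set K2' : ℝ := max K2 (k + 1) with hK2'
  have hkK : k < K2' := lt_of_lt_of_le (by linarith) (le_max_right _ _)
  filter_upwards [hR1 k K2' hk hkK δ' hδ'pos, bad_g2 hC h8 k K2' hk hkK δ' hδ'pos,
    bad_g3 hC h5 h10 c1 k K (δ / 4) hc1 hk hK (by positivity), self_mem_nhdsWithin,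
    (eventually_lt_nhds (show (0 : ℝ) < 1 - pc d from h1pc)).filter_mono nhdsWithin_le_nhds]
    with ε e1 e2 e3 hε0 hε1
  have hε : (0 : ℝ) < ε := hε0
  -- the property of the cluster of 0
  have hP0 : Pr d {ω : Om d | (Cl (Oc ω) (0 : V d)).Finite ∧ BadP R1 c1 ε k (Cl (Oc ω) (0 : V d))} ≤
      ENNReal.ofReal (3 * (δ' * ε)) := by
    have hsub : {ω : Om d | (Cl (Oc ω) (0 : V d)).Finite ∧ BadP R1 c1 ε k (Cl (Oc ω) (0 : V d))} ⊆
        {ω : Om d | K2 < ε ^ 2 * (Nc (Oc ω) (0 : V d) : ℝ)} ∪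
        ({ω : Om d | k ≤ ε ^ 2 * (Nc (Oc ω) (0 : V d) : ℝ) ∧
          ε ^ 2 * (Nc (Oc ω) (0 : V d) : ℝ) ≤ K2' ∧
          ∃ V' : Finset (V d), Cl (Oc ω) (0 : V d) = (V' : Set (V d)) ∧ ¬ G1 R1 c1 V'} ∪
        {ω : Om d | k ≤ ε ^ 2 * (Nc (Oc ω) (0 : V d) : ℝ) ∧
          ε ^ 2 * (Nc (Oc ω) (0 : V d) : ℝ) ≤ K2' ∧
          ∃ V' : Finset (V d), Cl (Oc ω) (0 : V d) = (V' : Set (V d)) ∧ ¬ G2 ε V'}) := by
      rintro ω ⟨_, V', hV, hk1, hbad⟩
      have hN : (Nc (Oc ω) (0 : V d) : ℝ) = V'.card := by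
        unfold Nc; rw [hV, Set.ncard_coe_finset]
      by_cases hsz : K2 < ε ^ 2 * (Nc (Oc ω) (0 : V d) : ℝ)
      · exact Or.inl hsz
      · right
        have hsz' : ε ^ 2 * (Nc (Oc ω) (0 : V d) : ℝ) ≤ K2' :=
          (not_lt.1 hsz).trans (le_max_left _ _)
        have hk1' : k ≤ ε ^ 2 * (Nc (Oc ω) (0 : V d) : ℝ) := by rw [hN]; exact hk1
        by_cases hg1 : G1 R1 c1 V'
        · right
          exact ⟨hk1', hsz', V', hV, fun hg2 => hbad ⟨hg1, hg2⟩⟩
        · left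
          exact ⟨hk1', hsz', V', hV, hg1⟩
    calc Pr d {ω : Om d | (Cl (Oc ω) (0 : V d)).Finite ∧ BadP R1 c1 ε k (Cl (Oc ω) (0 : V d))}
        ≤ ENNReal.ofReal (δ' * ε) + (ENNReal.ofReal (δ' * ε) + ENNReal.ofReal (δ' * ε)) := by
          refine (measure_mono hsub).trans ((measure_union_le _ _).trans ?_)
          exact add_le_add (hsize ε hε) ((measure_union_le _ _).trans (add_le_add e1 e2))
      _ = ENNReal.ofReal (3 * (δ' * ε)) := by
          rw [← ENNReal.ofReal_add (by positivity) (by positivity),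
            ← ENNReal.ofReal_add (by positivity) (by positivity)]
          congr 1; ring
  -- reaching a bad cluster
  have hbl := bad_lemma hC.pc_pos hC.pc_lt (p := pc d + ε) (by linarith) (by linarith) ⌊K / ε⌋₊
    (BadP R1 c1 ε k) (badP_tr R1 c1 ε k)
  have hfac : (1 + ENNReal.ofReal (2 * d * ((pc d + ε - pc d) / (1 - pc d))) *
      ∑' x : V d, kap (pc d + ε) ⌊K / ε⌋₊ x) ≤ ENNReal.ofReal CF := by
    have := hks ε hε (by linarith)
    calc (1 + ENNReal.ofReal (2 * d * ((pc d + ε - pc d) / (1 - pc d))) *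
          ∑' x : V d, kap (pc d + ε) ⌊K / ε⌋₊ x)
        ≤ 1 + ENNReal.ofReal (2 * d * ((pc d + ε - pc d) / (1 - pc d))) *
          ENNReal.ofReal (C / ε) := by gcongr
      _ = ENNReal.ofReal CF := by
          rw [← ENNReal.ofReal_mul (by
            have : (0 : ℝ) ≤ (pc d + ε - pc d) / (1 - pc d) := by
              rw [show pc d + ε - pc d = ε by ring]; positivity
            positivity), hCF, ENNReal.ofReal_add zero_le_one (by positivity), ENNReal.ofReal_one]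
          congr 2
          rw [show pc d + ε - pc d = ε by ring]
          field_simp
  -- decomposition of BadStop
  have hsub2 : BadStop (pc d + ε) (k / ε ^ 2) ⌊K / ε⌋₊
        (fun V1 U : Finset (V d) => G1 R1 c1 V1 ∧ G2 ε V1 ∧ G3 c1 V1 U) ⊆
      {ω : Om d | ∃ z, RchL (opn (pc d + ε) ω) ⌊K / ε⌋₊ 0 z ∧ (Cl (Oc ω) z).Finite ∧
        BadP R1 c1 ε k (Cl (Oc ω) z)} ∪
      BadStop (pc d + ε) (k / ε ^ 2) ⌊K / ε⌋₊ (fun V1 U : Finset (V d) => G3 c1 V1 U) := by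
    rintro ω ⟨j, hj, z, V1, U, hS, hbad⟩
    by_cases h12 : G1 R1 c1 V1 ∧ G2 ε V1
    · right
      exact ⟨j, hj, z, V1, U, hS, fun h3 => hbad ⟨h12.1, h12.2, h3⟩⟩
    · left
      refine ⟨z, hS.sph.1.mono_len hj, ?_, V1, hS.cl, ?_, h12⟩
      · rw [hS.cl]; exact V1.finite_toSet
      · have := hS.big
        rw [div_le_iff₀ (by positivity)] at this
        linarith
  calc Pr d (BadStop (pc d + ε) (k / ε ^ 2) ⌊K / ε⌋₊
        (fun V1 U : Finset (V d) => G1 R1 c1 V1 ∧ G2 ε V1 ∧ G3 c1 V1 U))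
      ≤ ENNReal.ofReal CF * ENNReal.ofReal (3 * (δ' * ε)) + ENNReal.ofReal (δ / 4 * ε) := by
        refine (measure_mono hsub2).trans ((measure_union_le _ _).trans (add_le_add ?_ e3))
        exact hbl.trans (mul_le_mul' hfac hP0)
    _ = ENNReal.ofReal (δ * ε) := by
        rw [← ENNReal.ofReal_mul (by linarith), ← ENNReal.ofReal_add (by positivity) (by positivity)]
        congr 1
        rw [hδ']
        field_simp
        ring

end Pool.Agent.PB.L12
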