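import Pool.Agent.PB.L.Defs

/-!
# PROJECT PB, module PBL-BadSize: the critical cluster is larger than `K₂ ε^{-2}` with probability `≤ δ ε`

PLAN. `Out5.tail`: `P(N ≥ m) ≤ C/√m` for `m ≥ 1`. Given `δ` take `K₂ := (C/δ)²` (`> 0`). For `ε > 0` and `m := ⌈K₂/ε²⌉₊ ≥ 1`: `{K₂ < ε² N} ⊆ {m ≤ N}`
(`N > K₂/ε²`, `Nat.ceil_le`), so the probability is `≤ C/√m ≤ C ε/√K₂ = δ ε` (`m ≥ K₂/ε²`, `Real.sqrt_div`, monotonicity of sqrt).
Convert with `ENNReal.ofReal_toReal`, `measure_ne_top`. Holds for every `ε > 0`.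
-/

set_option autoImplicit false
open MeasureTheory Filter Topology
open scoped ENNReal BigOperators

namespace Pool.Agent.PB.L12

variable {d : ℕ}

theorem bad_size (h5 : Out5 d) (δ : ℝ) (hδ : 0 < δ) : ∃ K2 : ℝ, 0 < K2 ∧ ∀ ε : ℝ, 0 < ε →
    Pr d {ω : Om d | K2 < ε ^ 2 * (Nc (Oc ω) (0 : V d) : ℝ)} ≤ ENNReal.ofReal (δ * ε) := by
  obtain ⟨C, hC1, hC⟩ := h5.tail
  have hC0 : 0 < C := by linarith
  refine ⟨(C / δ) ^ 2, by positivity, fun ε hε => ?_⟩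
  set m : ℕ := ⌈(C / δ) ^ 2 / ε ^ 2⌉₊ with hm
  have hpos : 0 < (C / δ) ^ 2 / ε ^ 2 := by positivity
  have hm1 : 1 ≤ m := Nat.one_le_iff_ne_zero.2 (Nat.pos_iff_ne_zero.1 (Nat.ceil_pos.2 hpos))
  have hsub : {ω : Om d | (C / δ) ^ 2 < ε ^ 2 * (Nc (Oc ω) (0 : V d) : ℝ)} ⊆
      {ω : Om d | m ≤ Nc (opn (pc d) ω) (0 : V d)} := by
    intro ω hω
    rw [Set.mem_setOf_eq] at hω ⊢
    rw [hm, Nat.ceil_le, div_le_iff₀ (by positivity)]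
    have h1 : (Nc (Oc ω) (0 : V d) : ℝ) = (Nc (opn (pc d) ω) (0 : V d) : ℝ) := rfl
    rw [h1] at hω
    linarith
  refine (measure_mono hsub).trans ?_
  rw [← ENNReal.ofReal_toReal (measure_ne_top (Pr d) {ω : Om d | m ≤ Nc (opn (pc d) ω) (0 : V d)})]
  refine ENNReal.ofReal_le_ofReal ((hC m hm1).1.trans ?_)
  have h2 : C / (δ * ε) ≤ Real.sqrt m := by
    have h3 : (C / δ) ^ 2 / ε ^ 2 ≤ (m : ℝ) := Nat.le_ceil _
    have h4 : (C / (δ * ε)) ^ 2 = (C / δ) ^ 2 / ε ^ 2 := by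
      field_simp
    rw [← h4] at h3
    calc C / (δ * ε) = Real.sqrt ((C / (δ * ε)) ^ 2) := (Real.sqrt_sq (by positivity)).symm
      _ ≤ Real.sqrt m := Real.sqrt_le_sqrt h3
  have h5 : 0 < C / (δ * ε) := by positivity
  calc C / Real.sqrt m ≤ C / (C / (δ * ε)) := div_le_div_of_nonneg_left hC0.le h5 h2
    _ = δ * ε := by field_simp

end Pool.Agent.PB.L12
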