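import Pool.Agent.PB.L.Defs
import Pool.Agent.PB.P.Act

/-!
# PROJECT PB, module PBL-Ele: elementary facts on boundary edges and `thA`

PLAN.
* `card_U1_le`: `U1 d` is an image of a finset of cardinality `2d` (`Finset.card_image_le`,
  `Fintype.card_prod`, `Fintype.card_bool`).
* `card_bdE_le`: filter of an image of `X ×ˢ U1 d`.
* `bdE_union`: membership (`mem_bdE`).
* `sum_bdE_le`: for `f ≥ 0`: `Σ_{q ∈ bdE X U} f q.1 ≤ 2d Σ_{x ∈ X} f x`: `bdE X U` is contained in the image of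
  `X ×ˢ U1 d` under the injective map `(x,e) ↦ (x, x+e)`; `Finset.sum_image`, `Finset.sum_product`.
* `pair_bdE`: the same injection into `V' ×ˢ U1 d` twice, `ENNReal.toReal_sum` (terms finite by `hfin`).
* `thA_le`: `ClA (ofSet U) O y ⊆ Cl O y` and `theta_shift` (P/Act).
* `thA_mem`: real version, and `0 ≤`.
* `ta_nonneg`, `ta_le_one`, `ta_neg` (from `tau_neg`, P/Act).
-/

set_option autoImplicit false
open MeasureTheory Filter Topology
open scoped ENNReal BigOperators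

namespace Pool.Agent.PB

variable {d : ℕ}

theorem card_U1_le (d : ℕ) : (U1 d).card ≤ 2 * d := by
  unfold U1
  refine Finset.card_image_le.trans ?_
  rw [Finset.card_univ, Fintype.card_prod, Fintype.card_fin, Fintype.card_bool, mul_comm]

private theorem bdE_inj : Function.Injective (fun q : V d × V d => (q.1, q.1 + q.2)) := by
  rintro ⟨a, b⟩ ⟨a', b'⟩ h
  have h1 : a = a' := congrArg Prod.fst h
  have h2 : a + b = a' + b' := congrArg Prod.snd h
  subst h1
  rw [add_left_cancel h2]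

private theorem bdE_subset [DecidableEq (V d × V d)] (X U : Finset (V d)) :
    bdE X U ⊆ (X ×ˢ U1 d).image (fun q => (q.1, q.1 + q.2)) := by
  intro q hq
  obtain ⟨h1, h2, h3⟩ := mem_bdE.1 hq
  rw [Finset.mem_image]
  exact ⟨(q.1, q.2 - q.1), Finset.mem_product.2 ⟨h1, (mem_U1 _).2 h3⟩, by simp⟩

theorem card_bdE_le (X U : Finset (V d)) : (bdE X U).card ≤ 2 * d * X.card := by
  classical
  refine (Finset.card_le_card (bdE_subset X U)).trans (Finset.card_image_le.trans ?_)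
  rw [Finset.card_product, mul_comm]
  exact Nat.mul_le_mul_right _ (card_U1_le d)

/-- sums of nonnegative functions over the boundary edges -/
private theorem sum_bdE_le' {M : Type*} [AddCommMonoid M] [PartialOrder M] [IsOrderedAddMonoid M]
    (X U : Finset (V d)) (f : V d × V d → M) (hf : ∀ q, 0 ≤ f q) :
    ∑ q ∈ bdE X U, f q ≤ ∑ x ∈ X, ∑ e ∈ U1 d, f (x, x + e) := by
  classical
  calc ∑ q ∈ bdE X U, f q ≤ ∑ q ∈ (X ×ˢ U1 d).image (fun q => (q.1, q.1 + q.2)), f q :=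
        Finset.sum_le_sum_of_subset_of_nonneg (bdE_subset X U) (fun q _ _ => hf q)
    _ = ∑ q ∈ X ×ˢ U1 d, f (q.1, q.1 + q.2) :=
        Finset.sum_image (fun a _ b _ h => bdE_inj h)
    _ = _ := Finset.sum_product _ _ _

theorem sum_bdE_le (X U : Finset (V d)) (f : V d → ℝ) (hf : ∀ x, 0 ≤ f x) :
    ∑ q ∈ bdE X U, f q.1 ≤ 2 * d * ∑ x ∈ X, f x := by
  refine (sum_bdE_le' X U (fun q => f q.1) (fun q => hf q.1)).trans ?_
  rw [Finset.mul_sum]
  refine Finset.sum_le_sum fun x _ => ?_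
  show ∑ _e ∈ U1 d, f x ≤ _
  rw [Finset.sum_const, nsmul_eq_mul]
  refine mul_le_mul_of_nonneg_right ?_ (hf x)
  have := card_U1_le d
  exact_mod_cast this

/-- splitting the sum over the boundary edges of `U` according to `x ∈ V'` or `x ∈ U \ V'` -/
theorem sum_bdE_split (V' U : Finset (V d)) (h : V' ⊆ U) (f : V d × V d → ℝ) :
    ∑ q ∈ bdE U U, f q = ∑ q ∈ bdE V' U, f q + ∑ q ∈ bdE (U \ V') U, f q := by
  classical
  rw [← Finset.sum_union]
  · refine Finset.sum_congr ?_ fun _ _ => rfl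
    ext q
    rw [Finset.mem_union, mem_bdE, mem_bdE, mem_bdE, Finset.mem_sdiff]
    constructor
    · rintro ⟨h1, h2, h3⟩
      by_cases hq : q.1 ∈ V'
      · exact Or.inl ⟨hq, h2, h3⟩
      · exact Or.inr ⟨⟨h1, hq⟩, h2, h3⟩
    · rintro (⟨h1, h2, h3⟩ | ⟨h1, h2, h3⟩)
      · exact ⟨h h1, h2, h3⟩
      · exact ⟨h1.1, h2, h3⟩
  · rw [Finset.disjoint_left]
    intro q h1 h2
    have h3 := (mem_bdE.1 h1).1
    have h4 := (mem_bdE.1 h2).1
    rw [Finset.mem_sdiff] at h4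
    exact h4.2 h3

/-- pair sums over boundary edges: `q = (x, x+e')`, `q' = (x', x'+e)`, `q'.2 - q.2 = (x'-x) + e - e'` -/
theorem pair_bdE (hfin : ∀ x : V d, cpow (tau (pc d)) 3 x < ⊤) (V' U : Finset (V d)) :
    ∑ q ∈ bdE V' U, ∑ q' ∈ bdE V' U, (cpow (tau (pc d)) 3 (q'.2 - q.2)).toReal ≤
      ∑ x ∈ V', ∑ x' ∈ V', (t3 (x' - x)).toReal := by
  classical
  have h1 : ∑ q ∈ bdE V' U, ∑ q' ∈ bdE V' U, (cpow (tau (pc d)) 3 (q'.2 - q.2)).toReal ≤
      ∑ x ∈ V', ∑ e' ∈ U1 d, ∑ q' ∈ bdE V' U,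
        (cpow (tau (pc d)) 3 (q'.2 - (x + e'))).toReal :=
    sum_bdE_le' V' U (fun q => ∑ q' ∈ bdE V' U, (cpow (tau (pc d)) 3 (q'.2 - q.2)).toReal)
      (fun q => Finset.sum_nonneg fun _ _ => ENNReal.toReal_nonneg)
  refine h1.trans (Finset.sum_le_sum fun x _ => ?_)
  have h2 : ∀ e' ∈ U1 d, ∑ q' ∈ bdE V' U, (cpow (tau (pc d)) 3 (q'.2 - (x + e'))).toReal ≤
      ∑ x' ∈ V', ∑ e ∈ U1 d, (cpow (tau (pc d)) 3 (x' + e - (x + e'))).toReal := fun e' _ =>
    sum_bdE_le' V' U (fun q' => (cpow (tau (pc d)) 3 (q'.2 - (x + e'))).toReal)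
      (fun q => ENNReal.toReal_nonneg)
  refine (Finset.sum_le_sum h2).trans ?_
  rw [Finset.sum_comm]
  refine Finset.sum_le_sum fun x' _ => ?_
  unfold t3
  rw [Finset.sum_comm, ENNReal.toReal_sum]
  · refine Finset.sum_le_sum fun e _ => ?_
    rw [ENNReal.toReal_sum (fun e' _ => (hfin _).ne)]
    refine Finset.sum_le_sum fun e' _ => ?_
    have e1 : x' + e - (x + e') = x' - x + e - e' := by abel
    rw [e1]
  · intro e _
    rw [ENNReal.sum_ne_top]
    exact fun e' _ => (hfin _).ne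

theorem ta_nonneg (x : V d) : 0 ≤ ta x := ENNReal.toReal_nonneg

theorem ta_le_one (x : V d) : ta x ≤ 1 := by
  unfold ta
  refine ENNReal.toReal_le_of_le_ofReal zero_le_one ?_
  rw [ENNReal.ofReal_one]
  exact tau_le_one _ _

theorem ta_neg (x : V d) : ta (-x) = ta x := by
  unfold ta
  rw [tau_neg]

theorem thA_le (p : ℝ) (U : Set (V d)) (y : V d) :
    thA p (Del.ofSet U) y ≤ theta d p := by
  rw [← theta_shift p y]
  exact measure_mono fun ω hω => Set.Infinite.mono (ClA_subset_Cl _ _ _) hω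

theorem thA_toReal_le (p : ℝ) (U : Set (V d)) (y : V d) :
    (thA p (Del.ofSet U) y).toReal ≤ thr d p := by
  refine ENNReal.toReal_mono ?_ (thA_le p U y)
  exact (measure_lt_top _ _).ne

end Pool.Agent.PB
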