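import Pool.Agent.PB.L.Defs
import Pool.Agent.PB.P.Act
import Pool.Agent.PB.P.Conv

/-!
# PROJECT PB, module PBL-Fin: finiteness of convolution sums at `p_c` (from `Bm d (pc d) 8 < ⊤`)

PLAN. `τ := tau (pc d)`, `τ(0) = 1` (`tau_zero`), `τ` even (`tau_neg`).
* `cpow_tau_le`: `cpow_le_cpow` (P/Conv, `m ≤ 8`) then `cpow_even_le_zero` with `m = 4`; `Bm d (pc d) 8 = cpow τ 8 0` by definition.
* `t3_sum_lt_top`: `Σ_z cpow τ 3 (z + e - e') * conv τ τ z = Σ_z cpow τ 2 z * cpow τ 3 (z - (e' - e)) = conv (cpow τ 2) (cpow τ 3) (e' - e) = cpow τ 5 (e' - e)`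
  (`tsum_mul_sub`, `cpow_even`, `cpow_add`, `cpow_two`), finite; finite sum over `e, e'` (`ENNReal.tsum_add`/`tsum_finsetSum`, `Summable.tsum_finsetSum ENNReal.summable`).
* `far_tendsto`: the total sum `Σ τ(z) (τ*τ)(z) = cpow τ 3 0 < ⊤` (`conv_zero_eq`), the tail over the complement of the boxes tends to 0
  (`ENNReal.tendsto_tsum_compl_atTop_zero`: given `ε` there is a finset `s` with tail `≤ ε`; `s ⊆ bx R 0` for all large `R`).
* `six_sum`: for every `e`: `Σ_z Σ_x Σ_u (τ*τ)(u-z) τ(u-x) τ(z+e-w) (τ*τ)(x-w) = cpow τ 6 e` up to sign of `e` (evenness). Do the sums one after the other: over `z`: `Σ_z (τ*τ)(u-z) τ(z+e-w) = cpow τ 3 (u + e - w)`;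
  over `u`: `Σ_u τ(u-x) cpow τ 3 (u+e-w) = cpow τ 4 (x + e - w)` (even); over `x`: `Σ_x (τ*τ)(x-w) cpow τ 4 (x+e-w) = cpow τ 6 (e)` (even). Only `≤ Bm d (pc d) 8` is claimed.
-/

set_option autoImplicit false
open MeasureTheory Filter Topology
open scoped ENNReal BigOperators

namespace Pool.Agent.PB.L12

variable {d : ℕ}

theorem cpow_tau_le {m : ℕ} (hm : m ≤ 8) (x : V d) : cpow (tau (pc d)) m x ≤ Bm d (pc d) 8 := by
  have h0 : (1 : ℝ≥0∞) ≤ tau (pc d) (0 : V d) := (tau_zero (pc d)).ge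
  refine (cpow_le_cpow h0 hm x).trans ?_
  exact cpow_even_le_zero (tau_neg (pc d)) 4 x

private theorem fin_total_lt_top (h : Bm d (pc d) 8 < ⊤) :
    ∑' z : V d, tau (pc d) z * conv (tau (pc d)) (tau (pc d)) z < ⊤ := by
  rw [← conv_zero_eq (conv_even (tau_neg (pc d)) (tau_neg (pc d))), ← cpow_three]
  exact (cpow_tau_le (by norm_num) _).trans_lt h

theorem t3_sum_lt_top (h : Bm d (pc d) 8 < ⊤) :
    ∑' z : V d, t3 z * conv (tau (pc d)) (tau (pc d)) z < ⊤ := by
  have h1 : ∀ z : V d, t3 z * conv (tau (pc d)) (tau (pc d)) z =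
      ∑ e ∈ U1 d, ∑ e' ∈ U1 d, conv (tau (pc d)) (tau (pc d)) z *
        cpow (tau (pc d)) 3 (z - (e' - e)) := by
    intro z
    unfold t3
    rw [Finset.sum_mul]
    refine Finset.sum_congr rfl fun e _ => ?_
    rw [Finset.sum_mul]
    refine Finset.sum_congr rfl fun e' _ => ?_
    rw [mul_comm]
    congr 2
    abel
  rw [tsum_congr h1, Summable.tsum_finsetSum (fun _ _ => ENNReal.summable)]
  refine ENNReal.sum_lt_top.2 fun e _ => ?_
  rw [Summable.tsum_finsetSum (fun _ _ => ENNReal.summable)]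
  refine ENNReal.sum_lt_top.2 fun e' _ => ?_
  rw [tsum_mul_sub (cpow_even (tau_neg (pc d)) 3) (e' - e), ← cpow_two, ← cpow_add]
  exact (cpow_tau_le (by norm_num) _).trans_lt h

/-- the far part of the triangle -/
noncomputable def FarS (d : ℕ) (R1 : ℕ) : ℝ≥0∞ := by
  classical exact ∑' z : V d, (if z ∉ bx R1 (0 : V d) then
    (tau (pc d) z * conv (tau (pc d)) (tau (pc d)) z) else 0)

theorem farS_lt_top (h : Bm d (pc d) 8 < ⊤) (R1 : ℕ) : FarS d R1 < ⊤ := by
  refine lt_of_le_of_lt ?_ (fin_total_lt_top h)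
  unfold FarS
  refine ENNReal.tsum_le_tsum fun z => ?_
  split_ifs with h1
  · exact bot_le
  · exact le_refl (tau (pc d) z * conv (tau (pc d)) (tau (pc d)) z)

theorem farS_tendsto (h : Bm d (pc d) 8 < ⊤) : Tendsto (fun R1 : ℕ => FarS d R1) atTop (𝓝 0) := by
  classical
  have h1 := ENNReal.tendsto_tsum_compl_atTop_zero (fin_total_lt_top h).ne
  set s : ℕ → Finset (V d) := fun R => Finset.Icc (fun _ => -(R : ℤ)) (fun _ => (R : ℤ)) with hs
  have hmem : ∀ (R : ℕ) (z : V d), z ∈ s R ↔ z ∈ bx R (0 : V d) := by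
    intro R z
    rw [hs, Finset.mem_Icc, Pi.le_def, Pi.le_def]
    unfold bx
    constructor
    · rintro ⟨h2, h3⟩ i
      rw [Pi.zero_apply, sub_zero, abs_le]
      exact ⟨h2 i, h3 i⟩
    · intro h2
      constructor
      · intro i
        have := h2 i
        rw [Pi.zero_apply, sub_zero, abs_le] at this
        exact this.1
      · intro i
        have := h2 i
        rw [Pi.zero_apply, sub_zero, abs_le] at this
        exact this.2
  have hst : Tendsto s atTop atTop := by
    refine tendsto_atTop_finset_of_monotone ?_ ?_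
    · intro a b hab
      refine Finset.Icc_subset_Icc ?_ ?_
      · intro i
        have : (a : ℤ) ≤ b := by exact_mod_cast hab
        change -(b : ℤ) ≤ -(a : ℤ)
        omega
      · intro i
        change (a : ℤ) ≤ (b : ℤ)
        exact_mod_cast hab
    · intro z
      refine ⟨∑ i, (z i).natAbs, ?_⟩
      rw [hmem]
      intro i
      rw [Pi.zero_apply, sub_zero]
      have h2 : (z i).natAbs ≤ ∑ i, (z i).natAbs :=
        Finset.single_le_sum (f := fun i => (z i).natAbs) (fun _ _ => Nat.zero_le _)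
          (Finset.mem_univ i)
      rw [Int.abs_eq_natAbs]
      exact_mod_cast h2
  have h3 := h1.comp hst
  refine h3.congr fun R => ?_
  unfold FarS
  rw [Function.comp_apply]
  have h4 := tsum_subtype {z : V d | z ∉ s R}
    (fun z => tau (pc d) z * conv (tau (pc d)) (tau (pc d)) z)
  refine Eq.trans h4 (tsum_congr fun z => ?_)
  by_cases hz : z ∈ bx R (0 : V d)
  · rw [if_neg (not_not.2 hz)]
    refine Set.indicator_of_notMem ?_ _
    intro h5
    exact h5 ((hmem R z).2 hz)
  · rw [if_pos hz]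
    refine Set.indicator_of_mem ?_ _
    intro h5
    exact hz ((hmem R z).1 h5)

theorem six_sum (w e : V d) :
    ∑' z : V d, ∑' x : V d, ∑' u : V d, conv (tau (pc d)) (tau (pc d)) (u - z) *
      tau (pc d) (u - x) * tau (pc d) (z + e - w) * conv (tau (pc d)) (tau (pc d)) (x - w) ≤
      Bm d (pc d) 8 := by
  have hz : ∀ u : V d, ∑' z : V d, tau (pc d) (z - (w - e)) *
      conv (tau (pc d)) (tau (pc d)) (u - z) = cpow (tau (pc d)) 3 (u - (w - e)) := by
    intro u
    have h1 := conv_shift_left (tau (pc d)) (conv (tau (pc d)) (tau (pc d))) (w - e) u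
    rw [cpow_three, ← h1]
    rfl
  have hu : ∀ x : V d, ∑' u : V d, tau (pc d) (u - x) * cpow (tau (pc d)) 3 (u - (w - e)) =
      cpow (tau (pc d)) 4 (w - e - x) := by
    intro x
    rw [tsum_mul_sub (f := fun u => tau (pc d) (u - x)) (cpow_even (tau_neg (pc d)) 3) (w - e),
      conv_shift_left]
    rfl
  have hx : ∑' x : V d, conv (tau (pc d)) (tau (pc d)) (x - w) *
      cpow (tau (pc d)) 4 (w - e - x) = cpow (tau (pc d)) 6 (-e) := by
    have h1 := conv_shift_left (conv (tau (pc d)) (tau (pc d))) (cpow (tau (pc d)) 4) w (w - e)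
    have h2 : w - e - w = -e := by abel
    rw [h2, ← cpow_two, ← cpow_add] at h1
    rw [← h1]
    rw [cpow_two]
    rfl
  refine le_of_eq_of_le ?_ (cpow_tau_le (by norm_num : 6 ≤ 8) (-e))
  rw [← hx, ENNReal.tsum_comm]
  refine tsum_congr fun x => ?_
  rw [ENNReal.tsum_comm, ← hu, ← ENNReal.tsum_mul_left]
  refine tsum_congr fun u => ?_
  rw [← hz, ← ENNReal.tsum_mul_left, ← ENNReal.tsum_mul_left]
  refine tsum_congr fun z => ?_
  have h3 : z + e - w = z - (w - e) := by abel
  rw [h3]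
  ring

end Pool.Agent.PB.L12
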