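import Pool.Agent.PB.L.Fin

/-!
# PROJECT PB, 12.6: definitions for the (G1) and (G3) modules
-/

set_option autoImplicit false
open MeasureTheory Filter Topology
open scoped ENNReal BigOperators

namespace Pool.Agent.PB.L12

variable {d : ℕ}

/-- the box `Λ_R(0)` as a finset -/
noncomputable def bxF (d : ℕ) (R : ℕ) : Finset (V d) :=
  Fintype.piFinset (fun _ : Fin d => Finset.Icc (-(R : ℤ)) (R : ℤ))

theorem mem_bxF {R : ℕ} {x : V d} : x ∈ bxF d R ↔ x ∈ bx R (0 : V d) := by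
  simp [bxF, bx, abs_le]

/-- `g(L) = Σ_{u ∈ L, |u| > R_1} τ(u)` restricted to the box of radius `R` -/
noncomputable def gfar (R R1 : ℕ) (L : Set (V d)) : ℝ := by
  classical exact ∑ u ∈ bxF d R, if u ∈ L ∧ u ∉ bx R1 (0 : V d) then ta u else 0

/-- the three edge-disjoint connections of 12.6 (G3): `o..w`, `w..y` with at most `r` edges of `O`, and `w..x` with at most
`r` edges of `O` followed by a connection in `Q` -/
def Tri {W : Type*} (O Q : Set (Sym2 W)) (r : ℕ) (o y x : W) : Prop :=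
  ∃ w, ∃ S1 S2 S3 : Set (Sym2 W), S1 ⊆ O ∧ S2 ⊆ O ∧ S3 ⊆ O ∧ Disjoint S1 S2 ∧ Disjoint S1 S3 ∧
    Disjoint S2 S3 ∧ RchL S1 r o w ∧ RchL S2 r w y ∧ ∃ v, RchL S3 r w v ∧ Rch (S3 ∩ Q) v x

/-- `κ = κ_{p,r} * τ` -/
noncomputable def mixk (p : ℝ) (r : ℕ) (x : V d) : ℝ≥0∞ := conv (kap p r) (tau (pc d)) x

end Pool.Agent.PB.L12
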