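import Pool.Agent.PB.L.StopA
import Pool.Agent.PB.L.GDefs

/-!
# PROJECT PB, module PBL-G3a: the three edge-disjoint connections (deterministic)

PLAN.
* `split_path`: let `RchL O r a y`. There is a set `P ∋ a, y` of vertices such that for every `w ∈ P` there are disjoint `S1, S2 ⊆ O ∩ ins P` with `RchL S1 r a w`, `RchL S2 r w y`.
  Proof: let `m ≤ r` be minimal with `RchL O m a y`; prove by induction on `m` the statement
  if `RchL O m a y` and not `RchL O i a y` for `i < m`, then there is `P ∋ a, y`, all `w ∈ P` satisfy `RchL O m a w`, and for all `w ∈ P` there are disjoint `S1, S2 ⊆ O ∩ ins P`,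
  `RchL S1 m a w`, `RchL S2 m w y`. `m = 0`: `P = {a}`, empty sets. `m+1`: `RchL O m a y'`, `s(y',y) ∈ O` (the other alternative contradicts minimality), `m` is minimal for `y'` (otherwise
  `y` would be closer); take `P'` for `y'`, `P = P' ∪ {y}`; `y ∉ P'` (all `w ∈ P'` satisfy `RchL O m a w`). For `w ∈ P'`: `S1` and `S2 ∪ {s(y',y)}` (the new edge is not in `ins P'`); for `w = y`:
  `S1 = S1(y') ∪ {s(y',y)}`, `S2 = ∅` (`RchL.refl`).
* `last_exit`: `a ∈ P`, `RchL O r a v`, `Rch Q v x` ⇒ there are `w ∈ P`, `v'` with `RchL (O \ ins P) r w v'`, `Rch (Q \ ins P) v' x`. Proof: first for `RchL` alone (induction on `r`: a new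
  vertex in `P` restarts with `w` = this vertex, otherwise the new edge is not in `ins P`), then induction along `Rch Q v x` (`Rch.induct`), same argument (a vertex `b ∈ P` restarts with `w = v' = b`).
* `tri_of`: `RchL O r o y`, `RchL O r o v`, `Rch Q v x`, `Q ⊆ O` ⇒ `Tri O Q r o y x`: `P` from `split_path` for `y`, `w ∈ P` and `v'` from `last_exit` with `a = o ∈ P`; `S1, S2 ⊆ O ∩ ins P`, `S3 := O \ ins P`
  (`Q \ ins P ⊆ S3 ∩ Q`).
* `rchL_off`: if every `x` with `RchL O i 0 x` is outside `K`, then `RchL O i 0 y → RchL ((Del.ofSet K).rem O) i 0 y` (induction on `i`).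
* `g3_det`: `StopD O Q n j z V1 U`, `x ∈ U`, `x ∉ V1`. By `ecl`: `x ∈ Cl Q z'` with `Bef O j z z'`. `j ≥ 1`: if `j = 0` then `Bef` gives `z' = 0 = z` and `enc z' < enc z`, impossible. Since `z ∈ Sph O j 0`, `j = i+1`:
  there is `y` with `RchL O i 0 y`, `s(y,z) ∈ O`. All `x'` with `RchL O i 0 x'` are `Bef`, hence not in `V1` (`StopD.notMem` with `self_mem_Cl`); in particular `y ∉ V1`. By `rchL_off`: `RchL (O^{V1}) r 0 y`
  (`i ≤ j ≤ r`, `RchL.mono_len`). For `z'`: `RchL O j 0 z'` (both cases of `Bef`), all vertices at distance `≤ i` are outside `V1` and `z' ∉ V1` too (`notMem`), so `RchL (O^{V1}) j 0 z'` (last step: the new edge has both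
  endpoints outside `V1`), and `Rch (Q^{V1}) z' x` since `Cl Q z'` is disjoint from `V1` (`Rch.inside`, `notMem`). Apply `tri_of` to `O^{V1}`, `Q^{V1}`.
-/

set_option autoImplicit false
open MeasureTheory Filter Topology
open scoped ENNReal BigOperators

namespace Pool.Agent.PB.L12

variable {d : ℕ} {W : Type*}

theorem split_path_aux {O : Set (Sym2 W)} {a : W} (m : ℕ) : ∀ y : W, RchL O m a y →
    (∀ i < m, ¬ RchL O i a y) →
    ∃ P : Set W, a ∈ P ∧ y ∈ P ∧ (∀ w ∈ P, RchL O m a w) ∧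
      ∀ w ∈ P, ∃ S1 S2 : Set (Sym2 W), S1 ⊆ O ∩ ins P ∧ S2 ⊆ O ∩ ins P ∧
      Disjoint S1 S2 ∧ RchL S1 m a w ∧ RchL S2 m w y := by
  induction m with
  | zero =>
    intro y h _
    have h' : a = y := h
    subst h'
    refine ⟨{a}, Set.mem_singleton a, Set.mem_singleton a, ?_, ?_⟩
    · intro w hw
      rw [Set.mem_singleton_iff] at hw
      rw [hw]
      exact RchL.refl _ _ _
    · intro w hw
      rw [Set.mem_singleton_iff] at hw
      rw [hw]
      exact ⟨∅, ∅, Set.empty_subset _, Set.empty_subset _, disjoint_bot_left,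
        RchL.refl _ _ _, RchL.refl _ _ _⟩
  | succ m ih =>
    intro y h hmin
    rcases h with h | ⟨z, hz, hzy⟩
    · exact absurd h (hmin m (Nat.lt_succ_self m))
    · have hzmin : ∀ i < m, ¬ RchL O i a z := by
        intro i hi hiz
        exact hmin (i + 1) (Nat.succ_lt_succ hi) (Or.inr ⟨z, hiz, hzy⟩)
      obtain ⟨P, haP, hzP, hP1, hP2⟩ := ih z hz hzmin
      have hyP : y ∉ P := fun hy => hmin m (Nat.lt_succ_self m) (hP1 y hy)
      have hins : ins P ⊆ ins (insert y P) := by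
        intro e he x hx
        exact Or.inr (he x hx)
      have hnew : s(z, y) ∈ ins (insert y P) := by
        intro x hx
        rcases Sym2.mem_iff.1 hx with rfl | rfl
        · exact Or.inr hzP
        · exact Or.inl rfl
      have hnot : s(z, y) ∉ ins P := fun he => hyP (he y (Sym2.mem_mk_right z y))
      have hsub : O ∩ ins P ⊆ O ∩ ins (insert y P) := Set.inter_subset_inter_right _ hins
      refine ⟨insert y P, Or.inr haP, Or.inl rfl, ?_, ?_⟩
      · rintro w (rfl | hw)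
        · exact Or.inr ⟨z, hz, hzy⟩
        · exact Or.inl (hP1 w hw)
      · rintro w (rfl | hw)
        · obtain ⟨S1, S2, h1, h2, h3, h4, h5⟩ := hP2 z hzP
          refine ⟨insert s(z, w) S1, ∅, ?_, Set.empty_subset _, disjoint_bot_right, ?_,
            RchL.refl _ _ _⟩
          · exact Set.insert_subset ⟨hzy, hnew⟩ (h1.trans hsub)
          · exact Or.inr ⟨z, h4.mono (Set.subset_insert _ _), Set.mem_insert _ _⟩
        · obtain ⟨S1, S2, h1, h2, h3, h4, h5⟩ := hP2 w hw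
          refine ⟨S1, insert s(z, y) S2, h1.trans hsub,
            Set.insert_subset ⟨hzy, hnew⟩ (h2.trans hsub), ?_, Or.inl h4, ?_⟩
          · rw [Set.disjoint_insert_right]
            exact ⟨fun he => hnot (h1 he).2, h3⟩
          · exact Or.inr ⟨z, h5.mono (Set.subset_insert _ _), Set.mem_insert _ _⟩

theorem split_path {O : Set (Sym2 W)} {r : ℕ} {a y : W} (h : RchL O r a y) :
    ∃ P : Set W, a ∈ P ∧ y ∈ P ∧ ∀ w ∈ P, ∃ S1 S2 : Set (Sym2 W), S1 ⊆ O ∩ ins P ∧ S2 ⊆ O ∩ ins P ∧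
      Disjoint S1 S2 ∧ RchL S1 r a w ∧ RchL S2 r w y := by
  classical
  have hex : ∃ m, RchL O m a y := ⟨r, h⟩
  have hm := Nat.find_spec hex
  have hmin : ∀ i < Nat.find hex, ¬ RchL O i a y := fun i hi => Nat.find_min hex hi
  have hle : Nat.find hex ≤ r := Nat.find_min' hex h
  obtain ⟨P, h1, h2, _, h4⟩ := split_path_aux (Nat.find hex) y hm hmin
  refine ⟨P, h1, h2, ?_⟩
  intro w hw
  obtain ⟨S1, S2, g1, g2, g3, g4, g5⟩ := h4 w hw
  exact ⟨S1, S2, g1, g2, g3, g4.mono_len hle, g5.mono_len hle⟩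

theorem last_exit_aux {O : Set (Sym2 W)} {P : Set W} {a : W} (ha : a ∈ P) (n : ℕ) :
    ∀ v, RchL O n a v → ∃ w ∈ P, RchL (O \ ins P) n w v := by
  induction n with
  | zero =>
    intro v h
    have h' : a = v := h
    subst h'
    exact ⟨a, ha, rfl⟩
  | succ n ih =>
    intro v h
    rcases h with h | ⟨z, hz, hzv⟩
    · obtain ⟨w, hw, h1⟩ := ih v h
      exact ⟨w, hw, Or.inl h1⟩
    · by_cases hv : v ∈ P
      · exact ⟨v, hv, RchL.refl _ _ _⟩
      · obtain ⟨w, hw, h1⟩ := ih z hz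
        exact ⟨w, hw, Or.inr ⟨z, h1, hzv, fun he => hv (he v (Sym2.mem_mk_right z v))⟩⟩

theorem last_exit {O Q : Set (Sym2 W)} {P : Set W} {r : ℕ} {a v x : W} (ha : a ∈ P)
    (h1 : RchL O r a v) (h2 : Rch Q v x) :
    ∃ w ∈ P, ∃ v', RchL (O \ ins P) r w v' ∧ Rch (Q \ ins P) v' x := by
  obtain ⟨w0, hw0, h3⟩ := last_exit_aux ha r v h1
  refine Rch.induct
    (P := fun z => ∃ w ∈ P, ∃ v', RchL (O \ ins P) r w v' ∧ Rch (Q \ ins P) v' z)
    ⟨w0, hw0, v, h3, Rch.refl _ _⟩ ?_ h2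
  rintro y z _ hyz ⟨w, hw, v', h4, h5⟩
  by_cases hz : z ∈ P
  · exact ⟨z, hz, z, RchL.refl _ _ _, Rch.refl _ _⟩
  · exact ⟨w, hw, v', h4, h5.tail ⟨hyz, fun he => hz (he z (Sym2.mem_mk_right y z))⟩⟩

theorem tri_of {O Q : Set (Sym2 W)} (hQ : Q ⊆ O) {r : ℕ} {o y v x : W} (h1 : RchL O r o y)
    (h2 : RchL O r o v) (h3 : Rch Q v x) : Tri O Q r o y x := by
  obtain ⟨P, hoP, _, hP⟩ := split_path h1
  obtain ⟨w, hw, v', h4, h5⟩ := last_exit hoP h2 h3
  obtain ⟨S1, S2, g1, g2, g3, g4, g5⟩ := hP w hw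
  refine ⟨w, S1, S2, O \ ins P, fun e he => (g1 he).1, fun e he => (g2 he).1,
    fun e he => he.1, g3, ?_, ?_, g4, g5, v', h4, ?_⟩
  · rw [Set.disjoint_left]
    exact fun e he he' => he'.2 (g1 he).2
  · rw [Set.disjoint_left]
    exact fun e he he' => he'.2 (g2 he).2
  · have hsub : Q \ ins P ⊆ (O \ ins P) ∩ Q := fun e he => ⟨⟨hQ he.1, he.2⟩, he.1⟩
    exact h5.mono hsub

theorem rchL_off {O : Set (Sym2 W)} {K : Set W} {a : W} (n : ℕ) :
    (∀ x, RchL O n a x → x ∉ K) → ∀ y, RchL O n a y → RchL ((Del.ofSet K).rem O) n a y := by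
  induction n with
  | zero => exact fun _ y h => h
  | succ n ih =>
    intro hK y h
    have hK' : ∀ x, RchL O n a x → x ∉ K := fun x hx => hK x (Or.inl hx)
    rcases h with h | ⟨z, hz, hzy⟩
    · exact Or.inl (ih hK' y h)
    · refine Or.inr ⟨z, ih hK' z hz, ?_⟩
      rw [Del.ofSet_rem]
      refine ⟨hzy, ?_⟩
      intro x hx
      rcases Sym2.mem_iff.1 hx with rfl | rfl
      · exact hK' _ hz
      · exact hK _ (Or.inr ⟨z, hz, hzy⟩)

theorem g3_det {O Q : Set (Sym2 (V d))} (hQ : Q ⊆ O) {n : ℝ} {j r : ℕ} (hj : j ≤ r) {z x : V d}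
    {V1 U : Finset (V d)} (h : StopD O Q n j z V1 U) (hx : x ∈ U) (hx1 : x ∉ V1) :
    ∃ y, s(z, y) ∈ O ∧ y ∉ V1 ∧ Tri ((Del.ofSet (V1 : Set (V d))).rem O)
      ((Del.ofSet (V1 : Set (V d))).rem Q) r 0 y x := by
  have hxU : x ∈ (U : Set (V d)) := hx
  rw [h.ecl] at hxU
  rcases hxU with hxU | hxU
  · exact absurd hxU hx1
  rw [Set.mem_iUnion₂] at hxU
  obtain ⟨z', hb, hxz⟩ := hxU
  have hb : Bef O j z z' := hb
  have hz'r : RchL O j 0 z' := by
    rcases hb with ⟨i, hi, h1⟩ | ⟨h1, _⟩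
    · exact h1.mono_len hi.le
    · exact h1
  cases j with
  | zero =>
    rcases hb with ⟨i, hi, _⟩ | ⟨h1, h2⟩
    · exact absurd hi (Nat.not_lt_zero i)
    · have e1 : (0 : V d) = z' := h1
      have e2 : (0 : V d) = z := h.sph.1
      rw [← e1, ← e2] at h2
      exact absurd h2 (lt_irrefl _)
  | succ i =>
    have hoff : ∀ x', RchL O i 0 x' → x' ∉ V1 := by
      intro x' hx'
      exact h.notMem (Or.inl ⟨i, Nat.lt_succ_self i, hx'⟩) x' (self_mem_Cl Q x')
    have hoff' : ∀ x', RchL O i 0 x' → x' ∉ (V1 : Set (V d)) := fun x' hx' => hoff x' hx'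
    obtain ⟨hz1, hz2⟩ := h.sph
    rcases hz1 with hz1 | ⟨y, hy, hyz⟩
    · exact absurd hz1 (hz2 i (Nat.lt_succ_self i))
    have hz'V : z' ∉ V1 := h.notMem hb z' (self_mem_Cl Q z')
    have hir : i ≤ r := (Nat.le_succ i).trans hj
    have h3 : RchL ((Del.ofSet (V1 : Set (V d))).rem O) r 0 z' := by
      rcases hz'r with h4 | ⟨u, hu, huz⟩
      · exact (rchL_off i hoff' z' h4).mono_len hir
      · have h5 : RchL ((Del.ofSet (V1 : Set (V d))).rem O) (i + 1) 0 z' := by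
          refine Or.inr ⟨u, rchL_off i hoff' u hu, ?_⟩
          rw [Del.ofSet_rem]
          refine ⟨huz, ?_⟩
          intro x' hx'
          rcases Sym2.mem_iff.1 hx' with rfl | rfl
          · exact hoff' _ hu
          · exact fun hc => hz'V (Finset.mem_coe.1 hc)
        exact h5.mono_len hj
    have h4 : Rch ((Del.ofSet (V1 : Set (V d))).rem Q) z' x := by
      refine (Rch.inside hxz).mono ?_
      rintro e ⟨he1, he2⟩
      rw [Del.ofSet_rem]
      exact ⟨he1, fun x' hx' hc => h.notMem hb x' (he2 x' hx') (Finset.mem_coe.1 hc)⟩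
    refine ⟨y, ?_, hoff y hy, tri_of (Del.rem_mono _ hQ)
      ((rchL_off i hoff' y hy).mono_len hir) h3 h4⟩
    rw [Sym2.eq_swap]
    exact hyz

end Pool.Agent.PB.L12
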