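import Pool.Agent.PB.L.Ele

/-!
# PROJECT PB, module PBL-StepA: the lower bound for the mean in 12.4

`c1 = 1/(6 d Cθ p_c)`, `H = 2 (2R1+1)^d`. CONCLUSION: `ε₁ |V'| / (p_c H) ≤ Σ_{(x,y), x ∈ V', y ∉ U} θ_y^U(p_c+ε₁)`.

PLAN. Write `θ q := (thA (pc d + ε₁) (Del.ofSet U) q.2).toReal`, `0 ≤ θ q ≤ Cθ ε₁` (`thA_toReal_le`, hypothesis `hθ`),
`n' = |V'|`. By 12.1 (`hI.h1`): `ε₁ n' ≤ (p_c/2) Σ_{q ∈ bdE U U} hV V' q.1 * θ q`. Split (`sum_bdE_split`):
(1) over `bdE (U \ V') U`: `≤ Cθ ε₁ Σ_{bdE (U\V') U} hV V' q.1 ≤ Cθ ε₁ 2d Σ_{x ∈ U\V'} hV V' x ≤ 2d Cθ ε₁ c1 n'` (G3, `sum_bdE_le`),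
   times `p_c/2`: `= d Cθ p_c c1 ε₁ n' = ε₁ n'/6`.
(2) over `bdE V' U`: pointwise `hV V' x ≤ (2R1+1)^d + hF R1 V' x` (the terms with `u ∈ bx R1 x` are at most
   `(2R1+1)^d` in number - `V' ∩ bx R1 x` is a subset of the image of `Fintype.piFinset (fun _ => Finset.Icc (-R1) R1)`
   under `x + ·` - and each is `≤ 1`), hence `hV V' x ≤ H + 2 hF R1 V' x` with `H := 2(2R1+1)^d`
   [if `hV V' x ≤ H` clear since `hF ≥ 0`; otherwise `hF ≥ hV - H/2 > hV/2`]. So the sum is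
   `≤ H Σ_{bdE V' U} θ q + 2 Cθ ε₁ Σ_{bdE V' U} hF R1 V' q.1 ≤ H Σ θ + 2 Cθ ε₁ 2d c1 n'` (G1), and `(p_c/2)` times the second
   term is `ε₁ n'/3`.
(3) `ε₁ n' (1 - 1/6 - 1/3) ≤ (p_c H/2) Σ θ`.
-/

set_option autoImplicit false
open MeasureTheory Filter Topology
open scoped ENNReal BigOperators

namespace Pool.Agent.PB

variable {d : ℕ}

theorem stepA (hd : 1 ≤ d) (hpc : 0 < pc d) (hI : In12 d) (Cθ : ℝ) (hC : 0 < Cθ)
    (hθ : ∀ p : ℝ, pc d ≤ p → p ≤ 1 → thr d p ≤ Cθ * (p - pc d)) (R1 : ℕ)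
    (V' U : Finset (V d)) (hVU : V' ⊆ U) (ε₁ : ℝ) (h0 : 0 < ε₁) (h1 : ε₁ ≤ 1 / 4)
    (h2 : pc d + ε₁ ≤ 1)
    (hG1 : G1 R1 (1 / (6 * d * Cθ * pc d)) V') (hG3 : G3 (1 / (6 * d * Cθ * pc d)) V' U) :
    ε₁ * V'.card / (pc d * (2 * (2 * R1 + 1) ^ d)) ≤
      ∑ q ∈ bdE V' U, (thA (pc d + ε₁) (Del.ofSet (U : Set (V d))) q.2).toReal := by
  classical
  set θ : V d × V d → ℝ := fun q => (thA (pc d + ε₁) (Del.ofSet (U : Set (V d))) q.2).toReal
    with hθdef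
  have hθ0 : ∀ q, 0 ≤ θ q := fun q => ENNReal.toReal_nonneg
  have hθ1 : ∀ q, θ q ≤ Cθ * ε₁ := by
    intro q
    have h3 : θ q ≤ thr d (pc d + ε₁) := thA_toReal_le _ _ _
    have h4 := hθ (pc d + ε₁) (by linarith) h2
    have h5 : Cθ * (pc d + ε₁ - pc d) = Cθ * ε₁ := by ring
    linarith
  have hV0 : ∀ x, 0 ≤ hV V' x := fun x => Finset.sum_nonneg fun u _ => ta_nonneg _
  have hF0 : ∀ x, 0 ≤ hF R1 V' x := by
    intro x
    unfold hF
    refine Finset.sum_nonneg fun u _ => ?_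
    split_ifs
    · exact le_rfl
    · exact ta_nonneg _
  have hdR : (1 : ℝ) ≤ d := by exact_mod_cast hd
  set c1 : ℝ := 1 / (6 * d * Cθ * pc d) with hc1
  have hc1pos : 0 < c1 := by
    rw [hc1]
    have : (0 : ℝ) < d := by linarith
    positivity
  have hCe : 0 ≤ Cθ * ε₁ := by positivity
  have hloc : ∀ x, hV V' x ≤ (2 * R1 + 1 : ℝ) ^ d + hF R1 V' x := by
    intro x
    have hsplit : hV V' x = (∑ u ∈ V', if u ∈ bx R1 x then ta (u - x) else 0) + hF R1 V' x := by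
      unfold hV hF
      rw [← Finset.sum_add_distrib]
      refine Finset.sum_congr rfl fun u _ => ?_
      by_cases h : u ∈ bx R1 x
      · simp [h]
      · simp [h]
    have hcard : ((V'.filter fun u => u ∈ bx R1 x).card : ℝ) ≤ (2 * R1 + 1 : ℝ) ^ d := by
      have h3 : (V'.filter fun u => u ∈ bx R1 x).card ≤
          (Fintype.piFinset (fun _ : Fin d => Finset.Icc (-(R1 : ℤ)) R1)).card := by
        refine Finset.card_le_card_of_injOn (fun u => u - x) ?_ ?_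
        · intro u hu
          have hu' := (Finset.mem_filter.1 (Finset.mem_coe.1 hu)).2
          rw [Finset.mem_coe, Fintype.mem_piFinset]
          intro i
          have h5 : |u i - x i| ≤ (R1 : ℤ) := hu' i
          rw [Finset.mem_Icc]
          exact abs_le.1 h5
        · intro u _ u' _ h
          exact sub_left_injective h
      rw [Fintype.card_piFinset] at h3
      simp only [Int.card_Icc, Finset.prod_const, Finset.card_univ, Fintype.card_fin] at h3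
      have h4 : ((R1 : ℤ) + 1 - -(R1 : ℤ)).toNat = 2 * R1 + 1 := by omega
      rw [h4] at h3
      exact_mod_cast h3
    have hsum : (∑ u ∈ V', if u ∈ bx R1 x then ta (u - x) else 0) ≤
        ((V'.filter fun u => u ∈ bx R1 x).card : ℝ) := by
      rw [← Finset.sum_filter]
      calc ∑ u ∈ V'.filter (fun u => u ∈ bx R1 x), ta (u - x)
          ≤ ∑ u ∈ V'.filter (fun u => u ∈ bx R1 x), (1 : ℝ) :=
            Finset.sum_le_sum fun u _ => ta_le_one _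
        _ = _ := by simp
    rw [hsplit]
    linarith
  have h12 := hI.h1 U V' hVU ε₁ h0 h1 h2
  rw [sum_bdE_split V' U hVU] at h12
  have hS2 : ∑ q ∈ bdE (U \ V') U, hV V' q.1 * θ q ≤ Cθ * ε₁ * (2 * d * (c1 * V'.card)) := by
    calc ∑ q ∈ bdE (U \ V') U, hV V' q.1 * θ q
        ≤ ∑ q ∈ bdE (U \ V') U, (Cθ * ε₁) * hV V' q.1 := by
          refine Finset.sum_le_sum fun q _ => ?_
          rw [mul_comm]
          exact mul_le_mul_of_nonneg_right (hθ1 q) (hV0 _)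
      _ = (Cθ * ε₁) * ∑ q ∈ bdE (U \ V') U, hV V' q.1 := by rw [Finset.mul_sum]
      _ ≤ (Cθ * ε₁) * (2 * d * ∑ x ∈ U \ V', hV V' x) :=
          mul_le_mul_of_nonneg_left (sum_bdE_le _ _ _ hV0) hCe
      _ ≤ Cθ * ε₁ * (2 * d * (c1 * V'.card)) := by
          refine mul_le_mul_of_nonneg_left ?_ hCe
          exact mul_le_mul_of_nonneg_left hG3 (by positivity)
  have hS1 : ∑ q ∈ bdE V' U, hV V' q.1 * θ q ≤
      (2 * (2 * R1 + 1) ^ d) * ∑ q ∈ bdE V' U, θ q + 2 * (Cθ * ε₁ * (2 * d * (c1 * V'.card))) := by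
    calc ∑ q ∈ bdE V' U, hV V' q.1 * θ q
        ≤ ∑ q ∈ bdE V' U, ((2 * (2 * R1 + 1) ^ d) * θ q + 2 * ((Cθ * ε₁) * hF R1 V' q.1)) := by
          refine Finset.sum_le_sum fun q _ => ?_
          have h3 : hV V' q.1 * θ q ≤ ((2 * R1 + 1 : ℝ) ^ d + hF R1 V' q.1) * θ q :=
            mul_le_mul_of_nonneg_right (hloc q.1) (hθ0 q)
          have h4 : hF R1 V' q.1 * θ q ≤ (Cθ * ε₁) * hF R1 V' q.1 := by
            rw [mul_comm]
            exact mul_le_mul_of_nonneg_right (hθ1 q) (hF0 _)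
          have h5 : 0 ≤ (Cθ * ε₁) * hF R1 V' q.1 := mul_nonneg hCe (hF0 _)
          have h6 : 0 ≤ (2 * R1 + 1 : ℝ) ^ d * θ q := mul_nonneg (by positivity) (hθ0 q)
          nlinarith
      _ = (2 * (2 * R1 + 1) ^ d) * ∑ q ∈ bdE V' U, θ q +
          2 * ((Cθ * ε₁) * ∑ q ∈ bdE V' U, hF R1 V' q.1) := by
          rw [Finset.sum_add_distrib, ← Finset.mul_sum, ← Finset.mul_sum, ← Finset.mul_sum]
      _ ≤ _ := by
          have h3 : (Cθ * ε₁) * ∑ q ∈ bdE V' U, hF R1 V' q.1 ≤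
              Cθ * ε₁ * (2 * d * (c1 * V'.card)) := by
            refine mul_le_mul_of_nonneg_left ?_ hCe
            refine (sum_bdE_le _ _ _ hF0).trans ?_
            exact mul_le_mul_of_nonneg_left hG1 (by positivity)
          linarith
  have hkey : (pc d / 2) * (3 * (Cθ * ε₁ * (2 * d * (c1 * V'.card)))) = ε₁ * V'.card / 2 := by
    rw [hc1]
    have : (d : ℝ) ≠ 0 := by linarith
    have h3 : Cθ ≠ 0 := hC.ne'
    have h4 : pc d ≠ 0 := hpc.ne'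
    field_simp
    ring
  have hfin : ε₁ * V'.card ≤ (pc d / 2) * ((2 * (2 * R1 + 1) ^ d) * ∑ q ∈ bdE V' U, θ q) +
      ε₁ * V'.card / 2 := by
    rw [← hkey]
    have h3 : (pc d / 2) * (∑ q ∈ bdE V' U, hV V' q.1 * θ q +
        ∑ q ∈ bdE (U \ V') U, hV V' q.1 * θ q) ≤
        (pc d / 2) * ((2 * (2 * R1 + 1) ^ d) * ∑ q ∈ bdE V' U, θ q +
          3 * (Cθ * ε₁ * (2 * d * (c1 * V'.card)))) :=
      mul_le_mul_of_nonneg_left (by linarith) (by positivity)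
    refine h12.trans (h3.trans (le_of_eq ?_))
    ring
  rw [div_le_iff₀ (by positivity)]
  have h7 : (∑ q ∈ bdE V' U, θ q) * (pc d * (2 * (2 * R1 + 1) ^ d)) =
      2 * ((pc d / 2) * ((2 * (2 * R1 + 1) ^ d) * ∑ q ∈ bdE V' U, θ q)) := by ring
  rw [h7]
  linarith

end Pool.Agent.PB
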