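import Pool.Agent.PB.L.Defs

/-!
# PROJECT PB, Section 12.5: the exploration until the first large critical cluster (definitions)

`O` = p-open edges, `Q ⊆ O` = p_c-open edges. `StopD O Q n j z V1 U`: the exploration stops at distance `j` at the
vertex `z` (first one in the order (distance, `enc`) whose `Q`-cluster has at least `n` vertices), `V1 = C(Q,z)` and
`U = V1 ∪ ⋃ {C(Q,z') : z' before z}`.
-/

set_option autoImplicit false
open MeasureTheory Filter Topology
open scoped ENNReal BigOperators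

namespace Pool.Agent.PB

variable {d : ℕ}

/-- a fixed enumeration of the vertices -/
noncomputable def enc (x : V d) : ℕ := Classical.choose (exists_injective_nat (V d)) x

theorem enc_injective : Function.Injective (enc (d := d)) :=
  Classical.choose_spec (exists_injective_nat (V d))

/-- `z'` is looked at before `z` (at distance `j`) -/
def Bef (O : Set (Sym2 (V d))) (j : ℕ) (z z' : V d) : Prop :=
  (∃ i < j, RchL O i 0 z') ∨ (RchL O j 0 z' ∧ enc z' < enc z)

/-- the exploration stops at `(j, z)` with `V' = V1`, `Ecl = U` -/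
structure StopD (O Q : Set (Sym2 (V d))) (n : ℝ) (j : ℕ) (z : V d) (V1 U : Finset (V d)) : Prop where
  sph : z ∈ Sph O j 0
  cl : Cl Q z = (V1 : Set (V d))
  big : n ≤ (V1.card : ℝ)
  small : ∀ z', Bef O j z z' → (Cl Q z').Finite ∧ ((Cl Q z').ncard : ℝ) < n
  ecl : (U : Set (V d)) = (V1 : Set (V d)) ∪ ⋃ z' ∈ {z' | Bef O j z z'}, Cl Q z'

/-- the event -/
def StopE (p n : ℝ) (j : ℕ) (z : V d) (V1 U : Finset (V d)) : Set (Om d) :=
  {ω | StopD (opn p ω) (Oc ω) n j z V1 U}

/-- the undirected edges between `V1` and the complement of `U` -/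
def Bset (V1 U : Finset (V d)) : Set (Sym2 (V d)) := und '' (bdE V1 U : Set (V d × V d))

theorem StopD.subset {O Q : Set (Sym2 (V d))} {n : ℝ} {j : ℕ} {z : V d} {V1 U : Finset (V d)}
    (h : StopD O Q n j z V1 U) : V1 ⊆ U := by
  intro x hx
  have : x ∈ (U : Set (V d)) := by rw [h.ecl]; exact Or.inl hx
  exact this

theorem StopD.mem_U {O Q : Set (Sym2 (V d))} {n : ℝ} {j : ℕ} {z z' : V d} {V1 U : Finset (V d)}
    (h : StopD O Q n j z V1 U) (hz : Bef O j z z') : Cl Q z' ⊆ (U : Set (V d)) := by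
  rw [h.ecl]
  exact fun x hx => Or.inr (Set.mem_biUnion (x := z') hz hx)

/-- a vertex before `z` is not in `V1` -/
theorem StopD.notMem {O Q : Set (Sym2 (V d))} {n : ℝ} {j : ℕ} {z z' : V d} {V1 U : Finset (V d)}
    (h : StopD O Q n j z V1 U) (hz : Bef O j z z') : ∀ x ∈ Cl Q z', x ∉ V1 := by
  intro x hx hxV
  have h1 : x ∈ Cl Q z := by rw [h.cl]; exact hxV
  have h2 : Cl Q z' = Cl Q z := by rw [← Cl_eq_of_mem hx, ← Cl_eq_of_mem h1]
  have h3 := (h.small z' hz).2
  rw [h2, h.cl, Set.ncard_coe_finset] at h3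
  exact absurd h.big (not_le.2 h3)

end Pool.Agent.PB
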