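import Pool.Agent.PB.L.Stop
import Pool.Agent.PB.P.Loc

/-!
# PROJECT PB, module PBL-StopA: uniqueness, existence and consequences of `StopD`

PLAN.
* `StopD.unique`: if `j < j'`: `z ∈ Sph O j 0` gives `RchL O j 0 z`, so `Bef O j' z' z`, so `|C(Q,z)| < n` (h'.small), but
  `C(Q,z) = V1` has `≥ n` elements. `j = j'`, `enc z < enc z'`: the same. So `j = j'`, `z = z'` (`enc_injective`), then
  `V1 = V1'` (`cl`), `U = U'` (`ecl`).
* `StopD.exists`: let `P j := ∃ z, RchL O j 0 z ∧ n ≤ |C(Q,z)|`; `j := Nat.find`, `j ≤ r`; among the `z` of `P j` choose one with minimal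
  `enc z` (`WellFounded.min` / `Nat.find` on the set of codes). By minimality of `j`, `z ∈ Sph O j 0` and all `z'` with `RchL O i 0 z'`, `i < j`
  have `|C(Q,z')| < n`; by minimality of `enc z` the others as well. `V1 := (Cl Q z)` as a Finset; `U` := the Finset of the finite set
  `V1 ∪ ⋃ ..` (finite: `{z' | Bef}` is contained in `⋃_{i ≤ j} {z' | RchL O i 0 z'}`, finite by `hball`, and every cluster is finite by `hfin`).
* `ball_finite`: `{z | RchL O i x z}` is finite when every edge of `O` is a lattice edge: induction on `i`; the new vertices are `y + e`, `e ∈ U1 d`.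
* `StopD.to_inf`: `q ∈ bdE V1 U`, `s(q) ∈ opn p`, `q.2 → ∞` off `U`: `0` is joined to `z` (`h.sph.1`, `RchL.rch`) in `O`, `z` to `q.1 ∈ V1 = C(Q,z)` in
  `Q ⊆ O`, then the edge `und q ∈ O`, then `Cl O q.2 ⊇ ClA (ofSet U) O q.2` is infinite; `Cl O 0 = Cl O q.2`.
* `stopE_good_subset`: from `StopD.to_inf`; on `GoodEv` the edge `und q` is in `opn p ω` since `q ∈ bdE` gives `l1 (q.2-q.1) = 1` (`mem_opn`).
-/

set_option autoImplicit false
open MeasureTheory Filter Topology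
open scoped ENNReal BigOperators

namespace Pool.Agent.PB

variable {d : ℕ}


theorem StopD.not_bef {O Q : Set (Sym2 (V d))} {n : ℝ} {j j' : ℕ} {z z' : V d}
    {V1 U V1' U' : Finset (V d)} (h : StopD O Q n j z V1 U) (h' : StopD O Q n j' z' V1' U') :
    ¬ Bef O j' z' z := by
  intro hb
  have h1 := (h'.small z hb).2
  rw [h.cl, Set.ncard_coe_finset] at h1
  exact absurd h.big (not_le.2 h1)

theorem StopD.unique {O Q : Set (Sym2 (V d))} {n : ℝ} {j j' : ℕ} {z z' : V d}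
    {V1 U V1' U' : Finset (V d)} (h : StopD O Q n j z V1 U) (h' : StopD O Q n j' z' V1' U') :
    j = j' ∧ z = z' ∧ V1 = V1' ∧ U = U' := by
  have hj : j = j' := by
    rcases lt_trichotomy j j' with hlt | heq | hgt
    · exact absurd (Or.inl ⟨j, hlt, h.sph.1⟩) (h.not_bef h')
    · exact heq
    · exact absurd (Or.inl ⟨j', hgt, h'.sph.1⟩) (h'.not_bef h)
  subst hj
  have hz : z = z' := by
    rcases lt_trichotomy (enc z) (enc z') with hlt | heq | hgt
    · exact absurd (Or.inr ⟨h.sph.1, hlt⟩) (h.not_bef h')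
    · exact enc_injective heq
    · exact absurd (Or.inr ⟨h'.sph.1, hgt⟩) (h'.not_bef h)
  subst hz
  have hV : V1 = V1' := Finset.coe_injective (by rw [← h.cl, ← h'.cl])
  subst hV
  refine ⟨rfl, rfl, rfl, Finset.coe_injective ?_⟩
  rw [h.ecl, h'.ecl]

theorem ball_finite {O : Set (Sym2 (V d))} (hO : O ⊆ (lat d).edgeSet) (i : ℕ) (x : V d) :
    {z | RchL O i x z}.Finite := by
  induction i with
  | zero =>
    refine (Set.finite_singleton x).subset ?_
    intro z hz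
    have : x = z := hz
    exact this.symm
  | succ i ih =>
    refine (ih.union (ih.biUnion (t := fun y => (fun e => y + e) '' (U1 d : Set (V d)))
      fun y _ => (U1 d).finite_toSet.image _)).subset ?_
    rintro z (hz | ⟨y, hy, hyz⟩)
    · exact Or.inl hz
    · refine Or.inr (Set.mem_biUnion (x := y) hy ⟨z - y, ?_, add_sub_cancel y z⟩)
      have h1 := hO hyz
      rw [SimpleGraph.mem_edgeSet] at h1
      exact Finset.mem_coe.2 ((mem_U1 _).2 h1)

theorem StopD.exists {O Q : Set (Sym2 (V d))} {n : ℝ} {r : ℕ} (hO : O ⊆ (lat d).edgeSet)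
    (hfin : ∀ x, (Cl Q x).Finite) (h : ∃ z, RchL O r 0 z ∧ n ≤ ((Cl Q z).ncard : ℝ)) :
    ∃ j ≤ r, ∃ z V1 U, StopD O Q n j z V1 U := by
  classical
  have hex : ∃ j, ∃ z, RchL O j 0 z ∧ n ≤ ((Cl Q z).ncard : ℝ) := ⟨r, h⟩
  have hj := Nat.find_spec hex
  have hjm : ∀ i < Nat.find hex, ¬ ∃ z, RchL O i 0 z ∧ n ≤ ((Cl Q z).ncard : ℝ) :=
    fun i hi => Nat.find_min hex hi
  have hjr : Nat.find hex ≤ r := Nat.find_min' hex h
  generalize Nat.find hex = j at hj hjm hjr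
  have hex2 : ∃ m, ∃ z : V d, enc z = m ∧ RchL O j 0 z ∧ n ≤ ((Cl Q z).ncard : ℝ) := by
    obtain ⟨z, hz⟩ := hj
    exact ⟨enc z, z, rfl, hz⟩
  obtain ⟨z, hzm, hz1, hz2⟩ := Nat.find_spec hex2
  have hmm : ∀ m < enc z, ¬ ∃ z : V d, enc z = m ∧ RchL O j 0 z ∧ n ≤ ((Cl Q z).ncard : ℝ) := by
    rw [hzm]
    exact fun m hm => Nat.find_min hex2 hm
  have hBf : {z' | Bef O j z z'}.Finite := by
    refine ((Set.finite_Iic j).biUnion (t := fun i => {z' | RchL O i 0 z'})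
      fun i _ => ball_finite hO i 0).subset ?_
    rintro z' (⟨i, hi, hz'⟩ | ⟨hz', _⟩)
    · exact Set.mem_biUnion (x := i) (Set.mem_Iic.2 hi.le) hz'
    · exact Set.mem_biUnion (x := j) (Set.mem_Iic.2 le_rfl) hz'
  have hUf : (Cl Q z ∪ ⋃ z' ∈ {z' | Bef O j z z'}, Cl Q z').Finite :=
    (hfin z).union (hBf.biUnion fun z' _ => hfin z')
  refine ⟨j, hjr, z, (hfin z).toFinset, hUf.toFinset, ?_, ?_, ?_, ?_, ?_⟩
  · refine ⟨hz1, fun m hm hzm' => hjm m hm ⟨z, hzm', hz2⟩⟩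
  · simp
  · rw [← Set.ncard_eq_toFinset_card (Cl Q z) (hfin z)]
    exact hz2
  · intro z' hz'
    refine ⟨hfin z', ?_⟩
    by_contra hcon
    rw [not_lt] at hcon
    rcases hz' with ⟨i, hi, h1⟩ | ⟨h1, h2⟩
    · exact hjm i hi ⟨z', h1, hcon⟩
    · exact hmm (enc z') h2 ⟨z', rfl, h1, hcon⟩
  · simp only [Set.Finite.coe_toFinset]

theorem StopD.to_inf {O Q : Set (Sym2 (V d))} (hQ : Q ⊆ O) {n : ℝ} {j : ℕ} {z : V d}
    {V1 U : Finset (V d)} (h : StopD O Q n j z V1 U) {q : V d × V d} (hq : q ∈ bdE V1 U)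
    (hq1 : und q ∈ O) (hq2 : (ClA (Del.ofSet (U : Set (V d))) O q.2).Infinite) :
    (Cl O (0 : V d)).Infinite := by
  have h1 : Rch O 0 z := h.sph.1.rch
  have h2 : q.1 ∈ Cl Q z := by
    rw [h.cl]
    exact Finset.mem_coe.2 (mem_bdE.1 hq).1
  have h3 : Rch O z q.1 := Rch.mono hQ h2
  have h4 : Rch O 0 q.2 := (h1.trans h3).tail hq1
  have h5 : Cl O q.2 = Cl O 0 := Cl_eq_of_mem h4
  rw [← h5]
  exact hq2.mono (ClA_subset_Cl _ _ _)

theorem stopE_good_subset {p n : ℝ} (hp : pc d ≤ p) (j : ℕ) (z : V d) (V1 U : Finset (V d)) :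
    StopE p n j z V1 U ∩ GoodEv p V1 U ⊆ {ω | (Cl (opn p ω) (0 : V d)).Infinite} := by
  rintro ω ⟨h1, q, hq, hl, hinf⟩
  have h2 : StopD (opn p ω) (Oc ω) n j z V1 U := h1
  refine h2.to_inf (opn_mono hp ω) hq ⟨?_, hl⟩ hinf
  have h3 := (mem_bdE.1 hq).2.2
  exact (SimpleGraph.mem_edgeSet _).2 h3

end Pool.Agent.PB
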