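import Pool.Agent.PB.L.Stop
import Pool.Agent.PB.P.Loc

/-!
# PROJECT PB, module PBL-StopB: locality of `StopD` (deterministic)

`B = Bset V1 U` (undirected edges between `V1` and the complement of `U`).
-/

set_option autoImplicit false
open MeasureTheory Filter Topology
open scoped ENNReal BigOperators

namespace Pool.Agent.PB

variable {d : ℕ}

private theorem rchL_congr {W : Type*} {O O' : Set (Sym2 W)} {K : Set W} {j : ℕ} {o : W}
    (hK : ∀ i < j, ∀ x, RchL O i o x → x ∈ K)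
    (hE : ∀ e : Sym2 W, (∃ x ∈ e, x ∈ K) → (e ∈ O ↔ e ∈ O')) :
    ∀ i ≤ j, ∀ x, RchL O i o x ↔ RchL O' i o x := by
  intro i
  induction i with
  | zero => intro _ x; exact Iff.rfl
  | succ i ih =>
    intro hi x
    have ih' := ih (by omega)
    constructor
    · rintro (h | ⟨z, hz, hzx⟩)
      · exact Or.inl ((ih' x).1 h)
      · exact Or.inr ⟨z, (ih' z).1 hz,
          (hE _ ⟨z, Sym2.mem_mk_left z x, hK i (by omega) z hz⟩).1 hzx⟩
    · rintro (h | ⟨z, hz, hzx⟩)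
      · exact Or.inl ((ih' x).2 h)
      · have hz' := (ih' z).2 hz
        exact Or.inr ⟨z, hz', (hE _ ⟨z, Sym2.mem_mk_left z x, hK i (by omega) z hz'⟩).2 hzx⟩

private theorem bef_iff {O O' : Set (Sym2 (V d))} {j : ℕ}
    (hR : ∀ i ≤ j, ∀ x, RchL O i (0 : V d) x ↔ RchL O' i 0 x) (z z' : V d) :
    Bef O j z z' ↔ Bef O' j z z' := by
  unfold Bef
  constructor
  · rintro (⟨i, hi, h⟩ | ⟨h, h'⟩)
    · exact Or.inl ⟨i, hi, (hR i hi.le z').1 h⟩
    · exact Or.inr ⟨(hR j le_rfl z').1 h, h'⟩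
  · rintro (⟨i, hi, h⟩ | ⟨h, h'⟩)
    · exact Or.inl ⟨i, hi, (hR i hi.le z').2 h⟩
    · exact Or.inr ⟨(hR j le_rfl z').2 h, h'⟩

private theorem stop_trans {O Q O' Q' : Set (Sym2 (V d))} {n : ℝ} {j : ℕ} {z : V d}
    {V1 U : Finset (V d)} (h : StopD O Q n j z V1 U)
    (hR : ∀ i ≤ j, ∀ x, RchL O i (0 : V d) x ↔ RchL O' i 0 x) (hz : Cl Q' z = Cl Q z)
    (hC : ∀ z', Bef O j z z' → Cl Q' z' = Cl Q z') : StopD O' Q' n j z V1 U where
  sph := ⟨(hR j le_rfl z).1 h.sph.1, fun m hm h' => h.sph.2 m hm ((hR m hm.le z).2 h')⟩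
  cl := by rw [hz, h.cl]
  big := h.big
  small := by
    intro z' hz'
    have h1 := (bef_iff hR z z').2 hz'
    rw [hC z' h1]
    exact h.small z' h1
  ecl := by
    rw [h.ecl]
    congr 1
    ext x
    simp only [Set.mem_iUnion, exists_prop, Set.mem_ofPred_eq]
    constructor
    · rintro ⟨z', hz', hx⟩
      exact ⟨z', (bef_iff hR z z').1 hz', by rw [hC z' hz']; exact hx⟩
    · rintro ⟨z', hz', hx⟩
      have h1 := (bef_iff hR z z').2 hz'
      exact ⟨z', h1, by rw [← hC z' h1]; exact hx⟩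

private theorem bef_mem {O Q : Set (Sym2 (V d))} {n : ℝ} {j : ℕ} {z : V d} {V1 U : Finset (V d)}
    (h : StopD O Q n j z V1 U) {i : ℕ} (hi : i < j) {x : V d} (hx : RchL O i 0 x) :
    x ∈ U ∧ x ∉ V1 := by
  have hb : Bef O j z x := Or.inl ⟨i, hi, hx⟩
  exact ⟨h.mem_U hb (self_mem_Cl Q x), h.notMem hb x (self_mem_Cl Q x)⟩

private theorem not_mem_B {V1 U : Finset (V d)} {e : Sym2 (V d)}
    (h : ∃ x ∈ e, x ∈ ((U : Set (V d)) \ V1)) : e ∉ Bset V1 U := by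
  obtain ⟨x, hx, hxU, hxV⟩ := h
  rintro ⟨q, hq, rfl⟩
  have h1 := mem_bdE.1 (Finset.mem_coe.1 hq)
  rcases Sym2.mem_iff.1 hx with rfl | rfl
  · exact hxV h1.1
  · exact h1.2.1 hxU

theorem StopD_diff {O Q : Set (Sym2 (V d))} {n : ℝ} {j : ℕ} {z : V d} {V1 U : Finset (V d)} :
    StopD O Q n j z V1 U ↔
      (StopD (O \ Bset V1 U) (Q \ Bset V1 U) n j z V1 U ∧ Disjoint (Bset V1 U) Q) := by
  constructor
  · intro h
    have hdis : Disjoint (Bset V1 U) Q := by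
      rw [Set.disjoint_left]
      rintro e ⟨q, hq, rfl⟩ he
      have h1 := mem_bdE.1 (Finset.mem_coe.1 hq)
      have h2 : q.1 ∈ Cl Q z := by rw [h.cl]; exact h1.1
      have h3 : q.2 ∈ Cl Q z := Cl_closed h2 he
      rw [h.cl] at h3
      exact h1.2.1 (h.subset h3)
    have hQ : Q \ Bset V1 U = Q := sdiff_eq_left.2 hdis.symm
    refine ⟨?_, hdis⟩
    rw [hQ]
    refine stop_trans h (rchL_congr (K := (U : Set (V d)) \ V1)
      (fun i hi x hx => bef_mem h hi hx) ?_) rfl (fun _ _ => rfl)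
    intro e he
    exact ⟨fun h1 => ⟨h1, not_mem_B he⟩, fun h1 => h1.1⟩
  · rintro ⟨h, hdis⟩
    have hQ : Q \ Bset V1 U = Q := sdiff_eq_left.2 hdis.symm
    rw [hQ] at h
    refine stop_trans h (rchL_congr (K := (U : Set (V d)) \ V1)
      (fun i hi x hx => bef_mem h hi hx) ?_) rfl (fun _ _ => rfl)
    intro e he
    exact ⟨fun h1 => h1.1, fun h1 => ⟨h1, not_mem_B he⟩⟩

private theorem cl_touch {Q : Set (Sym2 (V d))} {U : Set (V d)} {x : V d} (h : Cl Q x ⊆ U) :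
    Cl (Q ∩ touch U) x = Cl Q x := by
  refine (Cl_eq_congr (O := Q) (O' := Q ∩ touch U) (K := Cl Q x) ?_).1 rfl
  ext e
  simp only [Set.mem_inter_iff]
  constructor
  · rintro ⟨h1, y, hy, hyC⟩
    exact ⟨⟨h1, y, hy, h hyC⟩, y, hy, hyC⟩
  · rintro ⟨⟨h1, -⟩, h2⟩
    exact ⟨h1, h2⟩

private theorem cl_touch' {Q : Set (Sym2 (V d))} {U : Set (V d)} {x : V d}
    (h : Cl (Q ∩ touch U) x ⊆ U) : Cl Q x = Cl (Q ∩ touch U) x := by
  refine (Cl_eq_congr (O := Q ∩ touch U) (O' := Q) (K := Cl (Q ∩ touch U) x) ?_).1 rfl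
  ext e
  simp only [Set.mem_inter_iff]
  constructor
  · rintro ⟨⟨h1, -⟩, h2⟩
    exact ⟨h1, h2⟩
  · rintro ⟨h1, y, hy, hyC⟩
    exact ⟨⟨h1, y, hy, h hyC⟩, y, hy, hyC⟩

theorem StopD_touch {O Q : Set (Sym2 (V d))} {n : ℝ} {j : ℕ} {z : V d} {V1 U : Finset (V d)} :
    StopD O Q n j z V1 U ↔
      StopD (O ∩ touch (U : Set (V d))) (Q ∩ touch (U : Set (V d))) n j z V1 U := by
  constructor
  · intro h
    refine stop_trans h (rchL_congr (K := (U : Set (V d)))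
      (fun i hi x hx => (bef_mem h hi hx).1) ?_) ?_ ?_
    · intro e he
      exact ⟨fun h1 => ⟨h1, he⟩, fun h1 => h1.1⟩
    · refine cl_touch ?_
      rw [h.cl]
      exact_mod_cast h.subset
    · intro z' hz'
      exact cl_touch (h.mem_U hz')
  · intro h
    refine stop_trans h (rchL_congr (K := (U : Set (V d)))
      (fun i hi x hx => (bef_mem h hi hx).1) ?_) ?_ ?_
    · intro e he
      exact ⟨fun h1 => h1.1, fun h1 => ⟨h1, he⟩⟩
    · refine cl_touch' ?_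
      rw [h.cl]
      exact_mod_cast h.subset
    · intro z' hz'
      exact cl_touch' (h.mem_U hz')

theorem StopD_congr {O Q O' Q' : Set (Sym2 (V d))} {n : ℝ} {j : ℕ} {z : V d} {V1 U : Finset (V d)}
    (h1 : O ∩ touch (U : Set (V d)) = O' ∩ touch (U : Set (V d)))
    (h2 : Q ∩ touch (U : Set (V d)) = Q' ∩ touch (U : Set (V d))) :
    StopD O Q n j z V1 U ↔ StopD O' Q' n j z V1 U := by
  rw [StopD_touch, h1, h2, ← StopD_touch]

end Pool.Agent.PB
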